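import Mathlib

/-!
# MP_86abfd_al, piece A: `|Hom(A,B)| ≤ |B| ^ log₂ |A|`
-/

namespace Pool.Agent.FH

theorem A_exists_generators {A : Type*} [Group A] [Finite A] (H : Subgroup A) :
    ∃ S : Finset A, H ⊔ Subgroup.closure (S : Set A) = ⊤ ∧
      2 ^ S.card * Nat.card H ≤ Nat.card A := by
  classical
  induction H using WellFoundedGT.induction with
  | ind H ih =>
    by_cases hH : H = ⊤
    · exact ⟨∅, by simp [hH], by simp [hH]⟩
    · obtain ⟨a, -, ha⟩ := SetLike.exists_of_lt (lt_top_iff_ne_top.2 hH)
      have hlt : H < H ⊔ Subgroup.closure {a} := by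
        refine lt_of_le_of_ne le_sup_left fun h => ha ?_
        rw [h]
        exact (le_sup_right : Subgroup.closure {a} ≤ H ⊔ Subgroup.closure {a})
          (Subgroup.subset_closure rfl)
      obtain ⟨S, hS, hc⟩ := ih _ hlt
      refine ⟨insert a S, ?_, ?_⟩
      · rw [← hS, sup_assoc, ← Subgroup.closure_union, Finset.coe_insert, Set.insert_eq]
      · have h2 : 2 * Nat.card H ≤ Nat.card (H ⊔ Subgroup.closure {a} : Subgroup A) := by
          obtain ⟨k, hk⟩ := Subgroup.card_dvd_of_le hlt.le
          rw [hk]
          have hk2 : 2 ≤ k := by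
            by_contra hcon
            have : k = 0 ∨ k = 1 := by omega
            rcases this with rfl | rfl
            · rw [mul_zero] at hk
              exact Nat.card_pos.ne' hk
            · rw [mul_one] at hk
              exact hlt.ne (Subgroup.eq_of_le_of_card_ge hlt.le hk.le)
          nlinarith [Nat.zero_le (Nat.card H)]
        calc 2 ^ (insert a S).card * Nat.card H
            ≤ 2 ^ (S.card + 1) * Nat.card H := by
              gcongr
              · norm_num
              · exact Finset.card_insert_le a S
          _ = 2 ^ S.card * (2 * Nat.card H) := by ring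
          _ ≤ 2 ^ S.card * Nat.card (H ⊔ Subgroup.closure {a} : Subgroup A) := by gcongr
          _ ≤ Nat.card A := hc

theorem card_hom_le (A B : Type*) [Group A] [Finite A] [Group B] [Finite B] :
    Nat.card (A →* B) ≤ Nat.card B ^ Nat.log 2 (Nat.card A) := by
  classical
  obtain ⟨S, hS, hc⟩ := A_exists_generators (⊥ : Subgroup A)
  rw [bot_sup_eq] at hS
  have hc' : 2 ^ S.card ≤ Nat.card A := by simpa using hc
  have hlog : S.card ≤ Nat.log 2 (Nat.card A) :=
    (Nat.le_log_iff_pow_le (by norm_num) Nat.card_pos.ne').2 hc'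
  have hinj : Function.Injective (fun (f : A →* B) (s : S) => f s) := by
    intro f g hfg
    refine MonoidHom.eq_of_eqOn_dense hS fun s hs => ?_
    exact congrFun hfg ⟨s, hs⟩
  calc Nat.card (A →* B) ≤ Nat.card (S → B) := Nat.card_le_card_of_injective _ hinj
    _ = Nat.card B ^ S.card := by simp [Nat.card_fun]
    _ ≤ Nat.card B ^ Nat.log 2 (Nat.card A) := Nat.pow_le_pow_right Nat.card_pos hlog

theorem card_mulAut_le (A : Type*) [Group A] [Finite A] :
    Nat.card (MulAut A) ≤ Nat.card A ^ Nat.log 2 (Nat.card A) := by
  have : Finite (A →* A) := Finite.of_injective (fun f : A →* A => (f : A → A))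
    DFunLike.coe_injective
  refine le_trans ?_ (card_hom_le A A)
  exact Nat.card_le_card_of_injective (fun e : MulAut A => e.toMonoidHom) fun e f h => by
    ext x
    exact DFunLike.congr_fun h x

end Pool.Agent.FH
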