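import Pool.Agent.Lib.MP_86abfd_al.Defs

set_option linter.unusedSectionVars false
set_option linter.style.haveILetI false

namespace Pool.Agent.FH

open scoped Pointwise

section FieldPart

variable {G V : Type} [Group G] [Finite G] [AddCommGroup V] [Finite V] [DistribMulAction G V]

/-- the action as a monoid homomorphism to the endomorphism ring -/
def B_rho (G V : Type) [Group G] [AddCommGroup V] [DistribMulAction G V] :
    G →* AddMonoid.End V := DistribMulAction.toAddMonoidEnd G V

theorem B_rho_apply (g : G) (v : V) : B_rho G V g v = g • v := rfl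

theorem B_finite_end : Finite (AddMonoid.End V) :=
  Finite.of_injective (fun f : AddMonoid.End V => (f : V → V)) DFunLike.coe_injective

theorem B_rho_inv_mul (x : G) : B_rho G V x⁻¹ * B_rho G V x = 1 := by
  rw [← map_mul, inv_mul_cancel, map_one]

theorem B_rho_mul_inv (x : G) : B_rho G V x * B_rho G V x⁻¹ = 1 := by
  rw [← map_mul, mul_inv_cancel, map_one]

/-- in a finite commutative family every nonzero vector can be moved to a nonzero vector killed by
all nilpotent elements -/
theorem B_exists_killed (R : Subring (AddMonoid.End V)) (hcomm : ∀ a ∈ R, ∀ b ∈ R, a * b = b * a)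
    [Nontrivial V] : ∃ v : V, v ≠ 0 ∧ ∀ a ∈ R, IsNilpotent a → a v = 0 := by
  classical
  have : Finite (AddMonoid.End V) := B_finite_end
  have hfin : ({a : AddMonoid.End V | a ∈ R ∧ IsNilpotent a}).Finite := Set.toFinite _
  suffices H : ∀ s : Finset (AddMonoid.End V), (∀ a ∈ s, a ∈ R ∧ IsNilpotent a) →
      ∃ v : V, v ≠ 0 ∧ ∀ a ∈ s, a v = 0 by
    obtain ⟨v, hv, h⟩ := H hfin.toFinset (fun a ha => by simpa using ha)
    exact ⟨v, hv, fun a ha hn => h a (by simpa using ⟨ha, hn⟩)⟩
  intro s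
  induction s using Finset.induction_on with
  | empty =>
    intro _
    obtain ⟨v, hv⟩ := exists_ne (0 : V)
    exact ⟨v, hv, by simp⟩
  | insert a s ha ih =>
    intro hs
    obtain ⟨v, hv, h⟩ := ih (fun b hb => hs b (Finset.mem_insert_of_mem hb))
    obtain ⟨haR, n, hn⟩ := hs a (Finset.mem_insert_self _ _)
    have hex : ∃ n, (a ^ n) v = 0 := ⟨n, by rw [hn]; rfl⟩
    have h0 : Nat.find hex ≠ 0 := by
      intro h0
      have := Nat.find_spec hex
      rw [h0, pow_zero] at this
      exact hv this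
    obtain ⟨m, hm⟩ := Nat.exists_eq_succ_of_ne_zero h0
    refine ⟨(a ^ m) v, ?_, ?_⟩
    · exact Nat.find_min hex (by omega)
    · intro b hb
      rw [Finset.mem_insert] at hb
      rcases hb with rfl | hb
      · have := Nat.find_spec hex
        rw [hm, pow_succ'] at this
        exact this
      · have hc : b * a ^ m = a ^ m * b := by
          have : Commute b a := hcomm b (hs b (Finset.mem_insert_of_mem hb)).1 a haR
          exact (this.pow_right m).eq
        have : (b * a ^ m) v = (a ^ m * b) v := by rw [hc]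
        have h2 : b ((a ^ m) v) = (a ^ m) (b v) := this
        rw [h2, h b hb, map_zero]

theorem B_conj_mul (x : G) (a b : AddMonoid.End V) :
    (B_rho G V x * a * B_rho G V x⁻¹) * (B_rho G V x * b * B_rho G V x⁻¹) =
      B_rho G V x * (a * b) * B_rho G V x⁻¹ := by
  calc _ = B_rho G V x * a * (B_rho G V x⁻¹ * B_rho G V x) * b * B_rho G V x⁻¹ := by
        simp only [mul_assoc]
    _ = _ := by rw [B_rho_inv_mul]; simp only [mul_assoc, one_mul]

theorem B_conj_pow (x : G) (a : AddMonoid.End V) (n : ℕ) :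
    (B_rho G V x * a * B_rho G V x⁻¹) ^ (n + 1) = B_rho G V x * a ^ (n + 1) * B_rho G V x⁻¹ := by
  induction n with
  | zero => simp
  | succ n ih => rw [pow_succ, ih, B_conj_mul, ← pow_succ]

/-- no nilpotents -/
theorem B_reduced (hirr : Irred G V) (R : Subring (AddMonoid.End V))
    (hcomm : ∀ a ∈ R, ∀ b ∈ R, a * b = b * a)
    (hconj : ∀ x : G, ∀ a ∈ R, B_rho G V x * a * B_rho G V x⁻¹ ∈ R)
    {a : AddMonoid.End V} (ha : a ∈ R) (hn : IsNilpotent a) : a = 0 := by
  have := hirr.1
  let U : AddSubgroup V :=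
    { carrier := {v | ∀ a ∈ R, IsNilpotent a → a v = 0}
      zero_mem' := fun a _ _ => map_zero a
      add_mem' := fun {u v} hu hv a ha hn => by rw [map_add, hu a ha hn, hv a ha hn, add_zero]
      neg_mem' := fun {u} hu a ha hn => by rw [map_neg, hu a ha hn, neg_zero] }
  obtain ⟨v, hv, hvk⟩ := B_exists_killed R hcomm
  have hU : U = ⊤ := by
    refine (hirr.2 U ?_).resolve_left ?_
    · intro g u hu a ha hn
      have h1 := hconj g⁻¹ a ha
      have h2 : IsNilpotent (B_rho G V g⁻¹ * a * B_rho G V g⁻¹⁻¹) := by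
        obtain ⟨n, hn⟩ := hn
        refine ⟨n + 1, ?_⟩
        rw [B_conj_pow, pow_succ, hn, zero_mul, mul_zero, zero_mul]
      have h3 := hu _ h1 h2
      have h4 : g⁻¹ • a (g⁻¹⁻¹ • u) = 0 := h3
      rw [inv_inv] at h4
      have h5 := congrArg (fun y => g • y) h4
      simpa using h5
    · intro h
      have : v ∈ U := hvk
      rw [h, AddSubgroup.mem_bot] at this
      exact hv this
  ext w
  have : w ∈ U := by rw [hU]; trivial
  exact this a ha hn

/-- an idempotent `f ∈ R`, `f ≠ 0`, minimal: every idempotent `e ∈ R` satisfies `f * e = f` or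
`f * e = 0` -/
theorem B_exists_atom (R : Subring (AddMonoid.End V)) (hcomm : ∀ a ∈ R, ∀ b ∈ R, a * b = b * a)
    [Nontrivial V] : ∃ f ∈ R, f * f = f ∧ f ≠ 0 ∧ ∀ e ∈ R, e * e = e → f * e = f ∨ f * e = 0 := by
  classical
  have : Finite (AddMonoid.End V) := B_finite_end
  let P : Set (AddMonoid.End V) := {f | f ∈ R ∧ f * f = f ∧ f ≠ 0}
  have h10 : (1 : AddMonoid.End V) ≠ 0 := by
    intro h
    obtain ⟨v, hv⟩ := exists_ne (0 : V)
    exact hv (congrArg (fun a : AddMonoid.End V => a v) h)
  have hne : P.Nonempty := ⟨1, R.one_mem, one_mul 1, h10⟩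
  obtain ⟨f, hf, hmin⟩ := Set.exists_min_image P (fun f => Nat.card (AddMonoidHom.range (f : V →+ V)))
    (Set.toFinite _) hne
  refine ⟨f, hf.1, hf.2.1, hf.2.2, fun e he hee => ?_⟩
  by_cases h0 : f * e = 0
  · exact Or.inr h0
  left
  have hfe : f * e = e * f := hcomm f hf.1 e he
  have h1 : f * e ∈ P := by
    refine ⟨R.mul_mem hf.1 he, ?_, h0⟩
    calc f * e * (f * e) = f * (e * f) * e := by simp only [mul_assoc]
      _ = f * (f * e) * e := by rw [hfe]
      _ = (f * f) * (e * e) := by simp only [mul_assoc]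
      _ = f * e := by rw [hf.2.1, hee]
  have h2 := hmin _ h1
  have h3 : AddMonoidHom.range (f * e : V →+ V) ≤ AddMonoidHom.range (f : V →+ V) := by
    rintro _ ⟨v, rfl⟩
    exact ⟨e v, rfl⟩
  have h4 : AddMonoidHom.range (f * e : V →+ V) = AddMonoidHom.range (f : V →+ V) := by
    apply SetLike.coe_injective
    apply Set.eq_of_subset_of_ncard_le h3
    exact h2
  ext v
  have h5 : f v ∈ AddMonoidHom.range (f * e : V →+ V) := by rw [h4]; exact ⟨v, rfl⟩
  obtain ⟨w, hw⟩ := h5
  have h6 : (f * e) w = f v := hw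
  have h7 : (f * e) (f v) = f v := by
    rw [← h6]
    have : (f * e * (f * e)) w = (f * e) w := by rw [h1.2.1]
    exact this
  have h8 : (f * e) v = (f * e) (f v) := by
    have : f * e = f * e * f := by
      calc f * e = (f * f) * e := by rw [hf.2.1]
        _ = f * (f * e) := mul_assoc _ _ _
        _ = f * (e * f) := by rw [hfe]
        _ = _ := (mul_assoc _ _ _).symm
    calc (f * e) v = (f * e * f) v := by rw [← this]
      _ = _ := rfl
  rw [h8, h7]

/-- idempotents are trivial -/
theorem B_idem (hirr : Irred G V) (hp : Prim G V) (R : Subring (AddMonoid.End V))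
    (hcomm : ∀ a ∈ R, ∀ b ∈ R, a * b = b * a)
    (hconj : ∀ x : G, ∀ a ∈ R, B_rho G V x * a * B_rho G V x⁻¹ ∈ R)
    {e : AddMonoid.End V} (he : e ∈ R) (hee : e * e = e) : e = 1 ∨ e = 0 := by
  classical
  have := hirr.1
  have : Fintype G := Fintype.ofFinite G
  obtain ⟨f, hfR, hff, hf0, hfa⟩ := B_exists_atom R hcomm
  let cj : G → AddMonoid.End V := fun x => B_rho G V x * f * B_rho G V x⁻¹
  let O : Finset (AddMonoid.End V) := Finset.univ.image cj
  have hO : ∀ o ∈ O, ∃ x : G, o = B_rho G V x * f * B_rho G V x⁻¹ := by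
    intro o ho
    obtain ⟨x, -, rfl⟩ := Finset.mem_image.1 ho
    exact ⟨x, rfl⟩
  have hOR : ∀ o ∈ O, o ∈ R := by
    intro o ho
    obtain ⟨x, rfl⟩ := hO o ho
    exact hconj x f hfR
  have hOi : ∀ o ∈ O, o * o = o := by
    intro o ho
    obtain ⟨x, rfl⟩ := hO o ho
    rw [B_conj_mul, hff]
  have hO0 : ∀ o ∈ O, o ≠ 0 := by
    intro o ho h0
    obtain ⟨x, rfl⟩ := hO o ho
    apply hf0
    calc f = (B_rho G V x⁻¹ * B_rho G V x) * f * (B_rho G V x⁻¹ * B_rho G V x) := by
          rw [B_rho_inv_mul, one_mul, mul_one]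
      _ = B_rho G V x⁻¹ * (B_rho G V x * f * B_rho G V x⁻¹) * B_rho G V x := by
          simp only [mul_assoc]
      _ = 0 := by rw [h0, mul_zero, zero_mul]
  have hOa : ∀ o ∈ O, ∀ e ∈ R, e * e = e → o * e = o ∨ o * e = 0 := by
    intro o ho e he hee
    obtain ⟨x, rfl⟩ := hO o ho
    have h1 : B_rho G V x⁻¹ * e * B_rho G V x⁻¹⁻¹ ∈ R := hconj x⁻¹ e he
    have h2 : (B_rho G V x⁻¹ * e * B_rho G V x⁻¹⁻¹) * (B_rho G V x⁻¹ * e * B_rho G V x⁻¹⁻¹) =
        B_rho G V x⁻¹ * e * B_rho G V x⁻¹⁻¹ := by rw [B_conj_mul, hee]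
    rw [inv_inv] at h1 h2
    have h3 : B_rho G V x * f * B_rho G V x⁻¹ * e =
        B_rho G V x * (f * (B_rho G V x⁻¹ * e * B_rho G V x)) * B_rho G V x⁻¹ := by
      calc _ = B_rho G V x * f * B_rho G V x⁻¹ * e * (B_rho G V x * B_rho G V x⁻¹) := by
            rw [B_rho_mul_inv, mul_one]
        _ = _ := by simp only [mul_assoc]
    rcases hfa _ h1 h2 with h | h
    · left; rw [h3, h]
    · right; rw [h3, h, mul_zero, zero_mul]
  have hort : ∀ o ∈ O, ∀ o' ∈ O, o ≠ o' → o * o' = 0 := by
    intro o ho o' ho' hne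
    rcases hOa o ho o' (hOR o' ho') (hOi o' ho') with h | h
    · rcases hOa o' ho' o (hOR o ho) (hOi o ho) with h' | h'
      · exact absurd (by rw [← h, hcomm o (hOR o ho) o' (hOR o' ho'), h']) hne
      · rw [hcomm o (hOR o ho) o' (hOR o' ho'), h']
    · exact h
  set s : AddMonoid.End V := ∑ o ∈ O, o with hs
  have hso : ∀ o ∈ O, s * o = o := by
    intro o ho
    rw [hs, Finset.sum_mul, Finset.sum_eq_single o]
    · exact hOi o ho
    · intro o' ho' hne
      exact hort o' ho' o ho hne
    · exact fun h => absurd ho h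
  have hss : s * s = s := by
    conv_lhs => rw [hs]
    rw [← hs, Finset.mul_sum]
    conv_rhs => rw [hs]
    exact Finset.sum_congr rfl hso
  have hcjmem : ∀ x : G, ∀ o ∈ O, B_rho G V x * o * B_rho G V x⁻¹ ∈ O := by
    intro x o ho
    obtain ⟨y, rfl⟩ := hO o ho
    refine Finset.mem_image.2 ⟨x * y, Finset.mem_univ _, ?_⟩
    show B_rho G V (x * y) * f * B_rho G V (x * y)⁻¹ = _
    rw [mul_inv_rev, map_mul, map_mul]
    simp only [mul_assoc]
  have hsconj : ∀ x : G, B_rho G V x * s * B_rho G V x⁻¹ = s := by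
    intro x
    rw [hs, Finset.mul_sum, Finset.sum_mul]
    refine Finset.sum_bij' (fun o _ => B_rho G V x * o * B_rho G V x⁻¹)
      (fun o _ => B_rho G V x⁻¹ * o * B_rho G V x) (fun o ho => hcjmem x o ho) ?_ ?_ ?_ ?_
    · intro o ho
      have := hcjmem x⁻¹ o ho
      rwa [inv_inv] at this
    · intro o _
      calc _ = (B_rho G V x⁻¹ * B_rho G V x) * o * (B_rho G V x⁻¹ * B_rho G V x) := by
            simp only [mul_assoc]
        _ = o := by rw [B_rho_inv_mul, one_mul, mul_one]
    · intro o _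
      calc _ = (B_rho G V x * B_rho G V x⁻¹) * o * (B_rho G V x * B_rho G V x⁻¹) := by
            simp only [mul_assoc]
        _ = o := by rw [B_rho_mul_inv, one_mul, mul_one]
    · intro o _; rfl
  have hscomm : ∀ x : G, B_rho G V x * s = s * B_rho G V x := by
    intro x
    conv_rhs => rw [← hsconj x]
    rw [mul_assoc, B_rho_inv_mul, mul_one]
  have hf1 : f ∈ O := Finset.mem_image.2 ⟨1, Finset.mem_univ _, by
    show B_rho G V 1 * f * B_rho G V 1⁻¹ = f
    rw [inv_one, map_one, one_mul, mul_one]⟩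
  have hrange : AddMonoidHom.range (s : V →+ V) = ⊤ := by
    refine (hirr.2 _ ?_).resolve_left ?_
    · rintro g _ ⟨v, rfl⟩
      refine ⟨g • v, ?_⟩
      have := congrArg (fun a : AddMonoid.End V => a v) (hscomm g)
      exact this.symm
    · intro h
      apply hf0
      ext v
      have : (s : V →+ V) (f v) ∈ AddMonoidHom.range (s : V →+ V) := ⟨f v, rfl⟩
      rw [h, AddSubgroup.mem_bot] at this
      have h2 : (s * f) v = f v := by rw [hso f hf1]
      exact h2.symm.trans this
  have hs1 : s = 1 := by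
    ext v
    have : v ∈ AddMonoidHom.range (s : V →+ V) := by rw [hrange]; trivial
    obtain ⟨w, hw⟩ := this
    have h1 : (s * s) w = s w := by rw [hss]
    have h2 : s (s w) = s w := h1
    have hw' : s w = v := hw
    rw [hw'] at h2
    exact h2
  -- the system
  have hsys : IsSystem G V {W | ∃ o ∈ O, W = AddMonoidHom.range (o : V →+ V)} := by
    refine ⟨?_, ?_, ?_, ?_⟩
    · rintro _ ⟨o, ho, rfl⟩ h
      apply hO0 o ho
      ext v
      have : (o : V →+ V) v ∈ AddMonoidHom.range (o : V →+ V) := ⟨v, rfl⟩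
      rw [h, AddSubgroup.mem_bot] at this
      exact this
    · rintro _ ⟨o, ho, rfl⟩
      have hker : sSup ({W | ∃ o ∈ O, W = AddMonoidHom.range (o : V →+ V)} \
          {AddMonoidHom.range (o : V →+ V)}) ≤ AddMonoidHom.ker (o : V →+ V) := by
        apply sSup_le
        rintro _ ⟨⟨o', ho', rfl⟩, hne⟩
        rintro _ ⟨v, rfl⟩
        have : o ≠ o' := by
          rintro rfl
          exact hne rfl
        have h := congrArg (fun a : AddMonoid.End V => a v) (hort o ho o' ho' this)
        exact h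
      rw [disjoint_iff_inf_le]
      rintro v ⟨⟨w, hw⟩, hv2⟩
      have h1 : (o : V →+ V) v = 0 := hker hv2
      have h2 : (o * o) w = o w := by rw [hOi o ho]
      have h3 : o (o w) = o w := h2
      have hw' : o w = v := hw
      rw [hw'] at h3
      exact h3.symm.trans h1
    · rw [eq_top_iff]
      intro v _
      have h1 : v = ∑ o ∈ O, o v := by
        have : (1 : AddMonoid.End V) v = s v := by rw [hs1]
        have h2 : s v = ∑ o ∈ O, o v := by
          rw [hs]
          exact AddMonoidHom.finsetSum_apply _ _ _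
        exact this.trans h2
      rw [h1]
      refine AddSubgroup.sum_mem _ fun o ho => ?_
      have hle : AddMonoidHom.range (o : V →+ V) ≤
          sSup {W | ∃ o ∈ O, W = AddMonoidHom.range (o : V →+ V)} := le_sSup ⟨o, ho, rfl⟩
      exact hle ⟨v, rfl⟩
    · rintro g _ ⟨o, ho, rfl⟩
      refine ⟨_, hcjmem g o ho, ?_⟩
      ext v
      constructor
      · intro hv
        rw [AddSubgroup.mem_pointwise_smul_iff_inv_smul_mem] at hv
        obtain ⟨w, hw⟩ := hv
        refine ⟨g • w, ?_⟩
        have hw' : o w = g⁻¹ • v := hw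
        show g • o (g⁻¹ • g • w) = v
        rw [inv_smul_smul, hw', smul_inv_smul]
      · rintro ⟨w, rfl⟩
        rw [AddSubgroup.mem_pointwise_smul_iff_inv_smul_mem]
        refine ⟨g⁻¹ • w, ?_⟩
        show o (g⁻¹ • w) = g⁻¹ • (g • o (g⁻¹ • w))
        rw [inv_smul_smul]
  have hsub := hp _ hsys
  have hOf : ∀ o ∈ O, o = f := by
    intro o ho
    by_contra hne
    have h1 : AddMonoidHom.range (o : V →+ V) = AddMonoidHom.range (f : V →+ V) :=
      hsub ⟨o, ho, rfl⟩ ⟨f, hf1, rfl⟩
    apply hf0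
    ext v
    have h2 : f v ∈ AddMonoidHom.range (o : V →+ V) := by rw [h1]; exact ⟨v, rfl⟩
    obtain ⟨w, hw⟩ := h2
    have hw' : o w = f v := hw
    have h3 : (o * f) v = 0 := by rw [hort o ho f hf1 hne]; rfl
    have h4 : o (f v) = 0 := h3
    rw [← hw'] at h4
    have h5 : (o * o) w = o w := by rw [hOi o ho]
    have h6 : o (o w) = o w := h5
    rw [h4] at h6
    rw [← hw', ← h6]
    rfl
  have hOs : O = {f} := by
    ext o
    rw [Finset.mem_singleton]
    exact ⟨hOf o, fun h => h ▸ hf1⟩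
  have hf1' : f = 1 := by
    rw [← hs1, hs, hOs, Finset.sum_singleton]
  have := hfa e he hee
  rw [hf1', one_mul] at this
  exact this

/-- a commutative subring of `End V` normalised by `G` is a field -/
theorem B_isUnit (hirr : Irred G V) (hp : Prim G V) (R : Subring (AddMonoid.End V))
    (hcomm : ∀ a ∈ R, ∀ b ∈ R, a * b = b * a)
    (hconj : ∀ x : G, ∀ a ∈ R, B_rho G V x * a * B_rho G V x⁻¹ ∈ R)
    {a : AddMonoid.End V} (ha : a ∈ R) (ha0 : a ≠ 0) : ∃ b ∈ R, a * b = 1 := by
  classical
  have : Finite (AddMonoid.End V) := B_finite_end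
  -- some power is idempotent
  obtain ⟨n, hn, hidem⟩ : ∃ n : ℕ, 0 < n ∧ a ^ n * a ^ n = a ^ n := by
    obtain ⟨m, n, hmn, h⟩ := Finite.exists_ne_map_eq_of_infinite (fun n : ℕ => a ^ n)
    wlog hlt : m < n generalizing m n
    · exact this n m hmn.symm h.symm (lt_of_le_of_ne (not_lt.1 hlt) hmn.symm)
    have h : a ^ m = a ^ n := h
    obtain ⟨d, hd, rfl⟩ : ∃ d, 0 < d ∧ n = m + d := ⟨n - m, by omega, by omega⟩
    -- a^m = a^(m+d); then a^(m + j*d) = a^m, and more generally a^(k) = a^(k + j d) for k ≥ m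
    have hper : ∀ k, m ≤ k → ∀ j, a ^ (k + j * d) = a ^ k := by
      intro k hk j
      induction j with
      | zero => simp
      | succ j ih =>
        obtain ⟨r, rfl⟩ := Nat.exists_eq_add_of_le hk
        calc a ^ (m + r + (j + 1) * d) = a ^ (m + d) * a ^ (r + j * d) := by
              rw [← pow_add]; congr 1; ring
          _ = a ^ m * a ^ (r + j * d) := by rw [← h]
          _ = a ^ (m + r + j * d) := by rw [← pow_add]; congr 1; ring
          _ = _ := ih
    refine ⟨(m + 1) * d, by positivity, ?_⟩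
    rw [← pow_add]
    exact hper _ (by nlinarith) (m + 1)
  rcases B_idem hirr hp R hcomm hconj (R.pow_mem ha n) hidem with h | h
  · refine ⟨a ^ (n - 1), R.pow_mem ha _, ?_⟩
    rw [← pow_succ', Nat.sub_add_cancel hn, h]
  · exact absurd (B_reduced hirr R hcomm hconj ha ⟨n, h⟩) ha0

end FieldPart
end Pool.Agent.FH
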