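import Pool.Agent.Lib.MP_86abfd_al.Defs

set_option linter.unusedSectionVars false
set_option linter.style.haveILetI false

namespace Pool.Agent.FH

open scoped Pointwise commutatorElement

section GroupPart

variable {G : Type} [Group G] [Finite G]

/-- the derived series of a subgroup, inside the big group -/
def B_der (Q : Subgroup G) : ℕ → Subgroup G
  | 0 => Q
  | n + 1 => ⁅B_der Q n, B_der Q n⁆

theorem B_der_normal (Q : Subgroup G) [hQ : Q.Normal] (n : ℕ) : (B_der Q n).Normal := by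
  induction n with
  | zero => exact hQ
  | succ n ih =>
    have := ih
    exact Subgroup.commutator_normal _ _

theorem B_der_le (Q : Subgroup G) (n : ℕ) : B_der Q (n + 1) ≤ B_der Q n := by
  have : ⁅B_der Q n, B_der Q n⁆ ≤ B_der Q n := Subgroup.commutator_le_self _
  exact this

theorem B_der_le_self (Q : Subgroup G) (n : ℕ) : B_der Q n ≤ Q := by
  induction n with
  | zero => exact le_rfl
  | succ n ih => exact (B_der_le Q n).trans ih

theorem B_der_le_derived (Q : Subgroup G) (n : ℕ) : B_der Q n ≤ derivedSeries G n := by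
  induction n with
  | zero => exact le_top
  | succ n ih => exact Subgroup.commutator_mono ih ih

theorem B_der_bot [Group.IsSolvable G] (Q : Subgroup G) : ∃ n, B_der Q n = ⊥ := by
  obtain ⟨n, hn⟩ := ‹Group.IsSolvable G›.solvable
  exact ⟨n, le_bot_iff.1 (hn ▸ B_der_le_derived Q n)⟩

/-- if `Q ≰ M` (everything normal) there is a normal `N ≤ Q` with `N ≰ M`, `⁅N, N⁆ ≤ M` -/
theorem B_exists_last [Group.IsSolvable G] (M Q : Subgroup G) [Q.Normal] (h : ¬ Q ≤ M) :
    ∃ N : Subgroup G, N.Normal ∧ N ≤ Q ∧ ¬ N ≤ M ∧ ⁅N, N⁆ ≤ M := by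
  classical
  obtain ⟨n, hn⟩ := B_der_bot Q
  have hex : ∃ n, B_der Q n ≤ M := ⟨n, hn ▸ bot_le⟩
  have h0 : Nat.find hex ≠ 0 := by
    intro h0
    have := Nat.find_spec hex
    rw [h0] at this
    exact h this
  obtain ⟨m, hm⟩ := Nat.exists_eq_succ_of_ne_zero h0
  refine ⟨B_der Q m, B_der_normal Q m, B_der_le_self Q m, Nat.find_min hex (by omega), ?_⟩
  have := Nat.find_spec hex
  rw [hm] at this
  exact this

theorem B_groups (G : Type) [Group G] [Finite G] [Group.IsSolvable G] :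
    ∃ Z S : Subgroup G, Z.Normal ∧ S.Normal ∧ (∀ a ∈ Z, ∀ b ∈ Z, a * b = b * a) ∧ Z ≤ S ∧
      (∀ s ∈ S, ∀ z ∈ Z, s * z = z * s) ∧ (∀ s ∈ S, ∀ s' ∈ S, s * s' * s⁻¹ * s'⁻¹ ∈ Z) ∧
      (∀ g : G, (∀ s ∈ S, g * s = s * g) → g ∈ Z) := by
  classical
  -- Z maximal abelian normal
  let P : Set (Subgroup G) := {Z | Z.Normal ∧ ⁅Z, Z⁆ ≤ ⊥}
  have hPne : P.Nonempty := ⟨⊥, inferInstance, by simp⟩
  obtain ⟨Z, hZP, hZmax⟩ := Set.exists_max_image P (fun Z => Nat.card Z) (Set.toFinite _) hPne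
  have hZn : Z.Normal := hZP.1
  have hZmax' : ∀ A : Subgroup G, A.Normal → ⁅A, A⁆ ≤ ⊥ → Z ≤ A → A ≤ Z := by
    intro A hA hAA hZA
    have h1 := hZmax A ⟨hA, hAA⟩
    have h2 : (Z : Set G) = A := Set.eq_of_subset_of_ncard_le hZA h1
    intro x hx
    have : x ∈ (A : Set G) := hx
    rw [← h2] at this
    exact this
  let P' : Set (Subgroup G) := {S | S.Normal ∧ Z ≤ S ∧ ⁅S, Z⁆ ≤ ⊥ ∧ ⁅S, S⁆ ≤ Z}
  have hPne' : P'.Nonempty := ⟨Z, hZn, le_rfl, hZP.2, hZP.2.trans bot_le⟩
  obtain ⟨S, hSP, hSmax⟩ := Set.exists_max_image P' (fun Z => Nat.card Z) (Set.toFinite _) hPne'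
  obtain ⟨hSn, hZS, hSZ, hSS⟩ := hSP
  have hSmax' : ∀ A : Subgroup G, A ∈ P' → S ≤ A → A ≤ S := by
    intro A hA hSA
    have h1 := hSmax A hA
    have h2 : (S : Set G) = A := Set.eq_of_subset_of_ncard_le hSA h1
    intro x hx
    have : x ∈ (A : Set G) := hx
    rw [← h2] at this
    exact this
  have comm_of : ∀ {A B : Subgroup G}, ⁅A, B⁆ ≤ ⊥ → ∀ a ∈ A, ∀ b ∈ B, a * b = b * a := by
    intro A B h a ha b hb
    have h1 := h (Subgroup.commutator_mem_commutator ha hb)
    rw [Subgroup.mem_bot, commutatorElement_eq_one_iff_mul_comm] at h1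
    exact h1
  refine ⟨Z, S, hZn, hSn, comm_of hZP.2, hZS, comm_of hSZ, ?_, ?_⟩
  · intro s hs s' hs'
    exact hSS (Subgroup.commutator_mem_commutator hs hs')
  · -- Q = centralizer of S
    let Q : Subgroup G := Subgroup.centralizer (S : Set G)
    have hQn : Q.Normal := Subgroup.normal_centralizer
    have hQZ : Q ⊓ S ≤ Z := by
      have hn : (Q ⊓ S).Normal := inferInstance
      have hab : ⁅Q ⊓ S, Q ⊓ S⁆ ≤ ⊥ := by
        rw [Subgroup.commutator_le]
        intro a ha b hb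
        rw [Subgroup.mem_bot, commutatorElement_eq_one_iff_mul_comm]
        exact (Subgroup.mem_centralizer_iff.1 ha.1 b hb.2).symm
      refine hZmax' _ hn hab (le_inf ?_ hZS)
      intro z hz
      rw [Subgroup.mem_centralizer_iff]
      intro s hs
      exact comm_of hSZ s hs z hz
    have hQ : Q ≤ Z := by
      by_contra hne
      obtain ⟨N, hNn, hNQ, hNZ, hNN⟩ := B_exists_last Z Q hne
      have hNS : ¬ N ≤ S := fun h => hNZ ((le_inf hNQ h).trans hQZ)
      apply hNS
      refine le_sup_right.trans (hSmax' (S ⊔ N) ⟨inferInstance, hZS.trans le_sup_left, ?_, ?_⟩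
        le_sup_left)
      · rw [Subgroup.commutator_le]
        intro g hg z hz
        rw [Subgroup.mem_bot, commutatorElement_eq_one_iff_mul_comm]
        have h1 : S ⊔ N ≤ Subgroup.centralizer (Z : Set G) := by
          refine sup_le ?_ ?_
          · intro s hs
            rw [Subgroup.mem_centralizer_iff]
            intro z hz
            exact (comm_of hSZ s hs z hz).symm
          · intro x hx
            rw [Subgroup.mem_centralizer_iff]
            intro z hz
            exact Subgroup.mem_centralizer_iff.1 (hNQ hx) z (hZS hz)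
        exact (Subgroup.mem_centralizer_iff.1 (h1 hg) z hz).symm
      · -- ⁅S ⊔ N, S ⊔ N⁆ ≤ Z
        have key : ∀ x ∈ S ⊔ N, ∀ y ∈ S ⊔ N, ⁅x, y⁆ ∈ Z := by
          intro x hx y hy
          obtain ⟨s, hs, n, hn, rfl⟩ := Subgroup.mem_sup_of_normal_right.1 hx
          obtain ⟨s', hs', n', hn', rfl⟩ := Subgroup.mem_sup_of_normal_right.1 hy
          have hcomm : ∀ n ∈ N, ∀ s ∈ S, s * n = n * s := fun n hn s hs =>
            Subgroup.mem_centralizer_iff.1 (hNQ hn) s hs
          have h1 : ⁅s * n, s' * n'⁆ = ⁅s, s'⁆ * ⁅n, n'⁆ := by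
            simp only [commutatorElement_def, mul_inv_rev]
            have e1 : n * s' = s' * n := (hcomm n hn s' hs').symm
            have e2 : n⁻¹ * s⁻¹ = s⁻¹ * n⁻¹ := (hcomm _ (N.inv_mem hn) _ (S.inv_mem hs)).symm
            have e3 : n'⁻¹ * s'⁻¹ = s'⁻¹ * n'⁻¹ :=
              (hcomm _ (N.inv_mem hn') _ (S.inv_mem hs')).symm
            have e4 : n * n' * s⁻¹ = s⁻¹ * (n * n') :=
              (hcomm _ (N.mul_mem hn hn') _ (S.inv_mem hs)).symm
            have e5 : n * n' * n⁻¹ * s'⁻¹ = s'⁻¹ * (n * n' * n⁻¹) :=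
              (hcomm _ (N.mul_mem (N.mul_mem hn hn') (N.inv_mem hn)) _ (S.inv_mem hs')).symm
            calc s * n * (s' * n') * (n⁻¹ * s⁻¹) * (n'⁻¹ * s'⁻¹)
                = s * (n * s') * n' * (n⁻¹ * s⁻¹) * (n'⁻¹ * s'⁻¹) := by group
              _ = s * (s' * n) * n' * (s⁻¹ * n⁻¹) * (s'⁻¹ * n'⁻¹) := by rw [e1, e2, e3]
              _ = s * s' * (n * n' * s⁻¹) * n⁻¹ * (s'⁻¹ * n'⁻¹) := by group
              _ = s * s' * (s⁻¹ * (n * n')) * n⁻¹ * (s'⁻¹ * n'⁻¹) := by rw [e4]
              _ = s * s' * s⁻¹ * (n * n' * n⁻¹ * s'⁻¹) * n'⁻¹ := by group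
              _ = s * s' * s⁻¹ * (s'⁻¹ * (n * n' * n⁻¹)) * n'⁻¹ := by rw [e5]
              _ = s * s' * s⁻¹ * s'⁻¹ * (n * n' * n⁻¹ * n'⁻¹) := by group
          rw [h1]
          exact Z.mul_mem (hSS (Subgroup.commutator_mem_commutator hs hs'))
            (hNN (Subgroup.commutator_mem_commutator hn hn'))
        rw [Subgroup.commutator_le]
        exact key
    intro g hg
    apply hQ
    rw [Subgroup.mem_centralizer_iff]
    exact fun s hs => (hg s hs).symm

/-- Dedekind count -/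
theorem B_card_hom_units (A : Type) [Group A] [Finite A] (K : Type) [Field K] :
    Finite (A →* Kˣ) ∧ Nat.card (A →* Kˣ) ≤ Nat.card A := by
  classical
  have : Fintype A := Fintype.ofFinite A
  have hli := linearIndependent_monoidHom A K
  have hinj : Function.Injective (fun φ : A →* Kˣ => (Units.coeHom K).comp φ) := by
    intro φ ψ h
    ext a
    exact congrArg (fun f : A →* K => f a) h
  have hli' := hli.comp _ hinj
  have hfin : Finite (A →* Kˣ) := hli'.finite
  refine ⟨hfin, ?_⟩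
  have : Fintype (A →* Kˣ) := Fintype.ofFinite _
  have h := hli'.fintype_card_le_finrank
  rw [Module.finrank_fintype_fun_eq_card] at h
  rw [Nat.card_eq_fintype_card, Nat.card_eq_fintype_card]
  exact h

end GroupPart
end Pool.Agent.FH
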