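import Mathlib

/-!
# MP_86abfd_al: Fitting height and the average number of zeros of the character table

Basic definitions used by all files.
-/

namespace Pool.Agent.FH

open scoped Pointwise

section Nil

variable {G : Type*} [Group G]

/-- Iterated commutators: `lc L 0 = L`, `lc L (n+1) = ⁅lc L n, L⁆`. -/
def lc (L : Subgroup G) : ℕ → Subgroup G
  | 0 => L
  | n + 1 => ⁅lc L n, L⁆

/-- `L` is nilpotent modulo `M`. -/
def RelNil (M L : Subgroup G) : Prop := ∃ n, lc L n ≤ M

/-- The largest normal subgroup that is nilpotent modulo `M` (for finite `G`). -/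
def FitOver (M : Subgroup G) : Subgroup G :=
  sSup {L : Subgroup G | L.Normal ∧ RelNil M L}

/-- The ascending Fitting series over `M`; `Rr ⊥ n` is the `n`-th Fitting subgroup `F_n(G)`. -/
def Rr (M : Subgroup G) : ℕ → Subgroup G
  | 0 => M
  | n + 1 => FitOver (Rr M n)

/-- number of conjugacy classes outside a (normal) subgroup -/
noncomputable def clOut (M : Subgroup G) : ℕ :=
  {C : ConjClasses G | ∃ g, g ∉ M ∧ ConjClasses.mk g = C}.ncard

end Nil

section Chars

/-- The set of irreducible complex characters of `G`, as functions `G → ℂ`. -/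
def IrrChar (G : Type*) [Group G] : Set (G → ℂ) :=
  {χ | ∃ (n : ℕ) (ρ : Representation ℂ G (Fin n → ℂ)), ρ.IsIrreducible ∧ ρ.character = χ}

/-- The number of irreducible characters vanishing at `g`. -/
noncomputable def zer {G : Type*} [Group G] (g : G) : ℕ :=
  {χ ∈ IrrChar G | χ g = 0}.ncard

end Chars

section Act

variable (G : Type*) [Group G] (V : Type*) [AddCommGroup V] [DistribMulAction G V]

/-- the kernel of the action of `G` on `V` -/
def actKer : Subgroup G := (MulAction.toPermHom G V).ker

variable {G V} in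
theorem mem_actKer {g : G} : g ∈ actKer G V ↔ ∀ v : V, g • v = v := by
  rw [actKer, MonoidHom.mem_ker, Equiv.ext_iff]
  rfl

instance actKer_normal : (actKer G V).Normal := MonoidHom.normal_ker _

/-- `V` is an irreducible `G`-module (just as an abelian group with `G`-action). -/
def Irred : Prop :=
  Nontrivial V ∧ ∀ U : AddSubgroup V, (∀ (g : G), ∀ u ∈ U, g • u ∈ U) → U = ⊥ ∨ U = ⊤

/-- A `G`-stable direct decomposition of `V`. -/
def IsSystem (𝒲 : Set (AddSubgroup V)) : Prop :=
  (∀ W ∈ 𝒲, W ≠ ⊥) ∧ sSupIndep 𝒲 ∧ sSup 𝒲 = ⊤ ∧ ∀ (g : G), ∀ W ∈ 𝒲, g • W ∈ 𝒲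

/-- `V` is a primitive `G`-module: there is no `G`-stable direct decomposition with at least two
summands. -/
def Prim : Prop := ∀ 𝒲 : Set (AddSubgroup V), IsSystem G V 𝒲 → 𝒲.Subsingleton

/-- There are `k` vectors in pairwise distinct `G`-orbits with stabilizers inside `F_c(G mod K)`,
where `K` is the kernel of the action. -/
def GoodOrbits (k c : ℕ) : Prop :=
  ∃ w : Fin k → V, (∀ i, ∀ g : G, g • w i = w i → g ∈ Rr (actKer G V) c) ∧
    ∀ i j, w j ∈ MulAction.orbit G (w i) → i = j

/-- the number of `G`-orbits on `V` -/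
noncomputable def nOrb : ℕ := Nat.card (MulAction.orbitRel.Quotient G V)

end Act

section Block

variable {G : Type*} [Group G] {V : Type*} [AddCommGroup V] [DistribMulAction G V]

/-- the stabilizer of a subgroup `W` acts on `W` -/
instance blockAction (W : AddSubgroup V) : DistribMulAction (MulAction.stabilizer G W) W where
  smul h x := ⟨(h : G) • (x : V), by
    have h1 := AddSubgroup.smul_mem_pointwise_smul (x : V) (h : G) W x.2
    have h2 : (h : G) • W = W := MulAction.mem_stabilizer_iff.1 h.2
    exact h2.le h1⟩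
  one_smul x := Subtype.ext (one_smul G (x : V))
  mul_smul a b x := Subtype.ext (mul_smul (a : G) (b : G) (x : V))
  smul_zero a := Subtype.ext (smul_zero (a : G))
  smul_add a x y := Subtype.ext (smul_add (a : G) (x : V) (y : V))

@[simp] theorem blockAction_coe {W : AddSubgroup V} (h : MulAction.stabilizer G W) (x : W) :
    ((h • x : W) : V) = (h : G) • (x : V) := rfl

/-- `W` is a block of a minimal system of imprimitivity -/
structure Block (G : Type*) [Group G] {V : Type*} [AddCommGroup V] [DistribMulAction G V]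
    (W : AddSubgroup V) : Prop where
  ne_bot : W ≠ ⊥
  ne_top : W ≠ ⊤
  indep : sSupIndep (MulAction.orbit G W : Set (AddSubgroup V))
  sup : sSup (MulAction.orbit G W : Set (AddSubgroup V)) = ⊤
  prim : MulAction.IsPreprimitive G (MulAction.orbit G W)
  irr : Irred (MulAction.stabilizer G W) W

end Block

/-- `k` colourings `Ω → Fin q`, each with trivial stabilizer in the permutation group induced by
`G`, pairwise inequivalent under `G`. -/
def ManyColorings (G Ω : Type*) [Group G] [MulAction G Ω] (k q : ℕ) : Prop :=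
  ∃ F : Fin k → Ω → Fin q,
    (∀ i, ∀ g : G, (∀ ω, F i (g • ω) = F i ω) → ∀ ω : Ω, g • ω = ω) ∧
    ∀ i j, (∃ g : G, ∀ ω, F i (g • ω) = F j ω) → i = j

end Pool.Agent.FH
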