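import Mathlib
import Pool.Agent.Lib.MP_86abfd_al.Defs

/-!
# MP_86abfd_al, piece N: relative nilpotency and the ascending Fitting series
-/

namespace Pool.Agent.FH

open scoped Pointwise

section N
variable {G : Type*} [Group G]

theorem lc_mono {L L' : Subgroup G} (h : L ≤ L') (n : ℕ) : lc L n ≤ lc L' n := by
  induction n with
  | zero => exact h
  | succ n ih => exact Subgroup.commutator_mono ih h

theorem lc_normal (L : Subgroup G) [L.Normal] (n : ℕ) : (lc L n).Normal := by
  induction n with
  | zero => assumption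
  | succ n ih =>
    have := ih
    exact Subgroup.commutator_normal _ _

theorem lc_succ_le (L : Subgroup G) [L.Normal] (n : ℕ) : lc L (n + 1) ≤ lc L n := by
  have := lc_normal L n
  exact Subgroup.commutator_le_left _ _

theorem lc_antitone (L : Subgroup G) [L.Normal] : Antitone (lc L) :=
  antitone_nat_of_succ_le (lc_succ_le L)

theorem RelNil.mono {M M' L L' : Subgroup G} (h : RelNil M L) (hM : M ≤ M') (hL : L' ≤ L) :
    RelNil M' L' := by
  obtain ⟨n, hn⟩ := h
  exact ⟨n, (lc_mono hL n).trans (hn.trans hM)⟩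

theorem relNil_of_comm {M L : Subgroup G} (h : ⁅L, L⁆ ≤ M) : RelNil M L := ⟨1, h⟩

theorem relNil_of_le {M L : Subgroup G} (h : L ≤ M) : RelNil M L := ⟨0, h⟩

theorem lc_map {H : Type*} [Group H] (L : Subgroup G) (f : G →* H) (n : ℕ) :
    lc (L.map f) n = (lc L n).map f := by
  induction n with
  | zero => rfl
  | succ n ih =>
    show ⁅lc (L.map f) n, L.map f⁆ = (⁅lc L n, L⁆).map f
    rw [ih, Subgroup.map_commutator]

theorem RelNil.map {H : Type*} [Group H] {M L : Subgroup G} (h : RelNil M L) (f : G →* H) :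
    RelNil (M.map f) (L.map f) := by
  obtain ⟨n, hn⟩ := h
  refine ⟨n, ?_⟩
  rw [lc_map]
  exact Subgroup.map_mono hn

theorem RelNil.comap {H : Type*} [Group H] {M L : Subgroup H} (h : RelNil M L) (f : G →* H) :
    RelNil (M.comap f) (L.comap f) := by
  obtain ⟨n, hn⟩ := h
  refine ⟨n, ?_⟩
  rw [← Subgroup.map_le_iff_le_comap, ← lc_map]
  exact (lc_mono (Subgroup.map_comap_le _ _) n).trans hn

theorem RelNil.normalCore {M L : Subgroup G} (h : RelNil M L) :
    RelNil M.normalCore L.normalCore := by
  obtain ⟨n, hn⟩ := h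
  refine ⟨n, ?_⟩
  have := lc_normal L.normalCore n
  exact Subgroup.normal_le_normalCore.2 ((lc_mono (Subgroup.normalCore_le L) n).trans hn)

theorem RelNil.iInf {ι : Type*} [Finite ι] {M L : ι → Subgroup G} (h : ∀ i, RelNil (M i) (L i))
    (hL : ∀ i, (L i).Normal) : RelNil (⨅ i, M i) (⨅ i, L i) := by
  choose n hn using h
  have := Fintype.ofFinite ι
  refine ⟨Finset.univ.sup n, le_iInf fun i => ?_⟩
  refine (lc_mono (iInf_le L i) _).trans ?_
  have := hL i
  exact (lc_antitone (L i) (Finset.le_sup (Finset.mem_univ i))).trans (hn i)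

/-- commutators with a supremum, modulo a normal subgroup -/
theorem N_comm_le_iff (T H L : Subgroup G) [T.Normal] :
    ⁅H, L⁆ ≤ T ↔ H ≤ (Subgroup.centralizer
      (L.map (QuotientGroup.mk' T) : Set (G ⧸ T))).comap (QuotientGroup.mk' T) := by
  rw [← Subgroup.map_le_iff_le_comap, ← Subgroup.commutator_eq_bot_iff_le_centralizer,
    ← Subgroup.map_commutator, Subgroup.map_eq_bot_iff, QuotientGroup.ker_mk']

theorem N_iSup_comm_le {ι : Sort*} (T L : Subgroup G) [T.Normal] (H : ι → Subgroup G)
    (h : ∀ i, ⁅H i, L⁆ ≤ T) : ⁅⨆ i, H i, L⁆ ≤ T := by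
  rw [N_comm_le_iff]
  exact iSup_le fun i => (N_comm_le_iff T (H i) L).1 (h i)

theorem N_comm_sup_le (T H L L' : Subgroup G) [T.Normal]
    (h : ⁅H, L⁆ ≤ T) (h' : ⁅H, L'⁆ ≤ T) : ⁅H, L ⊔ L'⁆ ≤ T := by
  rw [Subgroup.commutator_comm, N_comm_le_iff]
  refine sup_le ?_ ?_
  · rw [← N_comm_le_iff, Subgroup.commutator_comm]
    exact h
  · rw [← N_comm_le_iff, Subgroup.commutator_comm]
    exact h'

/-- shifted lower central terms: `⊤, L, ⁅L, L⁆, ...` -/
def N_sh (L : Subgroup G) : ℕ → Subgroup G
  | 0 => ⊤
  | n + 1 => lc L n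

theorem N_sh_normal (L : Subgroup G) [L.Normal] (n : ℕ) : (N_sh L n).Normal := by
  cases n with
  | zero => exact Subgroup.normal_of_characteristic ⊤
  | succ n => exact lc_normal L n

theorem N_sh_comm (L : Subgroup G) [L.Normal] (n : ℕ) : ⁅N_sh L n, L⁆ ≤ N_sh L (n + 1) := by
  cases n with
  | zero => exact Subgroup.commutator_le_right _ _
  | succ n => exact le_rfl

theorem N_fitting (L L' : Subgroup G) [L.Normal] [L'.Normal] (N : ℕ) :
    lc (L ⊔ L') N ≤ ⨆ p : {p : ℕ × ℕ // p.1 + p.2 = N + 1}, N_sh L p.1.1 ⊓ N_sh L' p.1.2 := by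
  have hn : ∀ N : ℕ, (⨆ p : {p : ℕ × ℕ // p.1 + p.2 = N + 1},
      N_sh L p.1.1 ⊓ N_sh L' p.1.2).Normal := by
    intro N
    have : ∀ p : {p : ℕ × ℕ // p.1 + p.2 = N + 1}, (N_sh L p.1.1 ⊓ N_sh L' p.1.2).Normal := by
      intro p
      have := N_sh_normal L p.1.1
      have := N_sh_normal L' p.1.2
      infer_instance
    exact Subgroup.iSup_normal _
  have hle : ∀ (N i j : ℕ), i + j = N + 1 → N_sh L i ⊓ N_sh L' j ≤
      ⨆ p : {p : ℕ × ℕ // p.1 + p.2 = N + 1}, N_sh L p.1.1 ⊓ N_sh L' p.1.2 := by
    intro N i j hij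
    exact le_iSup (fun p : {p : ℕ × ℕ // p.1 + p.2 = N + 1} => N_sh L p.1.1 ⊓ N_sh L' p.1.2)
      ⟨(i, j), hij⟩
  induction N with
  | zero =>
    refine sup_le ?_ ?_
    · refine le_trans ?_ (hle 0 1 0 rfl)
      exact le_inf le_rfl le_top
    · refine le_trans ?_ (hle 0 0 1 rfl)
      exact le_inf le_top le_rfl
  | succ N ih =>
    have := hn (N + 1)
    refine (Subgroup.commutator_mono ih le_rfl).trans ?_
    refine N_iSup_comm_le _ _ _ ?_
    rintro ⟨⟨i, j⟩, hij⟩
    simp only at hij
    have := N_sh_normal L i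
    have := N_sh_normal L' j
    refine N_comm_sup_le _ _ _ _ ?_ ?_
    · refine le_trans ?_ (hle (N + 1) (i + 1) j (by omega))
      refine le_inf ?_ ?_
      · exact (Subgroup.commutator_mono inf_le_left le_rfl).trans (N_sh_comm L i)
      · exact (Subgroup.commutator_mono inf_le_right le_rfl).trans
          (Subgroup.commutator_le_left _ _)
    · refine le_trans ?_ (hle (N + 1) i (j + 1) (by omega))
      refine le_inf ?_ ?_
      · exact (Subgroup.commutator_mono inf_le_left le_rfl).trans
          (Subgroup.commutator_le_left _ _)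
      · exact (Subgroup.commutator_mono inf_le_right le_rfl).trans (N_sh_comm L' j)

/-- Fitting's theorem, relative version -/
theorem RelNil.sup {M L L' : Subgroup G} [M.Normal] [L.Normal] [L'.Normal]
    (h : RelNil M L) (h' : RelNil M L') : RelNil M (L ⊔ L') := by
  obtain ⟨n, hn⟩ := h
  obtain ⟨m, hm⟩ := h'
  refine ⟨n + m, (N_fitting L L' (n + m)).trans (iSup_le ?_)⟩
  rintro ⟨⟨i, j⟩, hij⟩
  simp only at hij
  show N_sh L i ⊓ N_sh L' j ≤ M
  by_cases hi : n + 1 ≤ i
  · refine inf_le_left.trans ?_
    obtain ⟨i', rfl⟩ : ∃ i', i = i' + 1 := ⟨i - 1, by omega⟩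
    exact (lc_antitone L (by omega : n ≤ i')).trans hn
  · refine inf_le_right.trans ?_
    obtain ⟨j', rfl⟩ : ∃ j', j = j' + 1 := ⟨j - 1, by omega⟩
    exact (lc_antitone L' (by omega : m ≤ j')).trans hm

instance fitOver_normal (M : Subgroup G) : (FitOver M).Normal :=
  Subgroup.sSup_normal _ fun _ h => h.1

theorem RelNil.le_fitOver {M L : Subgroup G} [L.Normal] (h : RelNil M L) : L ≤ FitOver M :=
  le_sSup ⟨inferInstance, h⟩

theorem le_fitOver (M : Subgroup G) [M.Normal] : M ≤ FitOver M :=
  (relNil_of_le (le_refl M)).le_fitOver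

theorem fitOver_relNil [Finite G] (M : Subgroup G) [M.Normal] : RelNil M (FitOver M) := by
  have key : ∀ s : Set (Subgroup G), s.Finite → s ⊆ {L : Subgroup G | L.Normal ∧ RelNil M L} →
      (sSup s).Normal ∧ RelNil M (sSup s) := by
    intro s hs
    induction s, hs using Set.Finite.induction_on with
    | empty =>
      intro _
      rw [sSup_empty]
      exact ⟨inferInstance, relNil_of_le bot_le⟩
    | insert ha hs ih =>
      intro hsub
      obtain ⟨h1, h2⟩ := hsub (Set.mem_insert _ _)
      obtain ⟨h3, h4⟩ := ih ((Set.subset_insert _ _).trans hsub)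
      rw [sSup_insert]
      have := h1
      have := h3
      exact ⟨inferInstance, h2.sup h4⟩
  exact (key _ (Set.toFinite _) subset_rfl).2

theorem Rr_normal (M : Subgroup G) [M.Normal] (n : ℕ) : (Rr M n).Normal := by
  cases n with
  | zero => assumption
  | succ n => exact fitOver_normal _

theorem Rr_le_succ (M : Subgroup G) [M.Normal] (n : ℕ) : Rr M n ≤ Rr M (n + 1) := by
  have := Rr_normal M n
  exact le_fitOver _

theorem Rr_mono (M : Subgroup G) [M.Normal] {m n : ℕ} (h : m ≤ n) : Rr M m ≤ Rr M n :=
  monotone_nat_of_le_succ (Rr_le_succ M) h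

theorem FitOver_mono {M M' : Subgroup G} (h : M ≤ M') : FitOver M ≤ FitOver M' :=
  sSup_le_sSup fun _ hL => ⟨hL.1, hL.2.mono h le_rfl⟩

theorem Rr_mono_left {M M' : Subgroup G} (h : M ≤ M') (n : ℕ) : Rr M n ≤ Rr M' n := by
  induction n with
  | zero => exact h
  | succ n ih => exact FitOver_mono ih

theorem Rr_add (M : Subgroup G) (m n : ℕ) : Rr (Rr M m) n = Rr M (m + n) := by
  induction n with
  | zero => rfl
  | succ n ih =>
    show FitOver (Rr (Rr M m) n) = FitOver (Rr M (m + n))
    rw [ih]

/-- a normal series with nilpotent factors climbs at most as fast as `Rr` -/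
theorem chain_le_Rr {M : Subgroup G} (L : ℕ → Subgroup G) (hL : ∀ i, (L i).Normal) (h0 : L 0 ≤ M)
    (h : ∀ i, RelNil (L i) (L (i + 1))) (n : ℕ) : L n ≤ Rr M n := by
  induction n with
  | zero => exact h0
  | succ n ih =>
    have := hL (n + 1)
    exact ((h n).mono ih le_rfl).le_fitOver

theorem lt_fitOver [Finite G] [Group.IsSolvable G] (M : Subgroup G) [M.Normal] (h : M ≠ ⊤) :
    M < FitOver M := by
  classical
  obtain ⟨n, hn⟩ := (inferInstance : Group.IsSolvable G).solvable
  have hex : ∃ n, derivedSeries G n ≤ M := ⟨n, by rw [hn]; exact bot_le⟩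
  have h0 : Nat.find hex ≠ 0 := by
    intro h0
    have := Nat.find_spec hex
    rw [h0, derivedSeries_zero] at this
    exact h (top_le_iff.1 this)
  obtain ⟨i, hi⟩ := Nat.exists_eq_succ_of_ne_zero h0
  have h1 : derivedSeries G (i + 1) ≤ M := by
    have := Nat.find_spec hex
    rwa [hi] at this
  have h2 : ¬ derivedSeries G i ≤ M := Nat.find_min hex (by omega)
  rw [derivedSeries_succ] at h1
  have h3 : derivedSeries G i ≤ FitOver M := (relNil_of_comm h1).le_fitOver
  exact lt_of_le_not_ge (le_fitOver M) fun h4 => h2 (h3.trans h4)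

theorem Rr_top (n : ℕ) : Rr (⊤ : Subgroup G) n = ⊤ :=
  top_le_iff.1 (Rr_mono (⊤ : Subgroup G) (Nat.zero_le n))

theorem Rr_eq_top_of_index [Finite G] [Group.IsSolvable G] (M : Subgroup G) [M.Normal] {t : ℕ}
    (h : M.index ≤ 2 ^ t) : Rr M t = ⊤ := by
  have key : ∀ (t : ℕ) (M : Subgroup G), M.Normal → M.index ≤ 2 ^ t → Rr M t = ⊤ := by
    intro t
    induction t with
    | zero =>
      intro M _ h
      have h1 : M.index ≠ 0 := Subgroup.index_ne_zero_of_finite
      have h2 : M.index = 1 := by
        rw [pow_zero] at h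
        omega
      exact Subgroup.index_eq_one.1 h2
    | succ t ih =>
      intro M hM h
      by_cases htop : M = ⊤
      · subst htop
        exact Rr_top _
      · have hlt := lt_fitOver M htop
        have h1 : M.relIndex (FitOver M) * (FitOver M).index = M.index :=
          Subgroup.relIndex_mul_index hlt.le
        have h2 : 2 ≤ M.relIndex (FitOver M) := by
          have h3 : M.relIndex (FitOver M) ≠ 1 := by
            rw [Ne, Subgroup.relIndex_eq_one]
            exact not_le_of_gt hlt
          have h4 : M.relIndex (FitOver M) ≠ 0 := by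
            intro h0
            rw [h0, zero_mul] at h1
            exact Subgroup.index_ne_zero_of_finite h1.symm
          omega
        have h5 : (FitOver M).index ≤ 2 ^ t := by
          have : 2 * (FitOver M).index ≤ 2 ^ (t + 1) := by
            calc 2 * (FitOver M).index ≤ M.relIndex (FitOver M) * (FitOver M).index :=
                  Nat.mul_le_mul_right _ h2
              _ = M.index := h1
              _ ≤ 2 ^ (t + 1) := h
          rw [pow_succ] at this
          omega
        have h6 := ih (FitOver M) inferInstance h5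
        have h7 := Rr_add M 1 t
        rw [add_comm 1 t] at h7
        rw [← h7]
        exact h6
  exact key t M inferInstance h

theorem FitOver_comap_surj {H : Type*} [Group H] (f : G →* H) (hf : Function.Surjective f)
    (M : Subgroup H) : (FitOver M).comap f = FitOver (M.comap f) := by
  apply le_antisymm
  · have hker : f.ker ≤ FitOver (M.comap f) := by
      have h1 : f.ker ≤ M.comap f := by
        rw [← MonoidHom.comap_bot]
        exact Subgroup.comap_mono bot_le
      exact (relNil_of_le h1).le_fitOver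
    have h1 : FitOver M ≤ (FitOver (M.comap f)).map f := by
      refine sSup_le ?_
      rintro L ⟨hL, hLM⟩
      have := hL
      have h2 : L.comap f ≤ FitOver (M.comap f) := (hLM.comap f).le_fitOver
      have h3 := Subgroup.map_mono (f := f) h2
      rwa [Subgroup.map_comap_eq_self_of_surjective hf] at h3
    refine (Subgroup.comap_mono h1).trans ?_
    rw [Subgroup.comap_map_eq]
    exact sup_le le_rfl hker
  · refine sSup_le ?_
    rintro L ⟨hL, hLM⟩
    have : (L.map f).Normal := Subgroup.Normal.map hL f hf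
    rw [← Subgroup.map_le_iff_le_comap]
    exact ((hLM.map f).mono (Subgroup.map_comap_le _ _) le_rfl).le_fitOver

/-- the series over the kernel of a surjection is the pull back of the series of the quotient -/
theorem Rr_comap_surj {H : Type*} [Group H] (f : G →* H) (hf : Function.Surjective f)
    (M : Subgroup H) (n : ℕ) : (Rr M n).comap f = Rr (M.comap f) n := by
  induction n with
  | zero => rfl
  | succ n ih =>
    show (FitOver (Rr M n)).comap f = FitOver (Rr (M.comap f) n)
    rw [FitOver_comap_surj f hf, ih]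

theorem Rr_clOut [Finite G] [Group.IsSolvable G] (M : Subgroup G) [M.Normal] :
    Rr M (clOut M) = ⊤ := by
  have key : ∀ (t : ℕ) (M : Subgroup G), M.Normal → clOut M ≤ t → Rr M t = ⊤ := by
    intro t
    induction t with
    | zero =>
      intro M _ h
      by_contra htop
      have h1 : ∃ g, g ∉ M := by
        by_contra h2
        push Not at h2
        exact htop ((Subgroup.eq_top_iff' M).2 h2)
      obtain ⟨g, hg⟩ := h1
      have h2 : {C : ConjClasses G | ∃ g, g ∉ M ∧ ConjClasses.mk g = C}.ncard = 0 :=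
        Nat.le_zero.1 h
      rw [Set.ncard_eq_zero (Set.toFinite _)] at h2
      have h3 : ConjClasses.mk g ∈ {C : ConjClasses G | ∃ g, g ∉ M ∧ ConjClasses.mk g = C} :=
        ⟨g, hg, rfl⟩
      rw [h2] at h3
      exact h3
    | succ t ih =>
      intro M hM h
      by_cases htop : M = ⊤
      · subst htop
        exact Rr_top _
      · have hlt := lt_fitOver M htop
        have h5 : clOut (FitOver M) ≤ t := by
          obtain ⟨g, hg1, hg2⟩ := SetLike.exists_of_lt hlt
          have h6 : clOut (FitOver M) < clOut M := by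
            refine Set.ncard_lt_ncard ?_ (Set.toFinite _)
            refine ⟨?_, ?_⟩
            · rintro C ⟨x, hx, rfl⟩
              exact ⟨x, fun hx' => hx (hlt.le hx'), rfl⟩
            · intro hsub
              obtain ⟨x, hx, hxg⟩ := hsub ⟨g, hg2, rfl⟩
              rw [ConjClasses.mk_eq_mk_iff_isConj, isConj_iff] at hxg
              obtain ⟨c, hc⟩ := hxg
              apply hx
              have h7 : x = c⁻¹ * g * c⁻¹⁻¹ := by
                rw [← hc]
                group
              rw [h7]
              exact (fitOver_normal M).conj_mem g hg1 c⁻¹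
          omega
        have h6 := ih (FitOver M) inferInstance h5
        have h7 := Rr_add M 1 t
        rw [add_comm 1 t] at h7
        rw [← h7]
        exact h6
  exact key _ M inferInstance le_rfl

end N

end Pool.Agent.FH
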