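import Pool.Agent.Lib.MP_86abfd_al.Base1
import Pool.Agent.Lib.MP_86abfd_al.Base2
import Pool.Agent.Lib.MP_86abfd_al.AutBound
import Pool.Agent.Lib.MP_86abfd_al.Nil

set_option linter.unusedSectionVars false
set_option linter.style.haveILetI false

namespace Pool.Agent.FH

open scoped Pointwise

structure B_Setup {G V K : Type} [Group G] [AddCommGroup V] [DistribMulAction G V] [Field K]
    [Module K V] (Z S : Subgroup G) where
  Zn : Z.Normal
  Sn : S.Normal
  ZS : Z ≤ S
  SZ : ∀ s ∈ S, ∀ z ∈ Z, s * z = z * s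
  SS : ∀ s ∈ S, ∀ s' ∈ S, s * s' * s⁻¹ * s'⁻¹ ∈ Z
  cent : ∀ g : G, (∀ s ∈ S, g * s = s * g) → g ∈ Z
  ι : Z →* Kˣ
  ιinj : Function.Injective ι
  ιact : ∀ (z : Z) (v : V), (z : G) • v = (ι z : K) • v
  lin : ∀ s ∈ S, ∀ (a : K) (v : V), s • (a • v) = a • (s • v)

section

variable {G V K : Type} [Group G] [Finite G] [AddCommGroup V] [DistribMulAction G V]
  [Field K] [Module K V] {Z S : Subgroup G}

/-- the character `s ↦ [g, s]` of `S` -/
noncomputable def B_chi (h : B_Setup (V := V) (K := K) Z S) (g : G)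
    (hg : ∀ s ∈ S, g * s * g⁻¹ * s⁻¹ ∈ Z) : S →* Kˣ where
  toFun s := h.ι ⟨g * s * g⁻¹ * (s : G)⁻¹, hg s s.2⟩
  map_one' := by
    rw [← map_one h.ι]
    congr 1
    ext
    simp
  map_mul' s s' := by
    rw [← map_mul h.ι]
    congr 1
    ext
    simp only [Subgroup.coe_mul]
    have h1 : (s : G) * (g * s' * g⁻¹ * (s' : G)⁻¹) = (g * s' * g⁻¹ * (s' : G)⁻¹) * s :=
      h.SZ s s.2 _ (hg s' s'.2)
    have h2 : g * s' * g⁻¹ * (s' : G)⁻¹ * (s : G)⁻¹ = (s : G)⁻¹ * (g * s' * g⁻¹ * (s' : G)⁻¹) := by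
      rw [eq_inv_mul_iff_mul_eq, ← mul_assoc, h1, mul_inv_cancel_right]
    calc g * (s * s') * g⁻¹ * ((s : G) * s')⁻¹
        = g * s * g⁻¹ * (g * s' * g⁻¹ * (s' : G)⁻¹ * (s : G)⁻¹) := by group
      _ = g * s * g⁻¹ * ((s : G)⁻¹ * (g * s' * g⁻¹ * (s' : G)⁻¹)) := by rw [h2]
      _ = g * s * g⁻¹ * (s : G)⁻¹ * (g * s' * g⁻¹ * (s' : G)⁻¹) := by group

theorem B_chi_apply (h : B_Setup (V := V) (K := K) Z S) (g : G)
    (hg : ∀ s ∈ S, g * s * g⁻¹ * s⁻¹ ∈ Z) (s : S) :
    B_chi h g hg s = h.ι ⟨g * s * g⁻¹ * (s : G)⁻¹, hg s s.2⟩ := rfl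

theorem B_chi_eq (h : B_Setup (V := V) (K := K) Z S) (g g' : G)
    (hg : ∀ s ∈ S, g * s * g⁻¹ * s⁻¹ ∈ Z) (hg' : ∀ s ∈ S, g' * s * g'⁻¹ * s⁻¹ ∈ Z)
    (heq : B_chi h g hg = B_chi h g' hg') : g'⁻¹ * g ∈ Z := by
  apply h.cent
  intro s hs
  have h1 := congrArg (fun f : S →* Kˣ => f ⟨s, hs⟩) heq
  have h2 := h.ιinj h1
  have h3 : g * s * g⁻¹ * s⁻¹ = g' * s * g'⁻¹ * s⁻¹ := congrArg Subtype.val h2
  have h4 : g * s * g⁻¹ = g' * s * g'⁻¹ := mul_right_cancel h3
  calc g'⁻¹ * g * s = g'⁻¹ * (g * s * g⁻¹) * g := by group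
    _ = g'⁻¹ * (g' * s * g'⁻¹) * g := by rw [h4]
    _ = s * (g'⁻¹ * g) := by group

theorem B_comm_mem (h : B_Setup (V := V) (K := K) Z S) (s : S) :
    ∀ s' ∈ S, (s : G) * s' * (s : G)⁻¹ * s'⁻¹ ∈ Z := fun s' hs' => h.SS s s.2 s' hs'

/-- the quotient `S/Z` -/
abbrev B_A (Z S : Subgroup G) : Type := S ⧸ (Z.subgroupOf S)

theorem B_A_normal (h : B_Setup (V := V) (K := K) Z S) : (Z.subgroupOf S).Normal := by
  have := h.Zn
  infer_instance

noncomputable def B_phi (h : B_Setup (V := V) (K := K) Z S) (i : B_A Z S) : S →* Kˣ :=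
  B_chi h (Quotient.out i : S) (B_comm_mem h _)

theorem B_phi_inj (h : B_Setup (V := V) (K := K) Z S) : Function.Injective (B_phi h) := by
  intro i j hij
  have h1 := B_chi_eq h _ _ _ _ hij
  rw [← QuotientGroup.out_eq' i, ← QuotientGroup.out_eq' j]
  symm
  rw [QuotientGroup.eq]
  rw [Subgroup.mem_subgroupOf]
  exact h1

/-- linear independence of coset representatives: the number of cosets is at most `D ^ 2` -/
theorem B_card_A (h : B_Setup (V := V) (K := K) Z S) [Module.Finite K V] [Nontrivial V] :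
    Nat.card (B_A Z S) ≤ (Module.finrank K V) ^ 2 := by
  classical
  have : Fintype (B_A Z S) := Fintype.ofFinite _
  let L : S → (V →ₗ[K] V) := fun s =>
    { toFun := fun v => (s : G) • v
      map_add' := fun u v => smul_add _ _ _
      map_smul' := fun a v => h.lin s s.2 a v }
  have hLap : ∀ (s : S) (v : V), L s v = (s : G) • v := fun s v => rfl
  have hL0 : ∀ s, L s ≠ 0 := by
    intro s h0
    obtain ⟨v, hv⟩ := exists_ne (0 : V)
    apply hv
    have : (s : G) • v = 0 := by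
      rw [← hLap, h0]; rfl
    calc v = (s : G)⁻¹ • ((s : G) • v) := (inv_smul_smul _ _).symm
      _ = 0 := by rw [this, smul_zero]
  -- the relation L s_i ∘ L s = φ_i(s) L s ∘ L s_i
  have hrel : ∀ (i : B_A Z S) (s : S), (L (Quotient.out i)) ∘ₗ (L s) =
      ((B_phi h i s : Kˣ) : K) • ((L s) ∘ₗ (L (Quotient.out i))) := by
    intro i s
    ext v
    show ((Quotient.out i : S) : G) • ((s : G) • v) = _
    rw [LinearMap.smul_apply, LinearMap.comp_apply, hLap, hLap]
    have h1 := h.ιact ⟨_, B_comm_mem h (Quotient.out i : S) s s.2⟩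
      ((s : G) • (((Quotient.out i : S) : G) • v))
    have h2 : ((B_phi h i s : Kˣ) : K) =
      ((h.ι ⟨_, B_comm_mem h (Quotient.out i : S) s s.2⟩ : Kˣ) : K) := rfl
    rw [h2, ← h1]
    simp only [← mul_smul]
    congr 1
    group
  have hli : LinearIndependent K (fun i : B_A Z S => L (Quotient.out i)) := by
    rw [Fintype.linearIndependent_iff]
    intro a ha i
    have hinj : Function.Injective
        (fun i : B_A Z S => (Units.coeHom K).comp (B_phi h i)) := by
      intro i j hij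
      apply B_phi_inj h
      ext s
      exact congrArg (fun f : S →* K => f s) hij
    have hli0 := (linearIndependent_monoidHom S K).comp _ hinj
    rw [Fintype.linearIndependent_iff] at hli0
    by_contra hai
    apply hL0 (Quotient.out i)
    rw [← Module.forall_dual_apply_eq_zero_iff K]
    intro f
    have h1 : ∑ j, (a j * f (L (Quotient.out j))) • (fun s : S => ((B_phi h j s : Kˣ) : K)) = 0 := by
      funext s
      have h2 : ∑ j, (a j * ((B_phi h j s : Kˣ) : K)) • L (Quotient.out j) = 0 := by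
        have h3 : (∑ j, a j • L (Quotient.out j)) ∘ₗ L s = 0 := by rw [ha]; rfl
        have h4 : L s ∘ₗ (∑ j, (a j * ((B_phi h j s : Kˣ) : K)) • L (Quotient.out j)) = 0 := by
          rw [← h3]
          ext v
          simp only [LinearMap.comp_apply, LinearMap.sum_apply, map_sum, LinearMap.smul_apply,
            map_smul]
          refine Finset.sum_congr rfl fun j _ => ?_
          have h5 := congrArg (fun f : V →ₗ[K] V => f v) (hrel j s)
          have h6 : (L (Quotient.out j)) (L s v) =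
              ((B_phi h j s : Kˣ) : K) • (L s (L (Quotient.out j) v)) := h5
          rw [h6, mul_smul]
        ext v
        have h5 := congrArg (fun f : V →ₗ[K] V => f v) h4
        have h6 : (s : G) • ((∑ j, (a j * ((B_phi h j s : Kˣ) : K)) • L (Quotient.out j)) v) = 0 := h5
        have h7 := congrArg (fun w => (s : G)⁻¹ • w) h6
        simpa using h7
      have h3 := congrArg f h2
      rw [map_sum, map_zero] at h3
      rw [Finset.sum_apply]
      simp only [map_smul, Pi.smul_apply, smul_eq_mul, Pi.zero_apply] at h3 ⊢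
      rw [← h3]
      refine Finset.sum_congr rfl fun j _ => by ring
    have h2 := hli0 _ h1 i
    exact (mul_eq_zero.1 h2).resolve_left hai
  have h1 := hli.fintype_card_le_finrank
  rw [Module.finrank_linearMap] at h1
  rw [Nat.card_eq_fintype_card, sq]
  exact h1

/-- `T = S` -/
theorem B_mem_S (h : B_Setup (V := V) (K := K) Z S) {g : G} (hgZ : ∀ z ∈ Z, g * z = z * g)
    (hg : ∀ s ∈ S, g * s * g⁻¹ * s⁻¹ ∈ Z) : g ∈ S := by
  classical
  have hn := B_A_normal h
  have hn' := h.Zn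
  -- lifts to the quotient
  have hlift : ∀ (x : G) (hx : ∀ s ∈ S, x * s * x⁻¹ * s⁻¹ ∈ Z), (∀ z ∈ Z, x * z = z * x) →
      Z.subgroupOf S ≤ (B_chi h x hx).ker := by
    intro x hx hxz z hz
    rw [MonoidHom.mem_ker, B_chi_apply, ← map_one h.ι]
    congr 1
    ext
    show x * z * x⁻¹ * (z : G)⁻¹ = 1
    rw [hxz z hz, mul_inv_cancel_right, mul_inv_cancel]
  let lift : ∀ (x : G) (hx : ∀ s ∈ S, x * s * x⁻¹ * s⁻¹ ∈ Z), (∀ z ∈ Z, x * z = z * x) →
      (B_A Z S →* Kˣ) := fun x hx hxz =>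
    QuotientGroup.lift (Z.subgroupOf S) (B_chi h x hx) (hlift x hx hxz)
  have hlift_apply : ∀ x hx hxz (s : S), lift x hx hxz (s : B_A Z S) = B_chi h x hx s :=
    fun x hx hxz s => rfl
  obtain ⟨hfin, hcard⟩ := B_card_hom_units (B_A Z S) K
  let Φ : B_A Z S → (B_A Z S →* Kˣ) := fun i =>
    lift (Quotient.out i : S) (B_comm_mem h _) (h.SZ _ (Quotient.out i : S).2)
  have hΦ : Function.Injective Φ := by
    intro i j hij
    apply B_phi_inj h
    ext s
    have := congrArg (fun f : B_A Z S →* Kˣ => f (s : B_A Z S)) hij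
    exact congrArg Units.val this
  have hΦs : Function.Surjective Φ := by
    have h1 : Nat.card (B_A Z S →* Kˣ) = Nat.card (B_A Z S) :=
      le_antisymm hcard (Nat.card_le_card_of_injective Φ hΦ)
    have h2 : Function.Bijective Φ :=
      (Nat.bijective_iff_injective_and_card Φ).2 ⟨hΦ, h1.symm⟩
    exact h2.2
  obtain ⟨i, hi⟩ := hΦs (lift g hg hgZ)
  have h1 : B_chi h g hg = B_chi h (Quotient.out i : S) (B_comm_mem h _) := by
    ext s
    have := congrArg (fun f : B_A Z S →* Kˣ => f (s : B_A Z S)) hi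
    exact congrArg Units.val this.symm
  have h2 := h.ZS (B_chi_eq h _ _ _ _ h1)
  have h3 := S.mul_mem (Quotient.out i : S).2 h2
  rwa [mul_inv_cancel_left] at h3

end

end Pool.Agent.FH
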