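import Pool.Agent.Lib.MP_86abfd_al.Base3

set_option linter.unusedSectionVars false
set_option linter.style.haveILetI false

namespace Pool.Agent.FH

open scoped Pointwise commutatorElement

section Field

variable {G V : Type} [Group G] [Finite G] [AddCommGroup V] [Finite V] [DistribMulAction G V]

theorem B_field [FaithfulSMul G V] (hirr : Irred G V) (hp : Prim G V) (Z : Subgroup G)
    (hZn : Z.Normal) (hZ : ∀ a ∈ Z, ∀ b ∈ Z, a * b = b * a) :
    ∃ (K : Type) (_ : Field K) (_ : Module K V) (ι : Z →* Kˣ), Finite K ∧ Function.Injective ι ∧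
      (∀ (z : Z) (v : V), (z : G) • v = (ι z : K) • v) ∧
      (∀ s : G, (∀ z ∈ Z, s * z = z * s) → ∀ (a : K) (v : V), s • (a • v) = a • (s • v)) := by
  classical
  have := hirr.1
  let R : Subring (AddMonoid.End V) := Subring.closure (B_rho G V '' (Z : Set G))
  have hZR : ∀ z ∈ Z, B_rho G V z ∈ R := fun z hz => Subring.subset_closure ⟨z, hz, rfl⟩
  -- elements of G centralising Z commute with R
  have hcent : ∀ b : AddMonoid.End V, (∀ z ∈ Z, b * B_rho G V z = B_rho G V z * b) →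
      ∀ a ∈ R, b * a = a * b := by
    intro b hb a ha
    induction ha using Subring.closure_induction with
    | mem x hx =>
      obtain ⟨z, hz, rfl⟩ := hx
      exact hb z hz
    | zero => rw [mul_zero, zero_mul]
    | one => rw [mul_one, one_mul]
    | add x y _ _ hx hy => rw [mul_add, add_mul, hx, hy]
    | neg x _ hx => rw [mul_neg, neg_mul, hx]
    | mul x y _ _ hx hy => rw [← mul_assoc, hx, mul_assoc, hy, mul_assoc]
  have hcomm : ∀ a ∈ R, ∀ b ∈ R, a * b = b * a := by
    intro a ha b hb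
    refine hcent a ?_ b hb
    intro z hz
    refine (hcent (B_rho G V z) ?_ a ha).symm
    intro z' hz'
    rw [← map_mul, ← map_mul, hZ z hz z' hz']
  have hconj : ∀ x : G, ∀ a ∈ R, B_rho G V x * a * B_rho G V x⁻¹ ∈ R := by
    intro x a ha
    induction ha using Subring.closure_induction with
    | mem y hy =>
      obtain ⟨z, hz, rfl⟩ := hy
      rw [← map_mul, ← map_mul]
      exact hZR _ (hZn.conj_mem z hz x)
    | zero => rw [mul_zero, zero_mul]; exact R.zero_mem
    | one => rw [mul_one, B_rho_mul_inv]; exact R.one_mem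
    | add x y _ _ hx hy => rw [mul_add, add_mul]; exact R.add_mem hx hy
    | neg x _ hx => rw [mul_neg, neg_mul]; exact R.neg_mem hx
    | mul x' y _ _ hx hy => rw [← B_conj_mul]; exact R.mul_mem hx hy
  have hF : IsField R :=
    { exists_pair_ne := ⟨0, 1, by
        intro h
        obtain ⟨v, hv⟩ := exists_ne (0 : V)
        exact hv (congrArg (fun a : R => (a : AddMonoid.End V) v) h).symm⟩
      mul_comm := fun a b => Subtype.ext (hcomm a a.2 b b.2)
      mul_inv_cancel := by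
        intro a ha
        obtain ⟨b, hb, hab⟩ := B_isUnit hirr hp R hcomm hconj a.2
          (fun h => ha (Subtype.ext h))
        exact ⟨⟨b, hb⟩, Subtype.ext hab⟩ }
  let fld : Field R := hF.toField
  let md : @Module R V fld.toSemiring _ := by
    exact (inferInstance : Module R V)
  let f : Z →* R :=
    { toFun := fun z => ⟨B_rho G V z, hZR z z.2⟩
      map_one' := Subtype.ext (map_one _)
      map_mul' := fun a b => Subtype.ext (map_mul _ _ _) }
  have hfin : Finite R := by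
    have : Finite (AddMonoid.End V) := B_finite_end
    infer_instance
  refine ⟨R, fld, md, f.toHomUnits, hfin, ?_, ?_, ?_⟩
  · intro z z' h
    have h1 := congrArg (fun u : Rˣ => ((u : R) : AddMonoid.End V)) h
    have h2 : B_rho G V z = B_rho G V z' := h1
    apply Subtype.ext
    apply eq_of_smul_eq_smul (α := V)
    intro v
    exact congrArg (fun a : AddMonoid.End V => a v) h2
  · intro z v
    rfl
  · intro s hs a v
    have h1 := hcent (B_rho G V s) (fun z hz => by rw [← map_mul, ← map_mul, hs z hz]) a a.2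
    exact congrArg (fun b : AddMonoid.End V => b v) h1

end Field

section Fix

variable {G V : Type} [Group G] [AddCommGroup V] [Finite V] [DistribMulAction G V]

theorem B_inter (A B : AddSubgroup V) : Nat.card A * Nat.card B ≤ Nat.card V * Nat.card ↥(A ⊓ B) := by
  have h1 := A.card_mul_index
  have h2 := B.card_mul_index
  have h3 := (A ⊓ B).card_mul_index
  have h4 : (A ⊓ B).index ≤ A.index * B.index := AddSubgroup.index_inf_le
  have h5 : 0 < (A ⊓ B).index := Nat.pos_of_ne_zero (AddSubgroup.index_ne_zero_of_finite)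
  refine Nat.le_of_mul_le_mul_right ?_ h5
  calc Nat.card A * Nat.card B * (A ⊓ B).index ≤ Nat.card A * Nat.card B * (A.index * B.index) :=
        Nat.mul_le_mul_left _ h4
    _ = (Nat.card A * A.index) * (Nat.card B * B.index) := by ring
    _ = Nat.card V * Nat.card V := by rw [h1, h2]
    _ = Nat.card V * (Nat.card ↥(A ⊓ B) * (A ⊓ B).index) := by rw [h3]
    _ = _ := by ring

def B_fix (G V : Type) [Group G] [AddCommGroup V] [DistribMulAction G V] (g : G) :
    AddSubgroup V where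
  carrier := MulAction.fixedBy V g
  zero_mem' := smul_zero g
  add_mem' := fun {u v} hu hv => by
    rw [MulAction.mem_fixedBy] at *
    rw [smul_add, hu, hv]
  neg_mem' := fun {u} hu => by
    rw [MulAction.mem_fixedBy] at *
    rw [smul_neg, hu]

theorem B_mem_fix (g : G) (v : V) : v ∈ B_fix G V g ↔ g • v = v := Iff.rfl

theorem B_fix_card (g : G) : Nat.card (B_fix G V g) = Nat.card (MulAction.fixedBy V g) := rfl

theorem B_fix_conj (g x : G) : Nat.card (B_fix G V (x * g * x⁻¹)) = Nat.card (B_fix G V g) := by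
  refine Nat.card_congr
    { toFun := fun v => ⟨x⁻¹ • (v : V), ?_⟩
      invFun := fun v => ⟨x • (v : V), ?_⟩
      left_inv := fun v => Subtype.ext (smul_inv_smul x (v : V))
      right_inv := fun v => Subtype.ext (inv_smul_smul x (v : V)) }
  · have := (B_mem_fix _ _).1 v.2
    rw [B_mem_fix]
    calc g • x⁻¹ • (v : V) = x⁻¹ • ((x * g * x⁻¹) • (v : V)) := by
          simp only [← mul_smul]; congr 1; group
      _ = _ := by rw [this]
  · have := (B_mem_fix _ _).1 v.2
    rw [B_mem_fix]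
    calc (x * g * x⁻¹) • x • (v : V) = x • g • (v : V) := by
          simp only [← mul_smul]; congr 1; group
      _ = _ := by rw [this]

theorem B_fix_comm (g x : G) : Nat.card (B_fix G V g) ^ 2 ≤
    Nat.card V * Nat.card (B_fix G V (g * x * g⁻¹ * x⁻¹)) := by
  have h1 := B_inter (B_fix G V g) (B_fix G V (x * g * x⁻¹))
  rw [B_fix_conj] at h1
  rw [sq]
  refine h1.trans (Nat.mul_le_mul_left _ ?_)
  have hle : B_fix G V g ⊓ B_fix G V (x * g * x⁻¹) ≤ B_fix G V (g * x * g⁻¹ * x⁻¹) := by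
    rintro v ⟨hv1, hv2⟩
    have e1 : g • v = v := hv1
    have e2 : (x * g * x⁻¹) • v = v := hv2
    have e3 : (x * g⁻¹ * x⁻¹) • v = v := by
      calc (x * g⁻¹ * x⁻¹) • v = (x * g⁻¹ * x⁻¹) • ((x * g * x⁻¹) • v) := by rw [e2]
        _ = v := by
          rw [← mul_smul]
          have : x * g⁻¹ * x⁻¹ * (x * g * x⁻¹) = 1 := by group
          rw [this, one_smul]
    show (g * x * g⁻¹ * x⁻¹) • v = v
    calc (g * x * g⁻¹ * x⁻¹) • v = g • ((x * g⁻¹ * x⁻¹) • v) := by
          rw [← mul_smul]; congr 1; group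
      _ = v := by rw [e3, e1]
  exact Nat.card_le_card_of_injective (AddSubgroup.inclusion hle) (AddSubgroup.inclusion_injective hle)

end Fix

section Main

variable {G V K : Type} [Group G] [Finite G] [AddCommGroup V] [Finite V] [DistribMulAction G V]
  [FaithfulSMul G V] [Field K] [Module K V] {Z S : Subgroup G}

theorem B_fixed (h : B_Setup (V := V) (K := K) Z S) {g : G} (hg : g ≠ 1) :
    Nat.card (MulAction.fixedBy V g) ^ 4 ≤ Nat.card V ^ 3 := by
  classical
  have hZn := h.Zn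
  have hSn := h.Sn
  rw [← B_fix_card]
  set n := Nat.card V with hn
  have hn1 : 1 ≤ n := Nat.card_pos
  -- nontrivial central elements have no fixed points
  have hZ1 : ∀ z ∈ Z, z ≠ 1 → Nat.card (B_fix G V z) = 1 := by
    intro z hz hz1
    have : B_fix G V z = ⊥ := by
      rw [eq_bot_iff]
      intro v hv
      have hv' : z • v = v := hv
      have h1 := h.ιact ⟨z, hz⟩ v
      have h1' : z • v = (h.ι ⟨z, hz⟩ : K) • v := h1
      rw [hv'] at h1'
      have h2 : ((h.ι ⟨z, hz⟩ : K) - 1) • v = 0 := by rw [sub_smul, one_smul, ← h1', sub_self]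
      rcases smul_eq_zero.1 h2 with h3 | h3
      · exfalso
        apply hz1
        have h4 : h.ι ⟨z, hz⟩ = 1 := by
          ext
          rw [sub_eq_zero] at h3
          exact h3
        rw [← map_one h.ι] at h4
        exact congrArg Subtype.val (h.ιinj h4)
      · exact h3
    rw [this]
    exact AddSubgroup.card_bot
  have hcase : ∀ x : G, (∃ y : G, x * y * x⁻¹ * y⁻¹ ∈ Z ∧ x * y * x⁻¹ * y⁻¹ ≠ 1) →
      Nat.card (B_fix G V x) ^ 2 ≤ n := by
    rintro x ⟨y, hy, hy1⟩
    have := B_fix_comm (V := V) x y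
    rwa [hZ1 _ hy hy1, mul_one] at this
  have hfin : ∀ m : ℕ, m ^ 2 ≤ n → m ^ 4 ≤ n ^ 3 := by
    intro m hm
    calc m ^ 4 = (m ^ 2) ^ 2 := by ring
      _ ≤ n ^ 2 := Nat.pow_le_pow_left hm 2
      _ ≤ n ^ 3 := Nat.pow_le_pow_right hn1 (by norm_num)
  -- elements of S
  have hS : ∀ s ∈ S, s ∉ Z → Nat.card (B_fix G V s) ^ 2 ≤ n := by
    intro s hs hsZ
    apply hcase
    by_contra hcon
    push Not at hcon
    apply hsZ
    apply h.cent
    intro s' hs'
    have h1 := hcon s' (h.SS s hs s' hs')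
    rw [mul_inv_eq_one, mul_inv_eq_iff_eq_mul] at h1
    exact h1
  by_cases hgC : ∀ z ∈ Z, g * z = z * g
  · by_cases hgS : g ∈ S
    · by_cases hgZ : g ∈ Z
      · rw [hZ1 g hgZ hg, one_pow]
        exact Nat.one_le_pow _ _ hn1
      · exact hfin _ (hS g hgS hgZ)
    · have : ∃ s ∈ S, g * s * g⁻¹ * s⁻¹ ∉ Z := by
        by_contra hcon
        push Not at hcon
        exact hgS (B_mem_S h hgC hcon)
      obtain ⟨s, hs, hsZ⟩ := this
      have h1 : g * s * g⁻¹ * s⁻¹ ∈ S := S.mul_mem (hSn.conj_mem s hs g) (S.inv_mem hs)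
      have h2 := hS _ h1 hsZ
      have h3 := B_fix_comm (V := V) g s
      calc Nat.card (B_fix G V g) ^ 4 = (Nat.card (B_fix G V g) ^ 2) ^ 2 := by ring
        _ ≤ (n * Nat.card (B_fix G V (g * s * g⁻¹ * s⁻¹))) ^ 2 := Nat.pow_le_pow_left h3 2
        _ = n ^ 2 * Nat.card (B_fix G V (g * s * g⁻¹ * s⁻¹)) ^ 2 := by ring
        _ ≤ n ^ 2 * n := Nat.mul_le_mul_left _ h2
        _ = n ^ 3 := by ring
  · push Not at hgC
    obtain ⟨z, hz, hne⟩ := hgC
    refine hfin _ (hcase g ⟨z, Z.mul_mem (hZn.conj_mem z hz g) (Z.inv_mem hz), ?_⟩)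
    intro h1
    rw [mul_inv_eq_one, mul_inv_eq_iff_eq_mul] at h1
    exact hne h1

theorem B_Z_cyclic (h : B_Setup (V := V) (K := K) Z S) : IsCyclic Z :=
  isCyclic_of_injective_ringHom ((Units.coeHom K).comp h.ι)
    (Units.val_injective.comp h.ιinj)

theorem B_card_Z (h : B_Setup (V := V) (K := K) Z S) [Finite K] : Nat.card Z ≤ Nat.card K :=
  (Nat.card_le_card_of_injective _ h.ιinj).trans
    (Nat.card_le_card_of_injective _ Units.val_injective)

theorem B_card_mulAut_cyclic (A : Type) [Group A] [Finite A] [IsCyclic A] :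
    Nat.card (MulAut A) ≤ Nat.card A := by
  obtain ⟨a, ha⟩ := IsCyclic.exists_generator (α := A)
  refine Nat.card_le_card_of_injective (fun f : MulAut A => f a) ?_
  intro f f' hff
  ext x
  obtain ⟨n, rfl⟩ := Subgroup.mem_zpowers_iff.1 (ha x)
  have : f a = f' a := hff
  rw [map_zpow, map_zpow, this]

theorem B_mulAut_cyclic_comm (A : Type) [Group A] [IsCyclic A] (f f' : MulAut A) :
    f * f' = f' * f := by
  obtain ⟨m, hm⟩ := MonoidHom.map_cyclic (f : A ≃* A).toMonoidHom
  obtain ⟨m', hm'⟩ := MonoidHom.map_cyclic (f' : A ≃* A).toMonoidHom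
  have hm : ∀ x, f x = x ^ m := hm
  have hm' : ∀ x, f' x = x ^ m' := hm'
  ext x
  rw [MulAut.mul_apply, MulAut.mul_apply, hm, hm', hm', hm, ← zpow_mul, ← zpow_mul, mul_comm]

/-- the image of `S` in `G/Z` -/
def B_Sb (Z S : Subgroup G) [Z.Normal] : Subgroup (G ⧸ Z) := S.map (QuotientGroup.mk' Z)

instance B_Sb_normal (Z S : Subgroup G) [Z.Normal] [hS : S.Normal] : (B_Sb Z S).Normal :=
  hS.map _ (QuotientGroup.mk'_surjective Z)

theorem B_card_Sb (Z S : Subgroup G) [Z.Normal] : Nat.card (B_Sb Z S) ≤ Nat.card (B_A Z S) := by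
  refine Nat.card_le_card_of_surjective
    (fun i : B_A Z S => (⟨QuotientGroup.mk' Z ((Quotient.out i : S) : G),
      ⟨_, (Quotient.out i : S).2, rfl⟩⟩ : B_Sb Z S)) ?_
  rintro ⟨_, s, hs, rfl⟩
  refine ⟨((⟨s, hs⟩ : S) : B_A Z S), ?_⟩
  apply Subtype.ext
  show QuotientGroup.mk' Z _ = QuotientGroup.mk' Z s
  rw [QuotientGroup.mk'_apply, QuotientGroup.mk'_apply, QuotientGroup.eq]
  have h1 := QuotientGroup.out_eq' ((⟨s, hs⟩ : S) : B_A Z S)
  rw [QuotientGroup.eq, Subgroup.mem_subgroupOf] at h1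
  exact h1

/-- conjugation action on `S/Z` -/
noncomputable def B_conjS (Z S : Subgroup G) [Z.Normal] [S.Normal] : G →* MulAut (B_Sb Z S) :=
  MulAut.conjNormal.comp (QuotientGroup.mk' Z)

theorem B_conjS_one (Z S : Subgroup G) [Z.Normal] [S.Normal] {g : G} (hg : B_conjS Z S g = 1) :
    ∀ s ∈ S, g * s * g⁻¹ * s⁻¹ ∈ Z := by
  intro s hs
  have h1 := congrArg (fun f : MulAut (B_Sb Z S) =>
    ((f ⟨QuotientGroup.mk' Z s, ⟨s, hs, rfl⟩⟩ : B_Sb Z S) : G ⧸ Z)) hg
  have h2 : (QuotientGroup.mk' Z g) * (QuotientGroup.mk' Z s) * (QuotientGroup.mk' Z g)⁻¹ =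
      QuotientGroup.mk' Z s := h1
  rw [← map_inv, ← map_mul, ← map_mul] at h2
  rw [← QuotientGroup.ker_mk' Z, MonoidHom.mem_ker, map_mul, h2, map_inv, mul_inv_cancel]

theorem B_card_conjS (h : B_Setup (V := V) (K := K) Z S) [Module.Finite K V] [Nontrivial V]
    [Z.Normal] :
    Nat.card (MulAut (B_Sb Z S)) ≤
      (Module.finrank K V ^ 2) ^ Nat.log 2 (Module.finrank K V ^ 2) := by
  have h1 := card_mulAut_le (B_Sb Z S)
  have h2 : Nat.card (B_Sb Z S) ≤ Module.finrank K V ^ 2 := (B_card_Sb Z S).trans (B_card_A h)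
  have h3 : 0 < Nat.card (B_Sb Z S) := Nat.card_pos
  calc _ ≤ _ := h1
    _ ≤ (Module.finrank K V ^ 2) ^ Nat.log 2 (Nat.card (B_Sb Z S)) := Nat.pow_le_pow_left h2 _
    _ ≤ _ := Nat.pow_le_pow_right (h3.trans_le h2) (Nat.log_mono_right h2)

theorem B_card_G (h : B_Setup (V := V) (K := K) Z S) [Finite K] [Module.Finite K V]
    [Nontrivial V] :
    Nat.card G ≤ Nat.card K ^ 2 * Module.finrank K V ^ 2 *
      (Module.finrank K V ^ 2) ^ Nat.log 2 (Module.finrank K V ^ 2) := by
  have hZn := h.Zn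
  have hSn := h.Sn
  have hcyc := B_Z_cyclic h
  let Θ : G →* MulAut Z × MulAut (B_Sb Z S) := MulAut.conjNormal.prod (B_conjS Z S)
  have hker : Θ.ker ≤ S := by
    intro g hg
    rw [MonoidHom.mem_ker, Prod.ext_iff] at hg
    refine B_mem_S h ?_ (B_conjS_one Z S hg.2)
    intro z hz
    have h1 := congrArg (fun f : MulAut Z => ((f ⟨z, hz⟩ : Z) : G)) hg.1
    have h2 : g * z * g⁻¹ = z := h1
    rwa [mul_inv_eq_iff_eq_mul] at h2
  have h1 : Nat.card G = Nat.card Θ.ker * Nat.card Θ.range := by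
    rw [← Subgroup.index_ker, Subgroup.card_mul_index]
  have h2 : Nat.card Θ.ker ≤ Nat.card S :=
    Nat.card_le_card_of_injective (Subgroup.inclusion hker) (Subgroup.inclusion_injective hker)
  have h3 : Nat.card Θ.range ≤ Nat.card (MulAut Z) * Nat.card (MulAut (B_Sb Z S)) := by
    rw [← Nat.card_prod]
    exact Nat.card_le_card_of_injective (fun x : Θ.range => (x : MulAut Z × MulAut (B_Sb Z S)))
      Subtype.val_injective
  have h4 : Nat.card S = Nat.card (B_A Z S) * Nat.card Z := by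
    rw [Subgroup.card_eq_card_quotient_mul_card_subgroup (Z.subgroupOf S)]
    congr 1
    exact Nat.card_congr (Subgroup.subgroupOfEquivOfLe h.ZS).toEquiv
  have h5 := B_card_mulAut_cyclic Z
  have h6 := B_card_Z h
  have h7 := B_card_A h
  have h8 := B_card_conjS h
  calc Nat.card G = Nat.card Θ.ker * Nat.card Θ.range := h1
    _ ≤ (Nat.card (B_A Z S) * Nat.card Z) * (Nat.card (MulAut Z) * Nat.card (MulAut (B_Sb Z S))) :=
        Nat.mul_le_mul (h4 ▸ h2) h3
    _ ≤ (Module.finrank K V ^ 2 * Nat.card K) * (Nat.card K *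
          (Module.finrank K V ^ 2) ^ Nat.log 2 (Module.finrank K V ^ 2)) :=
        Nat.mul_le_mul (Nat.mul_le_mul h7 h6) (Nat.mul_le_mul (h5.trans h6) h8)
    _ = _ := by ring

/-- climbing between two normal subgroups -/
theorem B_le_Rr [Group.IsSolvable G] (t : ℕ) : ∀ (M L : Subgroup G), M.Normal → L.Normal →
    M ≤ L → M.relIndex L ≤ 2 ^ t → L ≤ Rr M t := by
  induction t with
  | zero =>
    intro M L hM hL hML h
    have h1 : M.relIndex L = 1 := by
      have h2 : M.relIndex L ≠ 0 := Subgroup.index_ne_zero_of_finite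
      simp only [pow_zero] at h
      omega
    exact Subgroup.relIndex_eq_one.1 h1
  | succ t ih =>
    intro M L hM hL hML h
    by_cases hLM : L ≤ M
    · exact hLM.trans ((Rr_mono M (Nat.zero_le (t + 1))))
    obtain ⟨N, hN, hNL, hNM, hNN⟩ := B_exists_last M L hLM
    have hsup : M ⊔ N ≤ L := sup_le hML hNL
    have h1 : M.relIndex (M ⊔ N) * (M ⊔ N).relIndex L = M.relIndex L :=
      Subgroup.relIndex_mul_relIndex _ _ _ le_sup_left hsup
    have h2 : 2 ≤ M.relIndex (M ⊔ N) := by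
      have h3 : M.relIndex (M ⊔ N) ≠ 0 := Subgroup.index_ne_zero_of_finite
      have h4 : M.relIndex (M ⊔ N) ≠ 1 := by
        intro h4
        exact hNM (le_sup_right.trans (Subgroup.relIndex_eq_one.1 h4))
      omega
    have h3 : (M ⊔ N).relIndex L ≤ 2 ^ t := by
      have h4 : 2 * (M ⊔ N).relIndex L ≤ 2 ^ (t + 1) :=
        (Nat.mul_le_mul_right _ h2).trans (h1.le.trans h)
      rw [pow_succ] at h4
      omega
    have h4 := ih (M ⊔ N) L inferInstance hL hsup h3
    refine h4.trans ?_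
    have h5 : M ⊔ N ≤ Rr M 1 := by
      refine sup_le (Rr_le_succ M 0) ?_
      exact RelNil.le_fitOver (relNil_of_comm hNN)
    refine (Rr_mono_left h5 t).trans ?_
    rw [Rr_add, add_comm]

theorem B_chain (h : B_Setup (V := V) (K := K) Z S) [Group.IsSolvable G] [Module.Finite K V]
    [Nontrivial V] (t : ℕ)
    (ht : (Module.finrank K V ^ 2) ^ Nat.log 2 (Module.finrank K V ^ 2) ≤ 2 ^ t)
    (hZab : ∀ a ∈ Z, ∀ b ∈ Z, a * b = b * a) :
    Rr (⊥ : Subgroup G) (t + 3) = ⊤ := by
  have hZn := h.Zn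
  have hSn := h.Sn
  have hcyc := B_Z_cyclic h
  have h1 : Z ≤ Rr ⊥ 1 := by
    refine RelNil.le_fitOver (relNil_of_comm ?_)
    rw [Subgroup.commutator_le]
    intro a ha b hb
    show ⁅a, b⁆ ∈ (⊥ : Subgroup G)
    rw [Subgroup.mem_bot, commutatorElement_eq_one_iff_mul_comm]
    exact hZab a ha b hb
  have h2 : S ≤ Rr ⊥ 2 := by
    have : RelNil (Rr ⊥ 1) S := by
      refine relNil_of_comm ?_
      refine le_trans ?_ h1
      rw [Subgroup.commutator_le]
      intro a ha b hb
      exact h.SS a ha b hb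
    exact this.le_fitOver
  let C : Subgroup G := Subgroup.centralizer (Z : Set G)
  have hCn : C.Normal := Subgroup.normal_centralizer
  have hSC : S ≤ C := by
    intro s hs
    rw [Subgroup.mem_centralizer_iff]
    intro z hz
    exact (h.SZ s hs z hz).symm
  have hCmem : ∀ {x}, x ∈ C → ∀ z ∈ Z, x * z = z * x := by
    intro x hx z hz
    exact (Subgroup.mem_centralizer_iff.1 hx z hz).symm
  have h3 : S.relIndex C ≤ 2 ^ t := by
    let f : C →* MulAut (B_Sb Z S) := (B_conjS Z S).comp C.subtype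
    have hker : f.ker ≤ S.subgroupOf C := by
      intro x hx
      rw [Subgroup.mem_subgroupOf]
      exact B_mem_S h (hCmem x.2) (B_conjS_one Z S hx)
    have h4 : (S.subgroupOf C).index ≤ f.ker.index :=
      Nat.le_of_dvd (Nat.pos_of_ne_zero Subgroup.index_ne_zero_of_finite)
        (Subgroup.index_dvd_of_le hker)
    rw [Subgroup.index_ker] at h4
    have h5 : Nat.card f.range ≤ Nat.card (MulAut (B_Sb Z S)) :=
      Nat.card_le_card_of_injective (fun x : f.range => (x : MulAut (B_Sb Z S)))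
        Subtype.val_injective
    exact h4.trans (h5.trans ((B_card_conjS h).trans ht))
  have h4 : C ≤ Rr ⊥ (2 + t) := by
    rw [← Rr_add]
    exact (B_le_Rr t S C hSn hCn hSC h3).trans (Rr_mono_left h2 t)
  have h5 : (⊤ : Subgroup G) ≤ Rr ⊥ (t + 3) := by
    have : RelNil (Rr ⊥ (2 + t)) (⊤ : Subgroup G) := by
      refine relNil_of_comm (le_trans ?_ h4)
      rw [Subgroup.commutator_le]
      intro a _ b _
      rw [Subgroup.mem_centralizer_iff]
      intro z hz
      have e1 := B_mulAut_cyclic_comm Z (MulAut.conjNormal a) (MulAut.conjNormal b)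
      rw [← map_mul, ← map_mul] at e1
      have e2 := congrArg (fun f : MulAut Z => ((f (MulAut.conjNormal (a⁻¹ * b⁻¹) ⟨z, hz⟩) : Z) : G)) e1
      have e3 : (a * b) * ((a⁻¹ * b⁻¹) * z * (a⁻¹ * b⁻¹)⁻¹) * (a * b)⁻¹ =
        (b * a) * ((a⁻¹ * b⁻¹) * z * (a⁻¹ * b⁻¹)⁻¹) * (b * a)⁻¹ := e2
      rw [commutatorElement_def]
      have e4 : (b * a) * ((a⁻¹ * b⁻¹) * z * (a⁻¹ * b⁻¹)⁻¹) * (b * a)⁻¹ = z := by group
      rw [e4] at e3
      calc z * (a * b * a⁻¹ * b⁻¹) =
          ((a * b) * ((a⁻¹ * b⁻¹) * z * (a⁻¹ * b⁻¹)⁻¹) * (a * b)⁻¹) * (a * b * a⁻¹ * b⁻¹) := by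
            rw [e3]
        _ = a * b * a⁻¹ * b⁻¹ * z := by group
    have h6 := this.le_fitOver
    have h7 : FitOver (Rr (⊥ : Subgroup G) (2 + t)) = Rr ⊥ (t + 3) := by
      show Rr (⊥ : Subgroup G) (2 + t + 1) = _
      congr 1
      omega
    rwa [h7] at h6
  exact top_le_iff.1 h5

end Main

/-- piece B1 -/
theorem prim_struct (G : Type) [Group G] [Finite G] [Group.IsSolvable G] (V : Type)
    [AddCommGroup V] [Finite V] [DistribMulAction G V] [FaithfulSMul G V] (hirr : Irred G V)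
    (hp : Prim G V) :
    ∃ q D : ℕ, 2 ≤ q ∧ 1 ≤ D ∧ Nat.card V = q ^ D ∧
      Nat.card G ≤ q ^ 2 * D ^ 2 * (D ^ 2) ^ Nat.log 2 (D ^ 2) ∧
      (∀ g : G, g ≠ 1 → Nat.card (MulAction.fixedBy V g) ^ 4 ≤ Nat.card V ^ 3) ∧
      ∀ t : ℕ, (D ^ 2) ^ Nat.log 2 (D ^ 2) ≤ 2 ^ t → Rr (⊥ : Subgroup G) (t + 3) = ⊤ := by
  have := hirr.1
  obtain ⟨Z, S, hZn, hSn, hZ, hZS, hSZ, hSS, hcent⟩ := B_groups G
  obtain ⟨K, fld, md, ι, hfin, hinj, hact, hlin⟩ := B_field (V := V) hirr hp Z hZn hZ
  have h : B_Setup (V := V) (K := K) Z S :=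
    { Zn := hZn, Sn := hSn, ZS := hZS, SZ := hSZ, SS := hSS, cent := hcent, ι := ι,
      ιinj := hinj, ιact := hact, lin := fun s hs a v => hlin s (hSZ s hs) a v }
  have hmf : Module.Finite K V := Module.Finite.of_finite
  refine ⟨Nat.card K, Module.finrank K V, ?_, ?_, Module.natCard_eq_pow_finrank, B_card_G h,
    fun g hg => B_fixed h hg, fun t ht => B_chain h t ht hZ⟩
  · exact Finite.one_lt_card
  · exact Module.finrank_pos
end Pool.Agent.FH
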