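import Pool.Agent.Lib.MP_86abfd_al.Defs

/-!
# MP_86abfd_al, piece X: irreducible complex characters of a finite group

`irrChar_finite`, `irrChar_ncard` (the number of irreducible characters is the number of conjugacy
classes), orthogonality, `χ g⁻¹ = conj (χ g)`, transport, and the form of Schur's lemma used by the
other files.
-/

namespace Pool.Agent.FH

open Representation

section Basic

variable {G : Type*} [Group G] {U : Type*} [AddCommGroup U] [Module ℂ U]
  {U' : Type*} [AddCommGroup U'] [Module ℂ U']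

/-- irreducibility in terms of invariant submodules -/
theorem X_irr_iff (ρ : Representation ℂ G U) :
    ρ.IsIrreducible ↔ Nontrivial U ∧
      ∀ W : Submodule ℂ U, (∀ g, ∀ u ∈ W, ρ g u ∈ W) → W = ⊥ ∨ W = ⊤ := by
  constructor
  · intro h
    refine ⟨?_, fun W hW => ?_⟩
    · by_contra hn
      rw [not_nontrivial_iff_subsingleton] at hn
      obtain ⟨a, b, hab⟩ := h.exists_pair_ne
      exact hab (Subrepresentation.toSubmodule_injective (Subsingleton.elim _ _))
    · rcases h.eq_bot_or_eq_top (⟨W, fun g u hu => hW g u hu⟩ : Subrepresentation ρ) with h | h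
      · left; exact congrArg Subrepresentation.toSubmodule h
      · right; exact congrArg Subrepresentation.toSubmodule h
  · rintro ⟨hn, h⟩
    refine { exists_pair_ne := ⟨⊥, ⊤, ?_⟩, eq_bot_or_eq_top := fun a => ?_ }
    · intro h'
      have := congrArg Subrepresentation.toSubmodule h'
      exact bot_ne_top (α := Submodule ℂ U) this
    · rcases h a.toSubmodule (fun g u hu => a.apply_mem_toSubmodule g hu) with h' | h'
      · left; exact Subrepresentation.toSubmodule_injective h'
      · right; exact Subrepresentation.toSubmodule_injective h'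

/-- transport of a representation along a linear equivalence -/
def X_conj (ρ : Representation ℂ G U) (e : U ≃ₗ[ℂ] U') : Representation ℂ G U' where
  toFun g := e.toLinearMap ∘ₗ ρ g ∘ₗ e.symm.toLinearMap
  map_one' := by ext; simp
  map_mul' a b := by ext; simp

@[simp] theorem X_conj_apply (ρ : Representation ℂ G U) (e : U ≃ₗ[ℂ] U') (g : G) (u : U') :
    X_conj ρ e g u = e (ρ g (e.symm u)) := rfl

theorem X_conj_irr (ρ : Representation ℂ G U) (e : U ≃ₗ[ℂ] U') (h : ρ.IsIrreducible) :
    (X_conj ρ e).IsIrreducible := by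
  rw [X_irr_iff] at h ⊢
  obtain ⟨h1, h2⟩ := h
  refine ⟨e.symm.toEquiv.nontrivial, fun W hW => ?_⟩
  have key : ∀ g, ∀ u ∈ W.comap e.toLinearMap, ρ g u ∈ W.comap e.toLinearMap := by
    intro g u hu
    have := hW g (e u) hu
    simpa using this
  rcases h2 (W.comap e.toLinearMap) key with h3 | h3
  · left
    rw [Submodule.eq_bot_iff] at h3 ⊢
    intro x hx
    have := h3 (e.symm x) (by simpa using hx)
    simpa using this
  · right
    rw [Submodule.eq_top_iff'] at h3 ⊢
    intro x
    simpa using h3 (e.symm x)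

theorem X_conj_character (ρ : Representation ℂ G U) (e : U ≃ₗ[ℂ] U') :
    (X_conj ρ e).character = ρ.character := by
  ext g
  exact LinearMap.trace_conj' (ρ g) e

end Basic

/-- transport from any finite dimensional irreducible representation -/
theorem mem_irrChar {G : Type} [Group G] {U : Type} [AddCommGroup U] [Module ℂ U]
    [FiniteDimensional ℂ U] (ρ : Representation ℂ G U) (h : ρ.IsIrreducible) :
    ρ.character ∈ IrrChar G := by
  let e : U ≃ₗ[ℂ] (Fin (Module.finrank ℂ U) → ℂ) := (Module.finBasis ℂ U).equivFun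
  exact ⟨_, X_conj ρ e, X_conj_irr ρ e h, X_conj_character ρ e⟩

/-- Schur's lemma -/
theorem X_schur {G : Type*} [Group G] {U : Type*} [AddCommGroup U] [Module ℂ U]
    [FiniteDimensional ℂ U] (ρ : Representation ℂ G U) (h : ρ.IsIrreducible) (T : U →ₗ[ℂ] U)
    (hT : ∀ g, T ∘ₗ ρ g = ρ g ∘ₗ T) : ∃ c : ℂ, T = c • LinearMap.id := by
  let f : IntertwiningMap ρ ρ := ⟨T, hT⟩
  obtain ⟨c, hc⟩ := (IsIrreducible.algebraMap_intertwiningMap_bijective_of_isAlgClosed
    (ρ := ρ)).2 f
  refine ⟨c, ?_⟩
  have : (algebraMap ℂ (IntertwiningMap ρ ρ) c).toLinearMap = T := by rw [hc]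
  rw [← this, IntertwiningMap.algebraMap_apply]
  rfl

section Fin

variable {G : Type*} [Group G]

theorem X_class {χ : G → ℂ} (hχ : χ ∈ IrrChar G) (g h : G) : χ (h * g * h⁻¹) = χ g := by
  obtain ⟨n, ρ, _, rfl⟩ := hχ
  exact char_conj ρ g h

theorem X_isConj {χ : G → ℂ} (hχ : χ ∈ IrrChar G) {g h : G} (hgh : IsConj g h) : χ g = χ h := by
  obtain ⟨c, hc⟩ := isConj_iff.1 hgh
  rw [← hc, X_class hχ]

/-- the degree of an irreducible character is positive -/
theorem X_one {χ : G → ℂ} (hχ : χ ∈ IrrChar G) : ∃ n : ℕ, 0 < n ∧ χ 1 = n := by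
  obtain ⟨n, ρ, h, rfl⟩ := hχ
  have hn := ((X_irr_iff ρ).1 h).1
  refine ⟨n, ?_, by simp⟩
  rcases Nat.eq_zero_or_pos n with h0 | h0
  · subst h0
    exact absurd hn (not_nontrivial _)
  · exact h0

theorem X_one_ne_zero {χ : G → ℂ} (hχ : χ ∈ IrrChar G) : χ 1 ≠ 0 := by
  obtain ⟨n, h, h'⟩ := X_one hχ
  rw [h']
  exact_mod_cast h.ne'

theorem irrChar_orthogonal {G : Type*} [Group G] [Fintype G] {χ ψ : G → ℂ} (hχ : χ ∈ IrrChar G)
    (hψ : ψ ∈ IrrChar G) (h : χ ≠ ψ) : ∑ g, χ g * ψ g⁻¹ = 0 := by
  classical
  obtain ⟨n, ρ, h1, rfl⟩ := hχ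
  obtain ⟨m, σ, h2, rfl⟩ := hψ
  have hc : (Nat.card G : ℂ) ≠ 0 := by
    rw [Nat.card_eq_fintype_card]
    exact_mod_cast Fintype.card_ne_zero
  let _ : Invertible (Nat.card G : ℂ) := invertibleOfNonzero hc
  have := char_orthonormal ρ σ
  rw [if_neg] at this
  · rcases mul_eq_zero.1 this with h | h
    · exact absurd h (inv_ne_zero hc)
    · exact h
  · rintro ⟨e⟩
    exact h (char_iso e).symm

theorem X_norm {G : Type*} [Group G] [Fintype G] {χ : G → ℂ} (hχ : χ ∈ IrrChar G) :
    ∑ g, χ g * χ g⁻¹ = Fintype.card G := by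
  classical
  obtain ⟨n, ρ, h1, rfl⟩ := hχ
  have hc : (Nat.card G : ℂ) ≠ 0 := by
    rw [Nat.card_eq_fintype_card]
    exact_mod_cast Fintype.card_ne_zero
  let _ : Invertible (Nat.card G : ℂ) := invertibleOfNonzero hc
  have := char_orthonormal ρ ρ
  rw [if_pos ⟨Representation.Equiv.refl ρ⟩] at this
  rw [← Nat.card_eq_fintype_card]
  field_simp at this
  exact this

/-- the irreducible characters are linearly independent -/
theorem X_linearIndependent {G : Type*} [Group G] [Finite G] :
    LinearIndependent ℂ (fun χ : IrrChar G => (χ : G → ℂ)) := by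
  classical
  have := Fintype.ofFinite G
  rw [linearIndependent_iff']
  intro s c hc i hi
  have h1 : ∑ g, (∑ j ∈ s, c j • (j : G → ℂ)) g * (i : G → ℂ) g⁻¹ = 0 := by
    rw [hc]; simp
  have h2 : ∑ g, (∑ j ∈ s, c j • (j : G → ℂ)) g * (i : G → ℂ) g⁻¹
      = ∑ j ∈ s, c j * ∑ g, (j : G → ℂ) g * (i : G → ℂ) g⁻¹ := by
    simp only [Finset.sum_apply, Pi.smul_apply, smul_eq_mul, Finset.sum_mul, Finset.mul_sum]
    rw [Finset.sum_comm]
    simp only [mul_assoc]
  rw [h2, Finset.sum_eq_single_of_mem i hi, X_norm i.2] at h1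
  · rcases mul_eq_zero.1 h1 with h | h
    · exact h
    · exact absurd h (by exact_mod_cast Fintype.card_ne_zero)
  · intro j _ hj
    rw [irrChar_orthogonal j.2 i.2 (fun h => hj (Subtype.ext h)), mul_zero]

/-- a character as a function on conjugacy classes -/
noncomputable def X_cl (χ : IrrChar G) : ConjClasses G → ℂ :=
  fun C => (χ : G → ℂ) C.out

theorem X_cl_mk (χ : IrrChar G) (g : G) : X_cl χ (ConjClasses.mk g) = (χ : G → ℂ) g := by
  apply X_isConj χ.2
  have : ConjClasses.mk (Quotient.out (ConjClasses.mk g)) = ConjClasses.mk g :=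
    Quotient.out_eq _
  exact ConjClasses.mk_eq_mk_iff_isConj.1 this

theorem X_cl_linearIndependent [Finite G] :
    LinearIndependent ℂ (X_cl (G := G)) := by
  apply LinearIndependent.of_comp (LinearMap.funLeft ℂ ℂ (ConjClasses.mk (α := G)))
  convert X_linearIndependent (G := G) using 1
  ext χ g
  exact X_cl_mk χ g

theorem irrChar_finite (G : Type*) [Group G] [Finite G] : (IrrChar G).Finite := by
  have h := (X_cl_linearIndependent (G := G)).finite
  exact Set.toFinite _


theorem X_finiteDimensional_monoidAlgebra (G : Type*) [Finite G] :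
    FiniteDimensional ℂ (MonoidAlgebra ℂ G) :=
  Module.Finite.equiv (M := G →₀ ℂ) (MonoidAlgebra.coeffLinearEquiv ℂ).symm

/-- a nonzero element of the group algebra acts non trivially in some irreducible
representation -/
theorem X_exists_irr {G : Type*} [Group G] [Finite G] (a : MonoidAlgebra ℂ G) (ha : a ≠ 0) :
    ∃ (n : ℕ) (ρ : Representation ℂ G (Fin n → ℂ)), ρ.IsIrreducible ∧ ρ.asAlgebraHom a ≠ 0 := by
  classical
  have : NeZero (Nat.card G : ℂ) := ⟨by exact_mod_cast Nat.card_pos.ne'⟩
  have := X_finiteDimensional_monoidAlgebra G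
  by_contra hcon
  push Not at hcon
  -- `a` kills every simple submodule
  have key : ∀ S : Submodule (MonoidAlgebra ℂ G) (MonoidAlgebra ℂ G),
      IsSimpleModule (MonoidAlgebra ℂ G) S → ∀ x ∈ S, a * x = 0 := by
    intro S hS x hx
    let ρ : Representation ℂ G S := Representation.ofModule' S
    have hρ : ∀ (g : G) (s : S), ρ g s = MonoidAlgebra.single g (1 : ℂ) • s := by
      intro g s
      rfl
    have : FiniteDimensional ℂ S :=
      inferInstanceAs (FiniteDimensional ℂ (S.restrictScalars ℂ))
    have hirr : ρ.IsIrreducible := by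
      rw [X_irr_iff]
      refine ⟨IsSimpleModule.nontrivial (MonoidAlgebra ℂ G) S, fun W hW => ?_⟩
      let W' : Submodule (MonoidAlgebra ℂ G) S :=
        { carrier := W
          add_mem' := W.add_mem
          zero_mem' := W.zero_mem
          smul_mem' := by
            intro c u hu
            induction c using MonoidAlgebra.induction_linear with
            | zero => rw [zero_smul]; exact W.zero_mem
            | add x y hx hy => rw [add_smul]; exact W.add_mem hx hy
            | single g r =>
              have h1 := W.smul_mem r (hW g u hu)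
              rw [hρ, ← smul_assoc, MonoidAlgebra.smul_single, smul_eq_mul, mul_one] at h1
              exact h1 }
      have hmem : ∀ u : S, u ∈ W ↔ u ∈ W' := fun u => Iff.rfl
      rcases eq_bot_or_eq_top W' with h | h
      · left
        rw [Submodule.eq_bot_iff]
        intro u hu
        rw [hmem, h] at hu
        exact (Submodule.mem_bot _).1 hu
      · right
        rw [Submodule.eq_top_iff']
        intro u
        rw [hmem, h]
        exact Submodule.mem_top
    let e : S ≃ₗ[ℂ] (Fin (Module.finrank ℂ S) → ℂ) := (Module.finBasis ℂ S).equivFun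
    have h0 := hcon _ (X_conj ρ e) (X_conj_irr ρ e hirr)
    have h1 : ∀ b : MonoidAlgebra ℂ G, ∀ s : S, (X_conj ρ e).asAlgebraHom b (e s) = e (b • s) := by
      intro b s
      induction b using MonoidAlgebra.induction_linear with
      | zero => simp
      | add x y hx hy => rw [map_add, LinearMap.add_apply, hx, hy, add_smul, map_add]
      | single g r =>
        rw [Representation.asAlgebraHom_single, LinearMap.smul_apply, X_conj_apply,
          LinearEquiv.symm_apply_apply, hρ, ← map_smul, ← smul_assoc, MonoidAlgebra.smul_single,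
          smul_eq_mul, mul_one]
    have h2 := h1 a ⟨x, hx⟩
    rw [h0, LinearMap.zero_apply] at h2
    have h3 : a • (⟨x, hx⟩ : S) = 0 := by
      apply e.injective
      rw [← h2, map_zero]
    simpa using congrArg Subtype.val h3
  apply ha
  have htop : (1 : MonoidAlgebra ℂ G) ∈ sSup {S : Submodule (MonoidAlgebra ℂ G)
      (MonoidAlgebra ℂ G) | IsSimpleModule (MonoidAlgebra ℂ G) S} := by
    rw [IsSemisimpleModule.sSup_simples_eq_top]
    exact Submodule.mem_top
  rw [sSup_eq_iSup'] at htop
  have := Submodule.iSup_induction _ (motive := fun x => a * x = 0) htop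
    (fun S x hx => key S.1 S.2 x hx) (by simp) (fun x y hx hy => by rw [mul_add, hx, hy, add_zero])
  simpa using this


/-- the action of a class function on an irreducible representation is a scalar -/
theorem X_class_scalar {G : Type*} [Group G] [Fintype G] {U : Type*} [AddCommGroup U] [Module ℂ U]
    [FiniteDimensional ℂ U] (ρ : Representation ℂ G U) (h : ρ.IsIrreducible)
    (f : G → ℂ) (hf : ∀ g h, f (h * g * h⁻¹) = f g) :
    ∃ c : ℂ, ∑ g, f g • ρ g = c • LinearMap.id := by
  apply X_schur ρ h
  intro x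
  have h1 : (∑ g, f g • ρ g) ∘ₗ ρ x = ∑ g, f g • ρ (g * x) := by
    rw [← Module.End.mul_eq_comp, Finset.sum_mul]
    simp [map_mul]
  have h2 : ρ x ∘ₗ (∑ g, f g • ρ g) = ∑ g, f g • ρ (x * g) := by
    rw [← Module.End.mul_eq_comp, Finset.mul_sum]
    simp [map_mul]
  rw [h1, h2, ← Equiv.sum_comp (MulAut.conj x).toEquiv (fun g => f g • ρ (g * x))]
  apply Finset.sum_congr rfl
  intro g _
  simp [MulAut.conj_apply, hf]

/-- the central character formula: for a class function `f`,
`χ(1) ∑ f(h) χ(h g) = (∑ f(h) χ(h)) χ(g)` -/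
theorem X_class_mul {G : Type*} [Group G] [Fintype G] {χ : G → ℂ} (hχ : χ ∈ IrrChar G)
    (f : G → ℂ) (hf : ∀ g h, f (h * g * h⁻¹) = f g) (g : G) :
    χ 1 * ∑ h, f h * χ (h * g) = (∑ h, f h * χ h) * χ g := by
  obtain ⟨n, ρ, h, rfl⟩ := hχ
  obtain ⟨c, hc⟩ := X_class_scalar ρ h f hf
  have h1 : ∑ h, f h * ρ.character (h * g) = c * ρ.character g := by
    have : LinearMap.trace ℂ _ ((∑ x, f x • ρ x) ∘ₗ ρ g) = c * ρ.character g := by
      rw [hc, LinearMap.smul_comp, LinearMap.id_comp, map_smul]
      rfl
    rw [← this, ← Module.End.mul_eq_comp, Finset.sum_mul, map_sum]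
    apply Finset.sum_congr rfl
    intro x _
    rw [smul_mul_assoc, map_smul, ← map_mul]
    rfl
  have h2 : ∑ h, f h * ρ.character h = c * ρ.character 1 := by
    have : LinearMap.trace ℂ _ (∑ x, f x • ρ x) = c * ρ.character 1 := by
      rw [hc, map_smul, Representation.character, map_one]
      rfl
    rw [← this, map_sum]
    apply Finset.sum_congr rfl
    intro x _
    rw [map_smul]
    rfl
  rw [h1, h2]
  ring

/-- completeness: a class function orthogonal to all irreducible characters is zero -/
theorem X_complete {G : Type*} [Group G] [Fintype G] (f : G → ℂ)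
    (hf : ∀ g h, f (h * g * h⁻¹) = f g) (h0 : ∀ χ ∈ IrrChar G, ∑ g, f g * χ g = 0) : f = 0 := by
  classical
  by_contra hne
  let a : MonoidAlgebra ℂ G := ∑ g, MonoidAlgebra.single g (f g)
  have hcoeff : ∀ g, a.coeff g = f g := by
    intro g
    simp [a, MonoidAlgebra.coeff_sum, Finsupp.finsetSum_apply, MonoidAlgebra.coeff_single,
      Finsupp.single_apply]
  have ha : a ≠ 0 := by
    intro h
    apply hne
    ext g
    rw [← hcoeff, h]
    simp
  obtain ⟨n, ρ, hρ, hρ2⟩ := X_exists_irr a ha
  have hs : ρ.asAlgebraHom a = ∑ g, f g • ρ g := by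
    simp [a]
  obtain ⟨c, hc⟩ := X_class_scalar ρ hρ f hf
  have h1 := h0 _ ⟨n, ρ, hρ, rfl⟩
  have h2 : ∑ h, f h * ρ.character h = c * ρ.character 1 := by
    have : LinearMap.trace ℂ _ (∑ x, f x • ρ x) = c * ρ.character 1 := by
      rw [hc, map_smul, Representation.character, map_one]
      rfl
    rw [← this, map_sum]
    apply Finset.sum_congr rfl
    intro x _
    rw [map_smul]
    rfl
  rw [h2] at h1
  rcases mul_eq_zero.1 h1 with h3 | h3
  · apply hρ2
    rw [hs, hc, h3, zero_smul]
  · exact X_one_ne_zero ⟨n, ρ, hρ, rfl⟩ h3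

theorem irrChar_ncard (G : Type*) [Group G] [Finite G] :
    (IrrChar G).ncard = Nat.card (ConjClasses G) := by
  classical
  have := Fintype.ofFinite G
  have := (irrChar_finite G).fintype
  have : Fintype (ConjClasses G) := Fintype.ofFinite _
  rw [← Nat.card_coe_set_eq, Nat.card_eq_fintype_card, Nat.card_eq_fintype_card]
  apply le_antisymm
  · have := (X_cl_linearIndependent (G := G)).fintype_card_le_finrank
    simpa using this
  · let Φ : (ConjClasses G → ℂ) →ₗ[ℂ] (IrrChar G → ℂ) :=
      { toFun := fun f χ => ∑ g, f (ConjClasses.mk g) * (χ : G → ℂ) g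
        map_add' := fun f f' => by
          ext χ
          simp [add_mul, Finset.sum_add_distrib]
        map_smul' := fun c f => by
          ext χ
          simp [Finset.mul_sum, mul_assoc] }
    have hinj : Function.Injective Φ := by
      rw [injective_iff_map_eq_zero]
      intro f hf
      have h1 : (fun g => f (ConjClasses.mk g)) = 0 := by
        apply X_complete
        · intro g h
          congr 1
          exact ConjClasses.mk_eq_mk_iff_isConj.2 (isConj_iff.2 ⟨h⁻¹, by group⟩)
        · intro χ hχ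
          exact congrFun hf ⟨χ, hχ⟩
      ext C
      obtain ⟨g, rfl⟩ := ConjClasses.exists_rep C
      exact congrFun h1 g
    have := LinearMap.finrank_le_finrank_of_injective hinj
    simpa using this

open scoped ComplexOrder in
theorem irrChar_conj {G : Type*} [Group G] [Finite G] {χ : G → ℂ} (hχ : χ ∈ IrrChar G) (g : G) :
    χ g⁻¹ = starRingEnd ℂ (χ g) := by
  classical
  have := Fintype.ofFinite G
  obtain ⟨n, ρ, h, rfl⟩ := hχ
  let A : G → Matrix (Fin n) (Fin n) ℂ := fun g => LinearMap.toMatrix' (ρ g)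
  have hA1 : A 1 = 1 := by simp [A]
  have hAm : ∀ x y, A (x * y) = A x * A y := by
    intro x y
    simp only [A, map_mul, Module.End.mul_eq_comp, LinearMap.toMatrix'_comp]
  have htr : ∀ x, ρ.character x = (A x).trace := by
    intro x
    simp only [A, Representation.character]
    rw [LinearMap.trace_eq_matrix_trace ℂ (Pi.basisFun ℂ (Fin n))]
    rfl
  let P : Matrix (Fin n) (Fin n) ℂ := ∑ x, (A x).conjTranspose * A x
  have hP : P.PosDef := by
    have h1 : P = (A 1).conjTranspose * A 1 +
        ∑ x ∈ Finset.univ.erase 1, (A x).conjTranspose * A x :=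
      (Finset.add_sum_erase Finset.univ (fun x => (A x).conjTranspose * A x)
        (Finset.mem_univ (1 : G))).symm
    rw [h1, hA1]
    apply Matrix.PosDef.add_posSemidef
    · simpa using Matrix.PosDef.one
    · apply Matrix.posSemidef_sum
      intro x _
      exact Matrix.posSemidef_conjTranspose_mul_self (A x)
  have hPu : IsUnit P := hP.isUnit
  have hinv : (A g).conjTranspose * P * A g = P := by
    simp only [P, Finset.mul_sum, Finset.sum_mul]
    rw [← Equiv.sum_comp (Equiv.mulRight g) (fun x => (A x).conjTranspose * A x)]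
    apply Finset.sum_congr rfl
    intro x _
    simp [hAm, Matrix.conjTranspose_mul, Matrix.mul_assoc]
  have hgg : A g * A g⁻¹ = 1 := by rw [← hAm]; simp [hA1]
  have h2 : (A g).conjTranspose * P = P * A g⁻¹ := by
    calc (A g).conjTranspose * P = (A g).conjTranspose * P * (A g * A g⁻¹) := by rw [hgg, mul_one]
      _ = ((A g).conjTranspose * P * A g) * A g⁻¹ := by simp [Matrix.mul_assoc]
      _ = P * A g⁻¹ := by rw [hinv]
  have h3 : A g⁻¹ = P⁻¹ * (A g).conjTranspose * P := by
    rw [Matrix.mul_assoc, h2, ← Matrix.mul_assoc, Matrix.nonsing_inv_mul _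
      ((Matrix.isUnit_iff_isUnit_det _).1 hPu), one_mul]
  rw [htr, htr, h3, Matrix.mul_assoc, Matrix.trace_mul_comm, Matrix.mul_assoc,
    Matrix.mul_nonsing_inv _ ((Matrix.isUnit_iff_isUnit_det _).1 hPu), mul_one,
    Matrix.trace_conjTranspose]
  rfl

end Fin

end Pool.Agent.FH
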