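import Mathlib
import Pool.Agent.Lib.MP_86abfd_al.AutBound

/-!
# MP_86abfd_al, piece P: primitive solvable permutation groups
-/

namespace Pool.Agent.FH

open MulAction

/-- A faithful primitive solvable group has a regular abelian normal subgroup. -/
theorem P_exists_regular {G : Type*} [Group G] [Group.IsSolvable G] {Ω : Type*} [Nontrivial Ω]
    [MulAction G Ω] [FaithfulSMul G Ω] [IsPreprimitive G Ω] :
    ∃ A : Subgroup G, A.Normal ∧ (∀ ω ω' : Ω, ∃ a ∈ A, a • ω = ω') ∧
      (∀ a ∈ A, ∀ ω : Ω, a • ω = ω → a = 1) := by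
  classical
  have hG : (⊤ : Subgroup G) ≠ ⊥ := by
    intro h
    obtain ⟨x, y, hxy⟩ := exists_pair_ne Ω
    obtain ⟨g, hg⟩ := exists_smul_eq G x y
    have : g ∈ (⊥ : Subgroup G) := h ▸ Subgroup.mem_top g
    rw [Subgroup.mem_bot] at this
    rw [this, one_smul] at hg
    exact hxy hg
  have hex : ∃ n, derivedSeries G n = ⊥ := Group.IsSolvable.solvable
  obtain ⟨m, hm⟩ : ∃ m, Nat.find hex = m + 1 := by
    refine Nat.exists_eq_succ_of_ne_zero fun h => hG ?_
    have := Nat.find_spec hex
    rw [h] at this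
    exact this
  have h1 : derivedSeries G (m + 1) = ⊥ := hm ▸ Nat.find_spec hex
  have h2 : derivedSeries G m ≠ ⊥ := Nat.find_min hex (by omega)
  have hnorm : (derivedSeries G m).Normal := derivedSeries_normal G m
  have hcomm : ∀ a ∈ derivedSeries G m, ∀ b ∈ derivedSeries G m, a * b = b * a := by
    intro a ha b hb
    rw [derivedSeries_succ] at h1
    have := Subgroup.commutator_mem_commutator ha hb
    rw [h1, Subgroup.mem_bot] at this
    exact commutatorElement_eq_one_iff_mul_comm.1 this
  have htrans : IsPretransitive (derivedSeries G m) Ω := by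
    refine IsQuasiPreprimitive.isPretransitive_of_normal (G := G) fun h => h2 ?_
    rw [eq_bot_iff]
    intro a ha
    rw [Subgroup.mem_bot]
    refine eq_of_smul_eq_smul (α := Ω) fun ω => ?_
    have hω : ω ∈ fixedPoints (derivedSeries G m) Ω := h ▸ Set.mem_univ ω
    rw [one_smul]
    exact hω ⟨a, ha⟩
  refine ⟨derivedSeries G m, hnorm, fun ω ω' => ?_, fun a ha ω hω => ?_⟩
  · obtain ⟨a, ha⟩ := htrans.exists_smul_eq ω ω'
    exact ⟨a, a.2, ha⟩
  · refine eq_of_smul_eq_smul (α := Ω) fun ω' => ?_
    obtain ⟨b, hb⟩ := htrans.exists_smul_eq ω ω'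
    rw [one_smul, ← hb, Subgroup.smul_def, smul_smul, hcomm a ha b b.2, ← smul_smul, hω]

theorem P_fixed {G : Type*} [Group G] [Group.IsSolvable G] {Ω : Type*} [Finite Ω] [Nontrivial Ω]
    [MulAction G Ω] [FaithfulSMul G Ω] [IsPreprimitive G Ω] (g : G) (hg : g ≠ 1) :
    2 * Nat.card (fixedBy Ω g) ≤ Nat.card Ω := by
  classical
  obtain ⟨A, hA, htr, hfree⟩ := P_exists_regular (G := G) (Ω := Ω)
  by_cases hne : (fixedBy Ω g).Nonempty
  swap
  · rw [Set.not_nonempty_iff_eq_empty] at hne
    rw [hne]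
    simp
  obtain ⟨ω, hω⟩ := hne
  rw [mem_fixedBy] at hω
  -- the map `a ↦ a • ω`
  have hbij : Function.Bijective (fun a : A => (a : G) • ω) := by
    constructor
    · intro a b hab
      have h1 : ((b : G)⁻¹ * a) • ω = ω := by
        rw [← smul_smul]
        simp only at hab
        rw [hab, inv_smul_smul]
      have h2 := hfree _ (A.mul_mem (A.inv_mem b.2) a.2) ω h1
      exact Subtype.ext (inv_mul_eq_one.1 h2).symm
    · intro ω'
      obtain ⟨a, ha, h⟩ := htr ω ω'
      exact ⟨⟨a, ha⟩, h⟩
  have hcard : Nat.card A = Nat.card Ω := Nat.card_congr (Equiv.ofBijective _ hbij)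
  have : Finite A := Finite.of_injective _ hbij.1
  -- the centralizer of `g` in `A`
  let C : Subgroup A := (Subgroup.centralizer {g}).subgroupOf A
  have hC : ∀ a : A, a ∈ C ↔ (a : G) * g = g * a := by
    intro a
    rw [Subgroup.mem_subgroupOf, Subgroup.mem_centralizer_singleton_iff]
    try exact eq_comm
  have hfix : ∀ a : A, (a : G) • ω ∈ fixedBy Ω g ↔ a ∈ C := by
    intro a
    rw [mem_fixedBy, hC]
    constructor
    · intro h
      have h3 : ((a : G)⁻¹ * (g * a * g⁻¹)) • ω = ω := by
        have h4 : g⁻¹ • ω = ω := by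
          rw [inv_smul_eq_iff, hω]
        rw [← smul_smul, ← smul_smul, ← smul_smul, h4, h, inv_smul_smul]
      have h5 : (a : G)⁻¹ * (g * a * g⁻¹) ∈ A := A.mul_mem (A.inv_mem a.2) (hA.conj_mem a a.2 g)
      have h6 := hfree _ h5 ω h3
      rw [inv_mul_eq_one] at h6
      rw [eq_mul_inv_iff_mul_eq] at h6
      exact h6
    · intro h
      rw [smul_smul, ← h, ← smul_smul, hω]
  have hcardfix : Nat.card (fixedBy Ω g) = Nat.card C := by
    refine (Nat.card_congr (Equiv.ofBijective (fun a : C => (⟨((a : A) : G) • ω,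
      (hfix a).2 a.2⟩ : fixedBy Ω g)) ⟨?_, ?_⟩)).symm
    · intro a b hab
      have h := congrArg Subtype.val hab
      exact Subtype.ext (hbij.1 h)
    · rintro ⟨ω', hω'⟩
      obtain ⟨a, ha⟩ := hbij.2 ω'
      simp only at ha
      refine ⟨⟨a, (hfix a).1 (ha ▸ hω')⟩, Subtype.ext ha⟩
  have hCne : C ≠ ⊤ := by
    intro h
    refine hg (eq_of_smul_eq_smul (α := Ω) fun ω' => ?_)
    obtain ⟨a, ha⟩ := hbij.2 ω'
    simp only at ha
    have := (hfix a).2 (h ▸ Subgroup.mem_top a)
    rw [mem_fixedBy, ha] at this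
    rw [this, one_smul]
  rw [hcardfix, ← hcard]
  have h2 : 2 ≤ C.index := by
    have h0 : C.index ≠ 0 := Subgroup.index_ne_zero_of_finite
    have h1 : C.index ≠ 1 := fun h => hCne (Subgroup.index_eq_one.1 h)
    omega
  calc 2 * Nat.card C ≤ C.index * Nat.card C := Nat.mul_le_mul_right _ h2
    _ = Nat.card A := by rw [mul_comm]; exact C.card_mul_index

theorem P_card {G : Type*} [Group G] [Group.IsSolvable G] {Ω : Type*} [Finite Ω] [Nontrivial Ω]
    [MulAction G Ω] [FaithfulSMul G Ω] [IsPreprimitive G Ω] :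
    Nat.card G ≤ Nat.card Ω * Nat.card Ω ^ Nat.log 2 (Nat.card Ω) := by
  classical
  obtain ⟨A, hA, htr, hfree⟩ := P_exists_regular (G := G) (Ω := Ω)
  obtain ⟨ω⟩ : Nonempty Ω := inferInstance
  have hbij : Function.Bijective (fun a : A => (a : G) • ω) := by
    constructor
    · intro a b hab
      have h1 : ((b : G)⁻¹ * a) • ω = ω := by
        rw [← smul_smul]
        simp only at hab
        rw [hab, inv_smul_smul]
      have h2 := hfree _ (A.mul_mem (A.inv_mem b.2) a.2) ω h1
      exact Subtype.ext (inv_mul_eq_one.1 h2).symm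
    · intro ω'
      obtain ⟨a, ha, h⟩ := htr ω ω'
      exact ⟨⟨a, ha⟩, h⟩
  have hcard : Nat.card A = Nat.card Ω := Nat.card_congr (Equiv.ofBijective _ hbij)
  have : Finite A := Finite.of_injective _ hbij.1
  have : Finite (Equiv.Perm Ω) := inferInstance
  have : Finite G := Finite.of_injective (MulAction.toPermHom G Ω) MulAction.toPerm_injective
  have hst : Nat.card (stabilizer G ω) ≤ Nat.card (MulAut A) := by
    refine Nat.card_le_card_of_injective
      (fun g : stabilizer G ω => (MulAut.conjNormal (H := A) (g : G))) ?_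
    intro g h hgh
    simp only at hgh
    refine Subtype.ext (eq_of_smul_eq_smul (α := Ω) fun ω' => ?_)
    obtain ⟨a, ha⟩ := hbij.2 ω'
    simp only at ha
    have key : ∀ x : stabilizer G ω, (x : G) • ω' = (MulAut.conjNormal (x : G) a : G) • ω := by
      intro x
      have hx : (x : G) • ω = ω := x.2
      have hx' : (x : G)⁻¹ • ω = ω := by rw [inv_smul_eq_iff, hx]
      rw [MulAut.conjNormal_apply, ← ha, ← smul_smul, ← smul_smul, hx']
    rw [key g, key h, hgh]
  have horb : Nat.card G = Nat.card Ω * Nat.card (stabilizer G ω) := by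
    rw [← (stabilizer G ω).card_mul_index, index_stabilizer_of_transitive, mul_comm]
  rw [horb]
  refine Nat.mul_le_mul_left _ (hst.trans ?_)
  rw [← hcard]
  exact card_mulAut_le A

section Range

variable {G : Type*} [Group G] {Ω : Type*} [MulAction G Ω]

theorem P_range_smul (s : (toPermHom G Ω).range) (ω : Ω) : s • ω = (s : Equiv.Perm Ω) ω := rfl

instance P_faithful : FaithfulSMul (toPermHom G Ω).range Ω where
  eq_of_smul_eq_smul {s t} h := by
    refine Subtype.ext (Equiv.ext fun ω => ?_)
    exact h ω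

theorem P_range_prim [IsPreprimitive G Ω] : IsPreprimitive (toPermHom G Ω).range Ω := by
  let f : Ω →ₑ[((toPermHom G Ω).rangeRestrict : G → (toPermHom G Ω).range)] Ω :=
    { toFun := id
      map_smul' := fun g ω => rfl }
  exact IsPreprimitive.of_surjective (f := f) Function.surjective_id

end Range

theorem prim_fixed {G : Type*} [Group G] [Group.IsSolvable G] {Ω : Type*} [Finite Ω] [Nontrivial Ω]
    [MulAction G Ω] [MulAction.IsPreprimitive G Ω] (g : G) (hg : ∃ ω : Ω, g • ω ≠ ω) :
    2 * Nat.card (MulAction.fixedBy Ω g) ≤ Nat.card Ω := by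
  have := P_range_prim (G := G) (Ω := Ω)
  have : Group.IsSolvable (toPermHom G Ω).range :=
    Group.isSolvable_of_surjective (toPermHom G Ω).rangeRestrict_surjective
  obtain ⟨ω, hω⟩ := hg
  have hne : (toPermHom G Ω).rangeRestrict g ≠ 1 := by
    intro h
    apply hω
    have h1 : ((toPermHom G Ω).rangeRestrict g) • ω = ω := by rw [h, one_smul]
    exact h1
  exact P_fixed ((toPermHom G Ω).rangeRestrict g) hne

theorem prim_card {G : Type*} [Group G] [Group.IsSolvable G] {Ω : Type*} [Finite Ω] [Nontrivial Ω]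
    [MulAction G Ω] [MulAction.IsPreprimitive G Ω] :
    Nat.card (MulAction.toPermHom G Ω).range ≤
      Nat.card Ω * Nat.card Ω ^ Nat.log 2 (Nat.card Ω) := by
  have := P_range_prim (G := G) (Ω := Ω)
  have : Group.IsSolvable (toPermHom G Ω).range :=
    Group.isSolvable_of_surjective (toPermHom G Ω).rangeRestrict_surjective
  exact P_card

end Pool.Agent.FH
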