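import Pool.Agent.Lib.MP_86abfd_al.ColorPre
import Pool.Agent.Lib.MP_86abfd_al.PrimPerm

/-!
# MP_86abfd_al, piece C: colourings of primitive solvable permutation groups
-/

namespace Pool.Agent.FH


theorem many_colorings_many_colors : ∃ k₀ : ℕ, ∀ k, k₀ ≤ k →
    ∀ (G : Type) [Group G] [Group.IsSolvable G] (Ω : Type) [Finite Ω] [Nontrivial Ω]
      [MulAction G Ω] [MulAction.IsPreprimitive G Ω], ManyColorings G Ω k k := by
  obtain ⟨n₀, hn₀⟩ := C_num 2
  refine ⟨2 * n₀.factorial, fun k hk G _ _ Ω _ _ _ _ => ?_⟩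
  have h3 : 1 ≤ n₀.factorial := Nat.factorial_pos _
  rcases le_or_gt (Nat.card Ω) n₀ with h | h
  · exact C_small h hk
  · refine C_large (n₀ := 2) (by omega) (fun g hg => prim_fixed g hg) prim_card
      (hn₀ _ h.le) le_rfl ?_
    intro t ht
    calc 2 * k * 2 ^ t ≤ 2 * k * k ^ t := by
          refine Nat.mul_le_mul_left _ (Nat.pow_le_pow_left (by omega) _)
      _ = 2 * k ^ (t + 1) := by ring
      _ ≤ 2 * k ^ Nat.card Ω := by
          refine Nat.mul_le_mul_left _ (Nat.pow_le_pow_right (by omega) ht)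

theorem many_colorings_two_colors (k : ℕ) : ∃ n₁ : ℕ,
    ∀ (G : Type) [Group G] [Group.IsSolvable G] (Ω : Type) [Finite Ω] [Nontrivial Ω]
      [MulAction G Ω] [MulAction.IsPreprimitive G Ω], n₁ ≤ Nat.card Ω → ManyColorings G Ω k 2 := by
  obtain ⟨n₀, hn₀⟩ := C_num (2 * (k + 1))
  refine ⟨n₀, fun G _ _ Ω _ _ _ _ h => ?_⟩
  refine C_large (n₀ := 2 * (k + 1)) le_rfl (fun g hg => prim_fixed g hg) prim_card
      (hn₀ _ h) (by omega) ?_
  intro t ht
  calc 2 * k * 2 ^ t ≤ 2 * (k + 1) * 2 ^ t := by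
        refine Nat.mul_le_mul_right _ (by omega)
    _ ≤ 2 * (k + 1) * 2 ^ Nat.card Ω :=
        Nat.mul_le_mul_left _ (Nat.pow_le_pow_right (by omega) ht.le)

end Pool.Agent.FH
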