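import Pool.Agent.Lib.MP_86abfd_al.Defs

/-!
# MP_86abfd_al, piece C: colourings with trivial stabilizer, by counting
-/

namespace Pool.Agent.FH

section C

variable {Ω : Type*} [Finite Ω]

set_option linter.unusedSectionVars false

/-- greedy choice of inequivalent colourings with trivial stabilizer -/
theorem C_greedy (S : Subgroup (Equiv.Perm Ω)) (q m k : ℕ)
    (hfix : ∀ s ∈ S, s ≠ 1 → {f : Ω → Fin q | f ∘ s = f}.ncard ≤ m)
    (hcount : Nat.card S * m + k * Nat.card S ≤ q ^ Nat.card Ω) :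
    ∃ F : Fin k → Ω → Fin q, (∀ i, ∀ s ∈ S, F i ∘ s = F i → s = 1) ∧
      ∀ i j, (∃ s ∈ S, F i ∘ s = F j) → i = j := by
  classical
  have := Fintype.ofFinite Ω
  have := Fintype.ofFinite S
  have hS : 1 ≤ Nat.card S := Nat.card_pos
  induction k with
  | zero => exact ⟨Fin.elim0, fun i => i.elim0, fun i => i.elim0⟩
  | succ k ih =>
    obtain ⟨F, hF1, hF2⟩ := ih (by
      refine le_trans ?_ hcount
      gcongr
      omega)
    have hB1 : ((Finset.univ : Finset S).biUnion
        (fun s => if (s : Equiv.Perm Ω) = 1 then (∅ : Finset (Ω → Fin q)) else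
          Finset.univ.filter (fun f => f ∘ (s : Equiv.Perm Ω) = f))).card
        ≤ Nat.card S * m := by
      rw [Nat.card_eq_fintype_card]
      refine Finset.card_biUnion_le_card_mul _ _ _ ?_
      intro s _
      by_cases h : (s : Equiv.Perm Ω) = 1
      · simp [h]
      · rw [if_neg h]
        have h2 := hfix s s.2 h
        rw [Set.ncard_eq_toFinset_card'] at h2
        refine le_trans (le_of_eq ?_) h2
        congr 1
        ext f
        simp
    have hB2 : ((Finset.univ : Finset (Fin k × S)).image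
        (fun p => F p.1 ∘ (p.2 : Equiv.Perm Ω))).card ≤ k * Nat.card S := by
      refine le_trans Finset.card_image_le ?_
      simp
    have hlt : (((Finset.univ : Finset S).biUnion
        (fun s => if (s : Equiv.Perm Ω) = 1 then (∅ : Finset (Ω → Fin q)) else
          Finset.univ.filter (fun f => f ∘ (s : Equiv.Perm Ω) = f))) ∪
        ((Finset.univ : Finset (Fin k × S)).image
        (fun p => F p.1 ∘ (p.2 : Equiv.Perm Ω)))).card
        < (Finset.univ : Finset (Ω → Fin q)).card := by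
      have h1 : (Finset.univ : Finset (Ω → Fin q)).card = q ^ Nat.card Ω := by
        simp
      rw [h1]
      refine lt_of_le_of_lt (Finset.card_union_le _ _) ?_
      calc _ ≤ Nat.card S * m + k * Nat.card S := Nat.add_le_add hB1 hB2
        _ < Nat.card S * m + (k + 1) * Nat.card S := by nlinarith
        _ ≤ _ := hcount
    obtain ⟨f, -, hf⟩ := Finset.exists_mem_notMem_of_card_lt_card hlt
    rw [Finset.mem_union, not_or] at hf
    obtain ⟨hf1, hf2⟩ := hf
    have hg1 : ∀ s ∈ S, f ∘ s = f → s = 1 := by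
      intro s hs hfs
      by_contra hne
      apply hf1
      rw [Finset.mem_biUnion]
      refine ⟨⟨s, hs⟩, Finset.mem_univ _, ?_⟩
      rw [if_neg hne]
      simpa using hfs
    have hg2 : ∀ i, ∀ s ∈ S, F i ∘ s ≠ f := by
      intro i s hs h
      apply hf2
      rw [Finset.mem_image]
      exact ⟨(i, ⟨s, hs⟩), Finset.mem_univ _, h⟩
    have hg3 : ∀ i, ∀ s ∈ S, f ∘ s ≠ F i := by
      intro i s hs h
      refine hg2 i s⁻¹ (S.inv_mem hs) ?_
      rw [← h]
      funext x
      simp
    refine ⟨Fin.cons f F, ?_, ?_⟩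
    · intro i
      refine Fin.cases ?_ ?_ i
      · simpa using hg1
      · intro j
        simpa using hF1 j
    · intro i j
      refine Fin.cases ?_ ?_ i
      · refine Fin.cases ?_ ?_ j
        · intro _; rfl
        · rintro j' ⟨s, hs, h⟩
          exact absurd (by simpa using h) (hg3 j' s hs)
      · intro i'
        refine Fin.cases ?_ ?_ j
        · rintro ⟨s, hs, h⟩
          exact absurd (by simpa using h) (hg2 i' s hs)
        · rintro j' ⟨s, hs, h⟩
          rw [hF2 i' j' ⟨s, hs, by simpa using h⟩]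

/-- a set `T` of at least a third of the moved points with `T`, `sT` disjoint -/
theorem C_exists_T [Fintype Ω] [DecidableEq Ω] (s : Equiv.Perm Ω) :
    ∃ T : Finset Ω, (∀ t ∈ T, s t ∉ T) ∧
      Fintype.card Ω ≤ (Finset.univ.filter (fun ω => s ω = ω)).card + 3 * T.card := by
  obtain ⟨T, hT, hmax⟩ := Finset.exists_max_image
    ((Finset.univ : Finset (Finset Ω)).filter (fun T => ∀ t ∈ T, s t ∉ T)) Finset.card
    ⟨∅, by simp⟩
  rw [Finset.mem_filter] at hT
  refine ⟨T, hT.2, ?_⟩
  have hsub : (Finset.univ : Finset Ω) ⊆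
      (Finset.univ.filter (fun ω => s ω = ω)) ∪ (T ∪ (T.image s ∪ T.image s.symm)) := by
    intro ω _
    by_contra hω
    simp only [Finset.mem_union, not_or, Finset.mem_filter, Finset.mem_univ, true_and,
      Finset.mem_image, not_exists, not_and] at hω
    obtain ⟨h1, h2, h3, h4⟩ := hω
    have h5 := hmax (insert ω T) (by
      rw [Finset.mem_filter]
      refine ⟨Finset.mem_univ _, ?_⟩
      intro t ht hst
      rw [Finset.mem_insert] at ht hst
      rcases ht with rfl | ht
      · rcases hst with h | h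
        · exact h1 h
        · exact h4 _ h (by simp)
      · rcases hst with h | h
        · exact h3 t ht h
        · exact hT.2 t ht h)
    rw [Finset.card_insert_of_notMem h2] at h5
    omega
  have h6 := Finset.card_le_card hsub
  rw [Finset.card_univ] at h6
  have h7 := Finset.card_union_le (Finset.univ.filter (fun ω => s ω = ω))
    (T ∪ (T.image s ∪ T.image s.symm))
  have h8 := Finset.card_union_le T (T.image s ∪ T.image s.symm)
  have h9 := Finset.card_union_le (T.image s) (T.image s.symm)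
  have h10 : (T.image s).card ≤ T.card := Finset.card_image_le
  have h11 : (T.image s.symm).card ≤ T.card := Finset.card_image_le
  omega

theorem C_card_fixed [Fintype Ω] (s : Equiv.Perm Ω) (q : ℕ) (T : Finset Ω)
    (hT : ∀ t ∈ T, s t ∉ T) :
    {f : Ω → Fin q | f ∘ s = f}.ncard ≤ q ^ (Fintype.card Ω - T.card) := by
  classical
  have h1 : Nat.card ({ω : Ω // ω ∉ T} → Fin q) = q ^ (Fintype.card Ω - T.card) := by
    rw [Nat.card_eq_fintype_card, Fintype.card_fun, Fintype.card_fin]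
    congr 1
    rw [Fintype.card_subtype_compl]
    simp
  rw [← h1, ← Set.ncard_univ]
  refine Set.ncard_le_ncard_of_injOn (fun f => fun ω : {ω : Ω // ω ∉ T} => f ω)
    (fun _ _ => Set.mem_univ _) ?_
  intro f hf g hg hfg
  funext ω
  by_cases hω : ω ∈ T
  · have h2 : f (s ω) = g (s ω) := congrFun hfg ⟨s ω, hT ω hω⟩
    have h3 : f (s ω) = f ω := congrFun hf ω
    have h4 : g (s ω) = g ω := congrFun hg ω
    rw [← h3, ← h4, h2]
  · exact congrFun hfg ⟨ω, hω⟩

theorem C_fixed_le (s : Equiv.Perm Ω) (q t : ℕ) (hq : 1 ≤ q)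
    (ht : Nat.card {ω : Ω // s ω = ω} + 3 * t < Nat.card Ω + 3) :
    {f : Ω → Fin q | f ∘ s = f}.ncard ≤ q ^ (Nat.card Ω - t) := by
  classical
  have := Fintype.ofFinite Ω
  obtain ⟨T, hT, hc⟩ := C_exists_T s
  refine le_trans (C_card_fixed s q T hT) ?_
  rw [Nat.card_eq_fintype_card (α := Ω)]
  refine Nat.pow_le_pow_right hq ?_
  rw [Nat.card_eq_fintype_card, Nat.card_eq_fintype_card, Fintype.card_subtype] at ht
  omega

/-- the numerical estimate -/
theorem C_num (K : ℕ) : ∃ n₀ : ℕ, ∀ n, n₀ ≤ n → ∀ t, n ≤ 6 * t →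
    K * (n * n ^ Nat.log 2 n) ≤ 2 ^ t := by
  have h1 : ∃ L₀ : ℕ, ∀ L, L₀ ≤ L → 6 * (K + (L + 1) ^ 2) ≤ 2 ^ L := by
    have h2 := tendsto_pow_const_div_const_pow_of_one_lt 2 (r := (2 : ℝ)) (by norm_num)
    have h3 : ∀ᶠ n : ℕ in Filter.atTop, ((n : ℝ) ^ 2 / 2 ^ n) < 1 / (6 * (K + 4)) :=
      h2.eventually (gt_mem_nhds (by positivity))
    rw [Filter.eventually_atTop] at h3
    obtain ⟨L₀, h4⟩ := h3
    refine ⟨max L₀ 1, fun L hL => ?_⟩
    have h5 := h4 L (le_trans (le_max_left _ _) hL)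
    have hL1 : 1 ≤ L := le_trans (le_max_right _ _) hL
    rw [div_lt_div_iff₀ (by positivity) (by positivity)] at h5
    have h6 : (L ^ 2 * (6 * (K + 4)) : ℕ) < 2 ^ L := by
      have : ((L ^ 2 * (6 * (K + 4)) : ℕ) : ℝ) < ((2 ^ L : ℕ) : ℝ) := by
        push_cast
        linarith
      exact_mod_cast this
    have h7 : K ≤ K * L ^ 2 := Nat.le_mul_of_pos_right _ (by positivity)
    nlinarith
  obtain ⟨L₀, hL₀⟩ := h1
  refine ⟨2 ^ L₀ + 1, fun n hn t ht => ?_⟩
  have hn0 : n ≠ 0 := by
    have := Nat.one_le_two_pow (n := L₀)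
    omega
  have hlog : L₀ ≤ Nat.log 2 n := Nat.le_log_of_pow_le (by norm_num) (by omega)
  have h1 := hL₀ _ hlog
  have h2 : 2 ^ Nat.log 2 n ≤ n := Nat.pow_log_le_self 2 hn0
  have h3 : n ≤ 2 ^ (Nat.log 2 n + 1) := (Nat.lt_pow_succ_log_self (by norm_num) n).le
  set L := Nat.log 2 n with hL
  calc K * (n * n ^ L) = K * n ^ (L + 1) := by rw [pow_succ, mul_comm n]
    _ ≤ 2 ^ K * (2 ^ (L + 1)) ^ (L + 1) := by
        refine Nat.mul_le_mul (Nat.lt_two_pow_self).le (Nat.pow_le_pow_left h3 _)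
    _ = 2 ^ (K + (L + 1) ^ 2) := by
        rw [← pow_mul, ← pow_add, sq]
    _ ≤ 2 ^ t := Nat.pow_le_pow_right (by norm_num) (by omega)

theorem C_count {q n t k A : ℕ} (ht : t ≤ n) (h1 : 2 * A ≤ q ^ t)
    (h2 : 2 * (k * A) ≤ q ^ n) : A * q ^ (n - t) + k * A ≤ q ^ n := by
  have h3 : q ^ n = q ^ t * q ^ (n - t) := by
    rw [← pow_add]
    congr 1
    omega
  have h4 : 2 * (A * q ^ (n - t)) ≤ q ^ n := by
    rw [h3, ← mul_assoc]
    exact Nat.mul_le_mul_right _ h1
  omega

/-- from the image in the permutation group -/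
theorem C_manyColorings {G : Type*} [Group G] [MulAction G Ω] {k q t : ℕ}
    (hfix : ∀ g : G, (∃ ω : Ω, g • ω ≠ ω) →
      Nat.card (MulAction.fixedBy Ω g) + 3 * t < Nat.card Ω + 3) (hq : 2 ≤ q)
    (ht : t ≤ Nat.card Ω)
    (h1 : 2 * Nat.card (MulAction.toPermHom G Ω).range ≤ q ^ t)
    (h2 : 2 * (k * Nat.card (MulAction.toPermHom G Ω).range) ≤ q ^ Nat.card Ω) :
    ManyColorings G Ω k q := by
  obtain ⟨F, hF1, hF2⟩ := C_greedy (MulAction.toPermHom G Ω).range q (q ^ (Nat.card Ω - t)) k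
    (by
      rintro s ⟨g, rfl⟩ hs
      refine C_fixed_le _ _ _ (by omega) ?_
      have h3 : ∃ ω : Ω, g • ω ≠ ω := by
        by_contra hcon
        push Not at hcon
        exact hs (Equiv.ext hcon)
      have h4 := hfix g h3
      exact h4)
    (C_count ht h1 h2)
  refine ⟨F, ?_, ?_⟩
  · intro i g hg ω
    have h5 := hF1 i (MulAction.toPermHom G Ω g) ⟨g, rfl⟩ (funext hg)
    exact congrFun (congrArg DFunLike.coe h5) ω
  · rintro i j ⟨g, hg⟩
    exact hF2 i j ⟨MulAction.toPermHom G Ω g, ⟨g, rfl⟩, funext hg⟩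

/-- the case of a fixed number of points and many colours -/
theorem C_small {G : Type*} [Group G] [MulAction G Ω] [Nontrivial Ω] {k m : ℕ}
    (hm : Nat.card Ω ≤ m) (hk : 2 * m.factorial ≤ k) : ManyColorings G Ω k k := by
  have h0 : 1 < Nat.card Ω := Finite.one_lt_card
  have h1 : Nat.card (MulAction.toPermHom G Ω).range ≤ (Nat.card Ω).factorial := by
    refine le_trans (Subgroup.card_le_card_group _) (le_of_eq ?_)
    rw [Nat.card_perm]
  have h2 : (Nat.card Ω).factorial ≤ m.factorial := Nat.factorial_le hm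
  have h3 : 1 ≤ m.factorial := Nat.factorial_pos _
  refine C_manyColorings (t := 1) ?_ (by omega) h0.le ?_ ?_
  · rintro g ⟨ω, hω⟩
    have : Nat.card (MulAction.fixedBy Ω g) < Nat.card Ω := by
      have h4 : MulAction.fixedBy Ω g ≠ Set.univ := by
        intro h
        have h5 : ω ∈ MulAction.fixedBy Ω g := by rw [h]; trivial
        exact hω h5
      rw [Nat.card_coe_set_eq, ← Set.ncard_univ]
      exact Set.ncard_lt_ncard (Set.ssubset_univ_iff.2 h4)
    omega
  · rw [pow_one]; omega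
  · calc 2 * (k * Nat.card (MulAction.toPermHom G Ω).range)
        = k * (2 * Nat.card (MulAction.toPermHom G Ω).range) := by ring
      _ ≤ k * k := Nat.mul_le_mul_left _ (by omega)
      _ = k ^ 2 := by ring
      _ ≤ k ^ Nat.card Ω := Nat.pow_le_pow_right (by omega) h0

/-- both statements of the piece, from the two facts on primitive solvable groups -/
theorem C_large {G : Type*} [Group G] [MulAction G Ω] [Nontrivial Ω] {k q n₀ : ℕ}
    (hq : 2 ≤ q)
    (hfixed : ∀ g : G, (∃ ω : Ω, g • ω ≠ ω) →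
      2 * Nat.card (MulAction.fixedBy Ω g) ≤ Nat.card Ω)
    (hcard : Nat.card (MulAction.toPermHom G Ω).range ≤
      Nat.card Ω * Nat.card Ω ^ Nat.log 2 (Nat.card Ω))
    (h1 : ∀ t, Nat.card Ω ≤ 6 * t →
      n₀ * (Nat.card Ω * Nat.card Ω ^ Nat.log 2 (Nat.card Ω)) ≤ 2 ^ t)
    (hn₀ : 2 ≤ n₀) (hk : ∀ t < Nat.card Ω, 2 * k * 2 ^ t ≤ n₀ * q ^ Nat.card Ω) :
    ManyColorings G Ω k q := by
  have h0 : 1 < Nat.card Ω := Finite.one_lt_card
  set n := Nat.card Ω with hn
  set t := (n + 5) / 6 with ht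
  have ht1 : t < n := by omega
  have ht2 : n ≤ 6 * t := by omega
  have h2 := h1 t ht2
  set A := Nat.card (MulAction.toPermHom G Ω).range with hA
  have h3 : n₀ * A ≤ 2 ^ t := le_trans (Nat.mul_le_mul_left _ hcard) h2
  refine C_manyColorings (t := t) ?_ hq ht1.le ?_ ?_
  · intro g hg
    have := hfixed g hg
    omega
  · calc 2 * A ≤ n₀ * A := Nat.mul_le_mul_right _ hn₀
      _ ≤ 2 ^ t := h3
      _ ≤ q ^ t := Nat.pow_le_pow_left hq _
  · have h4 := hk t ht1
    have h5 : n₀ * (2 * (k * A)) ≤ n₀ * q ^ n := by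
      calc n₀ * (2 * (k * A)) = 2 * k * (n₀ * A) := by ring
        _ ≤ 2 * k * 2 ^ t := Nat.mul_le_mul_left _ h3
        _ ≤ _ := h4
    exact Nat.le_of_mul_le_mul_left h5 (by omega)

end C

end Pool.Agent.FH
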