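import Pool.Agent.Lib.MP_86abfd_al.Char

/-!
# MP_86abfd_al, piece Z: an irreducible character over a linear character of a normal subgroup
which vanishes at a given element.
-/

namespace Pool.Agent.FH

open Representation

/-- There is an irreducible representation with a nonzero eigenvector of `N` for the linear
character `l`. -/
theorem Z_exists_over (G : Type*) [Group G] [Fintype G] (N : Subgroup G) [Fintype N]
    (l : N →* ℂˣ) :
    ∃ (m : ℕ) (ρ : Representation ℂ G (Fin m → ℂ)) (u : Fin m → ℂ), ρ.IsIrreducible ∧ u ≠ 0 ∧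
      ∀ n : N, ρ n u = (l n : ℂ) • u := by
  classical
  let e : MonoidAlgebra ℂ G := ∑ n : N, MonoidAlgebra.single (n : G) ((l n⁻¹ : ℂˣ) : ℂ)
  have he : e ≠ 0 := by
    intro h
    have h1 : e.coeff 1 = 1 := by
      simp only [e, MonoidAlgebra.coeff_sum, Finsupp.finsetSum_apply, MonoidAlgebra.coeff_single,
        Finsupp.single_apply]
      rw [Finset.sum_eq_single (1 : N)]
      · simp
      · intro b _ hb
        rw [if_neg]
        intro hb'
        exact hb (Subtype.ext hb')
      · simp
    rw [h] at h1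
    simp at h1
  obtain ⟨m, ρ, hρ, hρ2⟩ := X_exists_irr e he
  have hs : ρ.asAlgebraHom e = ∑ n : N, ((l n⁻¹ : ℂˣ) : ℂ) • ρ n := by
    simp [e]
  rw [hs] at hρ2
  obtain ⟨v, hv⟩ : ∃ v, (∑ n : N, ((l n⁻¹ : ℂˣ) : ℂ) • ρ n) v ≠ 0 := by
    by_contra hcon
    push Not at hcon
    exact hρ2 (LinearMap.ext hcon)
  refine ⟨m, ρ, _, hρ, hv, fun n => ?_⟩
  simp only [LinearMap.sum_apply, LinearMap.smul_apply, map_sum, Finset.smul_sum, map_smul]
  rw [← Equiv.sum_comp (Equiv.mulLeft n)
    (fun n' : N => (l n : ℂ) • (((l n'⁻¹ : ℂˣ) : ℂ) • (ρ n') v))]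
  apply Finset.sum_congr rfl
  intro n' _
  rw [smul_smul, ← Module.End.mul_apply, ← map_mul]
  congr 1
  rw [← Units.val_mul, ← map_mul]
  simp

theorem exists_vanishing (G : Type*) [Group G] [Fintype G] (N : Subgroup G) [hN : N.Normal]
    [Fintype N] (l : N →* ℂˣ) (g : G)
    (hg : ∀ x : G, ∃ n : N,
      l (MulAut.conjNormal (x⁻¹ * g⁻¹) n) ≠ l (MulAut.conjNormal x⁻¹ n)) :
    ∃ χ ∈ IrrChar G, χ g = 0 ∧ ∑ n : N, χ n = 0 ∧
      ∀ N' : Subgroup G, N'.Normal → (∀ n (hn : n ∈ N), n ∈ N' → l ⟨n, hn⟩ = 1) → N' ≤ N →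
        ∀ n ∈ N', χ n = χ 1 := by
  classical
  obtain ⟨m, ρ, u, hρ, hu, hn⟩ := Z_exists_over G N l
  -- the weights
  have hw : ∀ (x : G) (n : N), ρ n (ρ x u) = ((l (MulAut.conjNormal x⁻¹ n) : ℂˣ) : ℂ) • ρ x u := by
    intro x n
    rw [← map_smul, ← hn, ← Module.End.mul_apply, ← Module.End.mul_apply, ← map_mul, ← map_mul]
    congr 2
    rw [MulAut.conjNormal_apply]
    group
  -- the span of the translates of `u` is everything
  have hinv : ∀ x : G, ∀ v ∈ Submodule.span ℂ (Set.range fun x : G => ρ x u),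
      ρ x v ∈ Submodule.span ℂ (Set.range fun x : G => ρ x u) := by
    intro x v hv
    induction hv using Submodule.span_induction with
    | mem v hv =>
      obtain ⟨y, rfl⟩ := hv
      apply Submodule.subset_span
      exact ⟨x * y, by simp⟩
    | zero => simp
    | add v w _ _ hv hw => rw [map_add]; exact Submodule.add_mem _ hv hw
    | smul c v _ hv => rw [map_smul]; exact Submodule.smul_mem _ _ hv
  have hspan : Submodule.span ℂ (Set.range fun x : G => ρ x u) = ⊤ := by
    rcases ((X_irr_iff ρ).1 hρ).2 _ hinv with h | h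
    · exfalso
      apply hu
      have : ρ 1 u ∈ Submodule.span ℂ (Set.range fun x : G => ρ x u) :=
        Submodule.subset_span ⟨1, rfl⟩
      rw [h, Submodule.mem_bot] at this
      simpa using this
    · exact h
  have hext : ∀ T S : (Fin m → ℂ) →ₗ[ℂ] (Fin m → ℂ), (∀ x, T (ρ x u) = S (ρ x u)) → T = S := by
    intro T S h
    apply LinearMap.ext_on hspan
    rintro _ ⟨x, rfl⟩
    exact h x
  -- the operator `P`
  let P : (Fin m → ℂ) →ₗ[ℂ] (Fin m → ℂ) := ∑ n : N, ρ (g⁻¹ * (n : G)⁻¹ * g * n)
  have hP : P = 0 := by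
    apply hext
    intro x
    let f : N →* ℂ := (Units.coeHom ℂ).comp
      ((l.comp (MulAut.conjNormal x⁻¹).toMonoidHom) *
        (l.comp (MulAut.conjNormal (x⁻¹ * g⁻¹)).toMonoidHom)⁻¹)
    have hf : f ≠ 1 := by
      intro h
      obtain ⟨n, hn⟩ := hg x
      apply hn
      have := DFunLike.congr_fun h n
      have h2 : l (MulAut.conjNormal x⁻¹ n) * (l (MulAut.conjNormal (x⁻¹ * g⁻¹) n))⁻¹ = 1 := by
        apply Units.ext
        simpa [f] using this
      rw [mul_inv_eq_one] at h2
      exact h2.symm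
    have hsum := sum_hom_units_eq_zero f hf
    have : P (ρ x u) = (∑ n : N, f n) • ρ x u := by
      simp only [P, LinearMap.sum_apply, Finset.sum_smul]
      apply Finset.sum_congr rfl
      intro n _
      rw [map_mul, Module.End.mul_apply, hw, map_smul]
      have h3 : g⁻¹ * (n : G)⁻¹ * g = ((MulAut.conjNormal g⁻¹ n⁻¹ : N) : G) := by
        rw [MulAut.conjNormal_apply]; simp
      rw [h3, hw, smul_smul]
      congr 1
      simp only [f, MonoidHom.comp_apply, MonoidHom.mul_apply, MonoidHom.inv_apply,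
        Units.coeHom_apply, Units.val_mul]
      congr 2
      rw [← MulAut.mul_apply, ← map_mul, map_inv, map_inv]
      rfl
    rw [this, hsum, zero_smul, LinearMap.zero_apply]
  refine ⟨ρ.character, ⟨m, ρ, hρ, rfl⟩, ?_, ?_, ?_⟩
  · have h1 : LinearMap.trace ℂ _ (ρ g ∘ₗ P) = (Fintype.card N : ℂ) * ρ.character g := by
      rw [← Module.End.mul_eq_comp, Finset.mul_sum, map_sum]
      rw [Finset.sum_congr rfl (g := fun _ => ρ.character g), Finset.sum_const, nsmul_eq_mul]
      · rfl
      · intro n _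
        rw [← map_mul]
        have : g * (g⁻¹ * (n : G)⁻¹ * g * n) = (n : G)⁻¹ * g * ((n : G)⁻¹)⁻¹ := by group
        rw [this]
        exact char_conj ρ g _
    rw [hP, LinearMap.comp_zero, map_zero] at h1
    rcases mul_eq_zero.1 h1.symm with h | h
    · exact absurd h (by exact_mod_cast Fintype.card_ne_zero)
    · exact h
  · have h1 : (∑ n : N, ρ n) = 0 := by
      apply hext
      intro x
      let f : N →* ℂ := (Units.coeHom ℂ).comp (l.comp (MulAut.conjNormal x⁻¹).toMonoidHom)
      have hf : f ≠ 1 := by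
        intro h
        obtain ⟨n, hn⟩ := hg x
        have hl : ∀ n, l n = 1 := by
          intro n
          have := DFunLike.congr_fun h (MulAut.conjNormal x n)
          apply Units.ext
          have h2 : MulAut.conjNormal x⁻¹ (MulAut.conjNormal x n) = n := by
            rw [← MulAut.mul_apply, ← map_mul]; simp
          simpa [f, h2] using this
        rw [hl, hl] at hn
        exact hn rfl
      have hsum := sum_hom_units_eq_zero f hf
      have : (∑ n : N, ρ n) (ρ x u) = (∑ n : N, f n) • ρ x u := by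
        simp only [LinearMap.sum_apply, Finset.sum_smul]
        apply Finset.sum_congr rfl
        intro n _
        exact hw x n
      rw [this, hsum, zero_smul, LinearMap.zero_apply]
    have h2 := congrArg (LinearMap.trace ℂ _) h1
    rw [map_sum, map_zero] at h2
    exact h2
  · intro N' hN' hl hle n hn'
    have h1 : ρ n = 1 := by
      apply hext
      intro x
      have h2 := hw x ⟨n, hle hn'⟩
      have h3 : l (MulAut.conjNormal x⁻¹ ⟨n, hle hn'⟩) = 1 := by
        apply hl
        exact hN'.conj_mem n hn' x⁻¹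
      rw [h3] at h2
      simpa using h2
    have h2 : ρ n = ρ 1 := by rw [h1, map_one]
    simp only [Representation.character]
    rw [h2]

end Pool.Agent.FH
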