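import Pool.Agent.Lib.MP_86abfd_al.Nil
import Pool.Agent.Lib.MP_86abfd_al.Char
import Pool.Agent.Lib.MP_86abfd_al.Vanish

/-!
# Piece W: an element with few zeros is not deep
-/

namespace Pool.Agent.FH

open scoped Pointwise commutatorElement

/-! ### chief series -/

theorem W_chief {G : Type*} [Group G] [Finite G] (M : Subgroup G) (hM : M.Normal) :
    ∃ (s : ℕ) (N : ℕ → Subgroup G), N 0 = M ∧ N s = ⊤ ∧ (∀ j, (N j).Normal) ∧
      ∀ j < s, N j < N (j + 1) ∧
        ∀ K : Subgroup G, K.Normal → N j ≤ K → K ≤ N (j + 1) → K = N j ∨ K = N (j + 1) := by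
  classical
  have wf : WellFounded (fun a b : Subgroup G => b < a) := wellFounded_gt
  revert hM
  refine wf.induction (C := fun M => M.Normal → ∃ (s : ℕ) (N : ℕ → Subgroup G), N 0 = M ∧
    N s = ⊤ ∧ (∀ j, (N j).Normal) ∧ ∀ j < s, N j < N (j + 1) ∧
      ∀ K : Subgroup G, K.Normal → N j ≤ K → K ≤ N (j + 1) → K = N j ∨ K = N (j + 1)) M ?_
  intro M ih hM
  by_cases htop : M = ⊤
  · exact ⟨0, fun _ => M, rfl, htop, fun _ => hM, fun j hj => absurd hj (Nat.not_lt_zero j)⟩
  · -- a minimal normal subgroup above M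
    obtain ⟨M', ⟨hM'n, hM'l⟩, hmin⟩ :=
      (wellFounded_lt (α := Subgroup G)).has_min {K : Subgroup G | K.Normal ∧ M < K}
        ⟨⊤, inferInstance, lt_top_iff_ne_top.2 htop⟩
    obtain ⟨s, N, h0, hs, hn, hc⟩ := ih M' hM'l hM'n
    refine ⟨s + 1, fun j => Nat.casesOn j M N, rfl, hs, ?_, ?_⟩
    · intro j
      cases j with
      | zero => exact hM
      | succ j => exact hn j
    · intro j hj
      cases j with
      | zero =>
        refine ⟨?_, ?_⟩
        · change M < N 0
          rw [h0]; exact hM'l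
        · intro K hK hMK hKM
          change K = M ∨ K = N 0
          change K ≤ N 0 at hKM
          rw [h0] at hKM ⊢
          rcases eq_or_lt_of_le hMK with h | h
          · exact Or.inl h.symm
          · rcases eq_or_lt_of_le hKM with h' | h'
            · exact Or.inr h'
            · exact absurd h' (hmin K ⟨hK, h⟩)
      | succ j => exact hc j (by omega)

/-! ### a chief factor of a solvable group is abelian -/

theorem W_comm_le {G : Type*} [Group G] [Group.IsSolvable G] {M N : Subgroup G}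
    [hM : M.Normal] [hN : N.Normal] (hlt : M < N)
    (hch : ∀ K : Subgroup G, K.Normal → M ≤ K → K ≤ N → K = M ∨ K = N) : ⁅N, N⁆ ≤ M := by
  have hK : (M ⊔ ⁅N, N⁆).Normal := inferInstance
  have hle : M ⊔ ⁅N, N⁆ ≤ N := sup_le hlt.le (Subgroup.commutator_le_left N N)
  rcases hch _ hK le_sup_left hle with h | h
  · exact (le_sup_right.trans h.le)
  · exfalso
    have hne : N.map (QuotientGroup.mk' M) ≠ ⊥ := by
      intro hb
      rw [Subgroup.map_eq_bot_iff, QuotientGroup.ker_mk'] at hb
      exact absurd hlt (not_lt_of_ge hb)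
    have hs : Group.IsSolvable (G ⧸ M) := inferInstance
    have h1 := Group.IsSolvable.commutator_lt_of_ne_bot hne
    rw [← Subgroup.map_commutator] at h1
    have h2 : N.map (QuotientGroup.mk' M) = ⁅N, N⁆.map (QuotientGroup.mk' M) := by
      conv_lhs => rw [← h]
      rw [Subgroup.map_sup]
      have h3 : M.map (QuotientGroup.mk' M) = ⊥ := by
        rw [Subgroup.map_eq_bot_iff, QuotientGroup.ker_mk']
      rw [h3, bot_sup_eq]
    exact absurd h2 h1.ne'

/-! ### the dual of a chief factor -/

section Dual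

variable {G : Type} [Group G]

/-- the characters of `N` that are trivial on `M` -/
def Xd (N M : Subgroup G) : Subgroup (N →* ℂˣ) where
  carrier := {l | ∀ n : N, (n : G) ∈ M → l n = 1}
  one_mem' := fun _ _ => rfl
  mul_mem' := fun {a b} ha hb n hn => by
    rw [MonoidHom.mul_apply, ha n hn, hb n hn, one_mul]
  inv_mem' := fun {a} ha n hn => by
    rw [MonoidHom.inv_apply, ha n hn, inv_one]

theorem mem_Xd {N M : Subgroup G} {l : N →* ℂˣ} : l ∈ Xd N M ↔ ∀ n : N, (n : G) ∈ M → l n = 1 :=
  Iff.rfl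

/-- conjugation action of `G` on the characters of a normal subgroup -/
def W_act (N : Subgroup G) [N.Normal] (g : G) : (N →* ℂˣ) →* (N →* ℂˣ) where
  toFun l := l.comp (MulAut.conjNormal g⁻¹ : MulAut N).toMonoidHom
  map_one' := rfl
  map_mul' _ _ := rfl

@[simp] theorem W_act_apply (N : Subgroup G) [N.Normal] (g : G) (l : N →* ℂˣ) (n : N) :
    W_act N g l n = l (MulAut.conjNormal g⁻¹ n) := rfl

theorem W_act_mem {N M : Subgroup G} [N.Normal] [hM : M.Normal] (g : G) {l : N →* ℂˣ}
    (hl : l ∈ Xd N M) : W_act N g l ∈ Xd N M := by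
  intro n hn
  rw [W_act_apply]
  apply hl
  rw [MulAut.conjNormal_apply]
  exact hM.conj_mem _ hn _

instance Xd_action (N M : Subgroup G) [N.Normal] [M.Normal] :
    DistribMulAction G (Additive (Xd N M)) where
  smul g l := Additive.ofMul ⟨W_act N g (l.toMul : Xd N M), W_act_mem g (l.toMul : Xd N M).2⟩
  one_smul l := by
    apply Additive.toMul.injective
    apply Subtype.ext
    ext n
    change (((l.toMul : Xd N M) : N →* ℂˣ) (MulAut.conjNormal (1 : G)⁻¹ n) : ℂ) =
      ((l.toMul : Xd N M) : N →* ℂˣ) n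
    simp
  mul_smul a b l := by
    apply Additive.toMul.injective
    apply Subtype.ext
    ext n
    change (((l.toMul : Xd N M) : N →* ℂˣ) (MulAut.conjNormal (a * b)⁻¹ n) : ℂ) =
      ((l.toMul : Xd N M) : N →* ℂˣ) (MulAut.conjNormal b⁻¹ (MulAut.conjNormal a⁻¹ n))
    rw [mul_inv_rev, map_mul]
    rfl
  smul_zero a := by
    apply Additive.toMul.injective
    apply Subtype.ext
    ext n
    rfl
  smul_add a x y := by
    apply Additive.toMul.injective
    apply Subtype.ext
    ext n
    rfl

theorem Xd_smul_apply {N M : Subgroup G} [N.Normal] [M.Normal] (g : G) (l : Additive (Xd N M))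
    (n : N) : (((g • l).toMul : Xd N M) : N →* ℂˣ) n =
      ((l.toMul : Xd N M) : N →* ℂˣ) (MulAut.conjNormal g⁻¹ n) := rfl

/-- the characters of `N` trivial on `M` are the characters of the quotient -/
noncomputable def XdEquiv (N M : Subgroup G) [M.Normal] :
    (N ⧸ M.subgroupOf N →* ℂˣ) ≃ Xd N M where
  toFun φ := ⟨φ.comp (QuotientGroup.mk' _), fun n hn => by
    have : (QuotientGroup.mk' (M.subgroupOf N)) n = 1 := by
      rw [QuotientGroup.mk'_apply, QuotientGroup.eq_one_iff, Subgroup.mem_subgroupOf]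
      exact hn
    rw [MonoidHom.comp_apply, this, map_one]⟩
  invFun l := QuotientGroup.lift (M.subgroupOf N) l.1 (fun n hn => l.2 n hn)
  left_inv φ := by
    apply MonoidHom.ext
    intro n
    obtain ⟨n, rfl⟩ := QuotientGroup.mk'_surjective _ n
    rfl
  right_inv l := by
    apply Subtype.ext
    ext n
    rfl

theorem W_quot_comm {N M : Subgroup G} [M.Normal] (h : ⁅N, N⁆ ≤ M) :
    ∀ a b : N ⧸ M.subgroupOf N, a * b = b * a := by
  intro a b
  obtain ⟨a, rfl⟩ := QuotientGroup.mk'_surjective _ a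
  obtain ⟨b, rfl⟩ := QuotientGroup.mk'_surjective _ b
  rw [← map_mul, ← map_mul, QuotientGroup.mk'_apply, QuotientGroup.mk'_apply, QuotientGroup.eq,
    Subgroup.mem_subgroupOf]
  have : (((a * b)⁻¹ * (b * a) : N) : G) = ⁅((b⁻¹ : N) : G), ((a⁻¹ : N) : G)⁆ := by
    rw [commutatorElement_def]; push_cast; group
  rw [this]
  exact h (Subgroup.commutator_mem_commutator (b⁻¹).2 (a⁻¹).2)

theorem W_card [Finite G] {N M : Subgroup G} [M.Normal] (h : ⁅N, N⁆ ≤ M) :
    Finite (Xd N M) ∧ Nat.card (Xd N M) = Nat.card (N ⧸ M.subgroupOf N) := by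
  let _i : CommGroup (N ⧸ M.subgroupOf N) :=
    { (inferInstance : Group (N ⧸ M.subgroupOf N)) with mul_comm := W_quot_comm h }
  have h1 := CommGroup.card_monoidHom_of_hasEnoughRootsOfUnity (N ⧸ M.subgroupOf N) ℂ
  have h2 : Nat.card (Xd N M) = Nat.card (N ⧸ M.subgroupOf N) := by
    rw [← h1]
    exact (Nat.card_congr (XdEquiv N M)).symm
  refine ⟨?_, h2⟩
  apply Nat.finite_of_card_ne_zero
  rw [h2]
  exact Nat.card_pos.ne'

theorem W_separate [Finite G] {N M : Subgroup G} [M.Normal] (h : ⁅N, N⁆ ≤ M) (n : N)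
    (hn : ∀ l ∈ Xd N M, l n = 1) : (n : G) ∈ M := by
  let _i : CommGroup (N ⧸ M.subgroupOf N) :=
    { (inferInstance : Group (N ⧸ M.subgroupOf N)) with mul_comm := W_quot_comm h }
  by_contra hnM
  have hne : (QuotientGroup.mk' (M.subgroupOf N) n) ≠ 1 := by
    rw [QuotientGroup.mk'_apply, Ne, QuotientGroup.eq_one_iff, Subgroup.mem_subgroupOf]
    exact hnM
  obtain ⟨φ, hφ⟩ := CommGroup.exists_apply_ne_one_of_hasEnoughRootsOfUnity
    (N ⧸ M.subgroupOf N) ℂ hne
  exact hφ (hn _ (XdEquiv N M φ).2)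

theorem W_irred [Finite G] [Group.IsSolvable G] {M N : Subgroup G} [hM : M.Normal] [hN : N.Normal]
    (hlt : M < N)
    (hch : ∀ K : Subgroup G, K.Normal → M ≤ K → K ≤ N → K = M ∨ K = N) :
    Irred G (Additive (Xd N M)) := by
  have hcomm := W_comm_le hlt hch
  obtain ⟨hfin, hcard⟩ := W_card hcomm
  obtain ⟨n₀, hn₀N, hn₀M⟩ := SetLike.exists_of_lt hlt
  constructor
  · -- nontrivial
    by_contra hnt
    rw [not_nontrivial_iff_subsingleton] at hnt
    apply hn₀M
    have := W_separate hcomm ⟨n₀, hn₀N⟩ (fun l hl => by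
      have h1 : (Additive.ofMul ⟨l, hl⟩ : Additive (Xd N M)) = 0 := Subsingleton.elim _ _
      have h2 : (⟨l, hl⟩ : Xd N M) = 1 := h1
      have h3 : l = 1 := congrArg Subtype.val h2
      rw [h3]; rfl)
    exact this
  · intro U hU
    -- the common kernel of `U`
    let K : Subgroup G :=
      { carrier := {n | ∃ hn : n ∈ N, ∀ l : Additive (Xd N M), l ∈ U →
          ((l.toMul : Xd N M) : N →* ℂˣ) ⟨n, hn⟩ = 1}
        one_mem' := ⟨N.one_mem, fun l _ => map_one _⟩
        mul_mem' := by
          rintro a b ⟨ha, ha'⟩ ⟨hb, hb'⟩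
          refine ⟨N.mul_mem ha hb, fun l hl => ?_⟩
          have : (⟨a * b, N.mul_mem ha hb⟩ : N) = ⟨a, ha⟩ * ⟨b, hb⟩ := rfl
          rw [this, map_mul, ha' l hl, hb' l hl, one_mul]
        inv_mem' := by
          rintro a ⟨ha, ha'⟩
          refine ⟨N.inv_mem ha, fun l hl => ?_⟩
          have : (⟨a⁻¹, N.inv_mem ha⟩ : N) = ⟨a, ha⟩⁻¹ := rfl
          rw [this, map_inv, ha' l hl, inv_one] }
    have hKn : K.Normal := by
      constructor
      rintro n ⟨hn, hn'⟩ g
      refine ⟨hN.conj_mem n hn g, fun l hl => ?_⟩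
      have h1 := hn' (g⁻¹ • l) (hU _ l hl)
      rw [Xd_smul_apply, inv_inv] at h1
      exact h1
    have hMK : M ≤ K := fun m hm => ⟨hlt.le hm, fun l _ => (l.toMul : Xd N M).2 _ hm⟩
    have hKN : K ≤ N := fun m hm => hm.1
    rcases hch K hKn hMK hKN with hK | hK
    · right
      have : Finite U := inferInstance
      let ψ : N →* (Multiplicative U →* ℂˣ) :=
        { toFun := fun n =>
            { toFun := fun u => (((Multiplicative.toAdd u : U) : Additive (Xd N M)).toMul :
                Xd N M).1 n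
              map_one' := rfl
              map_mul' := fun _ _ => rfl }
          map_one' := by
            ext u
            change ((((Multiplicative.toAdd u : U) : Additive (Xd N M)).toMul :
                Xd N M).1 1 : ℂ) = 1
            rw [map_one]; rfl
          map_mul' := by
            intro a b
            ext u
            change ((((Multiplicative.toAdd u : U) : Additive (Xd N M)).toMul :
                Xd N M).1 (a * b) : ℂ) = _
            rw [map_mul]; rfl }
      have hker : ψ.ker ≤ M.subgroupOf N := by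
        intro n hn
        rw [Subgroup.mem_subgroupOf, ← hK]
        refine ⟨n.2, fun l hl => ?_⟩
        rw [MonoidHom.mem_ker] at hn
        have := DFunLike.congr_fun hn (Multiplicative.ofAdd (⟨l, hl⟩ : U))
        exact this
      have h1 : Nat.card (N ⧸ M.subgroupOf N) ≤ Nat.card (N ⧸ ψ.ker) := by
        have := Subgroup.index_dvd_of_le hker
        exact Nat.le_of_dvd (Nat.pos_of_ne_zero (Subgroup.index_ne_zero_of_finite)) this
      have h2 : Nat.card (N ⧸ ψ.ker) = Nat.card ψ.range :=
        Nat.card_congr (QuotientGroup.quotientKerEquivRange ψ).toEquiv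
      have h3 : Nat.card (Multiplicative U →* ℂˣ) = Nat.card (Multiplicative U) :=
        CommGroup.card_monoidHom_of_hasEnoughRootsOfUnity (Multiplicative U) ℂ
      have h4 : Finite (Multiplicative U →* ℂˣ) := by
        apply Nat.finite_of_card_ne_zero
        rw [h3]
        exact Nat.card_pos.ne'
      have h5 : Nat.card ψ.range ≤ Nat.card (Multiplicative U →* ℂˣ) :=
        Nat.card_le_card_of_injective _ Subtype.val_injective
      have h6 : Nat.card (Multiplicative U) = Nat.card U := rfl
      have h7 : Nat.card (Additive (Xd N M)) = Nat.card (Xd N M) := rfl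
      apply AddSubgroup.eq_top_of_le_card
      rw [h7, hcard]
      omega
    · left
      rw [eq_bot_iff]
      intro l hl
      rw [AddSubgroup.mem_bot]
      apply Additive.toMul.injective
      apply Subtype.ext
      ext ⟨n, hn⟩
      have hnK : n ∈ K := by rw [hK]; exact hn
      obtain ⟨hn', h1⟩ := hnK
      have h2 := h1 l hl
      rw [h2]
      rfl

theorem W_comm_actKer [Finite G] {N M : Subgroup G} [N.Normal] [M.Normal] (h : ⁅N, N⁆ ≤ M) :
    ⁅N, actKer G (Additive (Xd N M))⁆ ≤ M := by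
  rw [Subgroup.commutator_le]
  intro n hn d hd
  have hmem : ⁅n, d⁆ ∈ N := by
    rw [commutatorElement_def]
    have : n * d * n⁻¹ * d⁻¹ = n * (d * n⁻¹ * d⁻¹) := by group
    rw [this]
    exact N.mul_mem hn (Subgroup.Normal.conj_mem inferInstance _ (N.inv_mem hn) d)
  refine W_separate h ⟨⁅n, d⁆, hmem⟩ ?_
  intro l hl
  have h1 : (⟨⁅n, d⁆, hmem⟩ : N) = ⟨n, hn⟩ * MulAut.conjNormal d (⟨n, hn⟩ : N)⁻¹ := by
    apply Subtype.ext
    change ⁅n, d⁆ = n * ((MulAut.conjNormal d (⟨n, hn⟩ : N)⁻¹ : N) : G)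
    rw [MulAut.conjNormal_apply, commutatorElement_def]
    push_cast
    group
  have h2 : d⁻¹ • (Additive.ofMul ⟨l, hl⟩ : Additive (Xd N M)) = Additive.ofMul ⟨l, hl⟩ := by
    have := mem_actKer.1 ((actKer G (Additive (Xd N M))).inv_mem hd)
    exact this _
  have h3 : l (MulAut.conjNormal d (⟨n, hn⟩ : N)⁻¹) = l (⟨n, hn⟩ : N)⁻¹ := by
    have h4 := congrArg (fun x : Additive (Xd N M) => (x.toMul : Xd N M).1 (⟨n, hn⟩ : N)⁻¹) h2
    simp only [Xd_smul_apply, inv_inv] at h4
    exact h4
  rw [h1, map_mul, h3, map_inv, mul_inv_cancel]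

end Dual

/-! ### iterated commutators -/

section Icomm

variable {G : Type*} [Group G]

/-- `[H, D, …, D]` -/
def icomm (D H : Subgroup G) : ℕ → Subgroup G
  | 0 => H
  | n + 1 => ⁅icomm D H n, D⁆

theorem icomm_mono {D D' H H' : Subgroup G} (hD : D ≤ D') (hH : H ≤ H') (n : ℕ) :
    icomm D H n ≤ icomm D' H' n := by
  induction n with
  | zero => exact hH
  | succ n ih => exact Subgroup.commutator_mono ih hD

theorem icomm_succ' (D H : Subgroup G) (n : ℕ) : icomm D ⁅H, D⁆ n = icomm D H (n + 1) := by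
  induction n with
  | zero => rfl
  | succ n ih =>
    change ⁅icomm D ⁅H, D⁆ n, D⁆ = ⁅icomm D H (n + 1), D⁆
    rw [ih]

theorem lc_eq_icomm (L : Subgroup G) (n : ℕ) : lc L n = icomm L L n := by
  induction n with
  | zero => rfl
  | succ n ih =>
    change ⁅lc L n, L⁆ = ⁅icomm L L n, L⁆
    rw [ih]

/-- the key induction: if `D` centralises all the factors `N (j+1) / N j` with `j ∉ B` then
`D` is contained in the Fitting subgroup number `2 * |B| + 1`. -/
theorem W_key [Finite G] (N : ℕ → Subgroup G) (hN : ∀ j, (N j).Normal) (s : ℕ) (h0 : N 0 = ⊥)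
    (hs : N s = ⊤) (B : Finset ℕ) (D : Subgroup G) (hD : D.Normal)
    (h1 : ∀ j < s, j ∉ B → ⁅N (j + 1), D⁆ ≤ N j)
    (h2 : ∀ j < s, ⁅N (j + 1), N (j + 1)⁆ ≤ N j) (hB : ∀ j ∈ B, j < s) :
    D ≤ Rr (⊥ : Subgroup G) (2 * B.card + 1) := by
  have claim : ∀ j ≤ s, ∃ n, icomm D (D ⊓ N j) n ≤
      Rr (⊥ : Subgroup G) (2 * (B.filter (· < j)).card) := by
    intro j
    induction j with
    | zero =>
      intro _
      refine ⟨0, ?_⟩
      rw [h0]
      change D ⊓ ⊥ ≤ _
      rw [inf_bot_eq]
      exact bot_le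
    | succ j ih =>
      intro hj
      obtain ⟨n, hn⟩ := ih (by omega)
      by_cases hjB : j ∈ B
      · have hcard : (B.filter (· < j + 1)).card = (B.filter (· < j)).card + 1 := by
          have : B.filter (· < j + 1) = insert j (B.filter (· < j)) := by
            ext x
            simp only [Finset.mem_filter, Finset.mem_insert]
            constructor
            · rintro ⟨hx, hx'⟩
              by_cases hxj : x = j
              · exact Or.inl hxj
              · exact Or.inr ⟨hx, by omega⟩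
            · rintro (rfl | ⟨hx, hx'⟩)
              · exact ⟨hjB, by omega⟩
              · exact ⟨hx, by omega⟩
          rw [this, Finset.card_insert_of_notMem]
          simp
        rw [hcard]
        refine ⟨0, ?_⟩
        have := hN j
        have := hN (j + 1)
        have hR := Rr_normal (⊥ : Subgroup G) (2 * (B.filter (· < j)).card)
        have hrn : RelNil (Rr (⊥ : Subgroup G) (2 * (B.filter (· < j)).card)) (D ⊓ N j) := by
          refine ⟨n, ?_⟩
          rw [lc_eq_icomm]
          exact (icomm_mono inf_le_left le_rfl n).trans hn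
        have h3 : D ⊓ N j ≤ FitOver (Rr (⊥ : Subgroup G) (2 * (B.filter (· < j)).card)) :=
          hrn.le_fitOver
        have h4 : ⁅D ⊓ N (j + 1), D ⊓ N (j + 1)⁆ ≤ D ⊓ N j := by
          refine le_inf ?_ ?_
          · exact (Subgroup.commutator_mono inf_le_left inf_le_left).trans
              (Subgroup.commutator_le_left D D)
          · exact (Subgroup.commutator_mono inf_le_right inf_le_right).trans (h2 j (by omega))
        have h5 : RelNil (FitOver (Rr (⊥ : Subgroup G) (2 * (B.filter (· < j)).card)))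
            (D ⊓ N (j + 1)) := relNil_of_comm (h4.trans h3)
        exact h5.le_fitOver
      · have hcard : B.filter (· < j + 1) = B.filter (· < j) := by
          ext x
          simp only [Finset.mem_filter]
          constructor
          · rintro ⟨hx, hx'⟩
            refine ⟨hx, ?_⟩
            rcases Nat.lt_succ_iff_lt_or_eq.1 hx' with h | h
            · exact h
            · exact absurd (h ▸ hx) hjB
          · rintro ⟨hx, hx'⟩
            exact ⟨hx, by omega⟩
        rw [hcard]
        refine ⟨n + 1, ?_⟩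
        rw [← icomm_succ']
        refine (icomm_mono le_rfl ?_ n).trans hn
        refine le_inf ?_ ?_
        · exact (Subgroup.commutator_mono inf_le_left le_rfl).trans
            (Subgroup.commutator_le_left D D)
        · exact (Subgroup.commutator_mono inf_le_right le_rfl).trans (h1 j (by omega) hjB)
  obtain ⟨n, hn⟩ := claim s le_rfl
  have hBs : B.filter (· < s) = B := by
    ext x
    simp only [Finset.mem_filter]
    exact ⟨fun h => h.1, fun h => ⟨h, hB x h⟩⟩
  rw [hBs, hs, inf_top_eq] at hn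
  have hR := Rr_normal (⊥ : Subgroup G) (2 * B.card)
  have hrn : RelNil (Rr (⊥ : Subgroup G) (2 * B.card)) D := ⟨n, by rw [lc_eq_icomm]; exact hn⟩
  exact hrn.le_fitOver

end Icomm

/-! ### the theorem -/

theorem W_deg_ne_zero {G : Type} [Group G] {χ : G → ℂ} (hχ : χ ∈ IrrChar G) : χ 1 ≠ 0 := by
  obtain ⟨n, ρ, hρ, rfl⟩ := hχ
  rw [Representation.char_one]
  intro h
  have h0 : Module.finrank ℂ (Fin n → ℂ) = 0 := by exact_mod_cast h
  rw [Module.finrank_fin_fun] at h0
  subst h0
  have hnt := hρ.toNontrivial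
  obtain ⟨a, b, hab⟩ := hnt
  apply hab
  apply SetLike.ext
  intro x
  have : x = 0 := Subsingleton.elim _ _
  subst this
  exact ⟨fun _ => b.toSubmodule.zero_mem, fun _ => a.toSubmodule.zero_mem⟩

/-- the statement of piece L -/
def LargeOrbit : Prop := ∃ c : ℕ, ∀ (G : Type) [Group G] [Finite G] [Group.IsSolvable G]
    (V : Type) [AddCommGroup V] [Finite V] [DistribMulAction G V],
    Irred G V → ∃ v : V, ∀ g : G, g • v = v → g ∈ Rr (actKer G V) c

theorem mem_Rr_of_zer_of (hL : LargeOrbit) :
    ∃ c : ℕ, ∀ (G : Type) [Group G] [Finite G] [Group.IsSolvable G] (g : G),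
    g ∈ Rr (⊥ : Subgroup G) (c + 2 * zer g + 1) := by
  classical
  obtain ⟨c, hc⟩ := hL
  refine ⟨c, ?_⟩
  intro G _ _ _ g
  obtain ⟨s, N, h0, hs, hN, hch⟩ := W_chief (⊥ : Subgroup G) inferInstance
  have : Fintype G := Fintype.ofFinite G
  have instN : ∀ j, Fintype (N j) := fun j => Fintype.ofFinite _
  have hcomm : ∀ j < s, ⁅N (j + 1), N (j + 1)⁆ ≤ N j := fun j hj =>
    W_comm_le (hch j hj).1 (hch j hj).2
  let B : Finset ℕ := (Finset.range s).filter
    (fun j => g ∉ Rr (actKer G (Additive (Xd (N (j + 1)) (N j)))) c)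
  have hBmem : ∀ j, j ∈ B ↔ j < s ∧ g ∉ Rr (actKer G (Additive (Xd (N (j + 1)) (N j)))) c := by
    intro j
    simp only [B, Finset.mem_filter, Finset.mem_range]
  -- the characters
  have hχ : ∀ j ∈ B, ∃ χ ∈ IrrChar G, χ g = 0 ∧ ∑ n : N (j + 1), χ n = 0 ∧
      ∀ n ∈ N j, χ n = χ 1 := by
    intro j hj
    rw [hBmem] at hj
    obtain ⟨hjs, hg⟩ := hj
    have hfin : Finite (Additive (Xd (N (j + 1)) (N j))) := (W_card (hcomm j hjs)).1
    obtain ⟨v, hv⟩ := hc G (Additive (Xd (N (j + 1)) (N j)))
      (W_irred (hch j hjs).1 (hch j hjs).2)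
    have hRn := Rr_normal (actKer G (Additive (Xd (N (j + 1)) (N j)))) c
    obtain ⟨χ, hχ1, hχ2, hχ3, hχ4⟩ := exists_vanishing G (N (j + 1)) (v.toMul : Xd _ _).1 g
      (by
        intro x
        by_contra hcon
        push Not at hcon
        apply hg
        have hfix : (x⁻¹ * g * x) • v = v := by
          apply Additive.toMul.injective
          apply Subtype.ext
          apply MonoidHom.ext
          intro n
          rw [Xd_smul_apply]
          have h5 := hcon (MulAut.conjNormal x n)
          have h6 : MulAut.conjNormal (x⁻¹ * g⁻¹) (MulAut.conjNormal x n) =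
              MulAut.conjNormal (x⁻¹ * g * x)⁻¹ n := by
            apply Subtype.ext
            rw [MulAut.conjNormal_apply, MulAut.conjNormal_apply, MulAut.conjNormal_apply]
            group
          have h7 : MulAut.conjNormal x⁻¹ (MulAut.conjNormal x n) = n := by
            apply Subtype.ext
            rw [MulAut.conjNormal_apply, MulAut.conjNormal_apply]
            group
          rw [h6, h7] at h5
          exact h5
        have h8 := hRn.conj_mem _ (hv _ hfix) x
        have h9 : x * (x⁻¹ * g * x) * x⁻¹ = g := by group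
        rwa [h9] at h8)
    refine ⟨χ, hχ1, hχ2, hχ3, ?_⟩
    exact hχ4 (N j) (hN j) (fun n hn hn' => (v.toMul : Xd _ _).2 ⟨n, hn⟩ hn') (hch j hjs).1.le
  choose! χ hχ1 hχ2 hχ3 hχ4 using hχ
  have hmono : ∀ i j, i ≤ j → j ≤ s → N i ≤ N j := by
    intro i j hij
    induction j, hij using Nat.le_induction with
    | base => intro _; exact le_rfl
    | succ j _ ih => intro hjs; exact (ih (by omega)).trans (hch j (by omega)).1.le
  -- different `j` give different characters
  have hne : ∀ i ∈ B, ∀ j ∈ B, i < j → χ i ≠ χ j := by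
    intro i hi j hj hij h
    have hjs := ((hBmem j).1 hj).1
    have h1 := hχ3 i hi
    rw [h] at h1
    have h2 : ∀ n : N (i + 1), χ j n = χ j 1 := fun n =>
      hχ4 j hj _ (hmono (i + 1) j hij hjs.le n.2)
    simp only [h2, Finset.sum_const, nsmul_eq_mul] at h1
    rcases mul_eq_zero.1 h1 with h3 | h3
    · rw [Nat.cast_eq_zero, Finset.card_univ] at h3
      exact Fintype.card_ne_zero h3
    · exact W_deg_ne_zero (hχ1 j hj) h3
  have hinj : Set.InjOn χ (B : Set ℕ) := by
    intro i hi j hj h
    rcases lt_trichotomy i j with h' | h' | h'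
    · exact absurd h (hne i hi j hj h')
    · exact h'
    · exact absurd h.symm (hne j hj i hi h')
  have hcard : B.card ≤ zer g := by
    have hfin : {χ ∈ IrrChar G | χ g = 0}.Finite := (irrChar_finite G).subset (Set.sep_subset _ _)
    have h1 : (B.image χ : Set (G → ℂ)) ⊆ {χ ∈ IrrChar G | χ g = 0} := by
      intro y hy
      rw [Finset.coe_image] at hy
      obtain ⟨j, hj, rfl⟩ := hy
      exact ⟨hχ1 j hj, hχ2 j hj⟩
    have h2 := Set.ncard_le_ncard h1 hfin
    rw [Set.ncard_coe_finset, Finset.card_image_of_injOn hinj] at h2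
    exact h2
  -- the subgroups
  let ι := {j : Fin s // (j : ℕ) ∉ B}
  let K : ι → Subgroup G := fun j => actKer G (Additive (Xd (N ((j.1 : ℕ) + 1)) (N (j.1 : ℕ))))
  let P : ℕ → Subgroup G := fun i => ⨅ j : ι, Rr (K j) i
  have hKn : ∀ j : ι, (K j).Normal := fun j => inferInstance
  have hPn : ∀ i, (P i).Normal := by
    intro i
    exact Subgroup.normal_iInf_normal (fun j => Rr_normal (K j) i)
  have hP : ∀ i, RelNil (P i) (P (i + 1)) := by
    intro i
    refine RelNil.iInf (fun j => ?_) (fun j => Rr_normal (K j) (i + 1))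
    have := Rr_normal (K j) i
    exact fitOver_relNil (Rr (K j) i)
  have hgP : g ∈ P c := by
    rw [Subgroup.mem_iInf]
    intro j
    by_contra hcon
    exact j.2 ((hBmem _).2 ⟨j.1.2, hcon⟩)
  have hD : P 0 ≤ Rr (⊥ : Subgroup G) (2 * B.card + 1) := by
    refine W_key N hN s h0 hs B (P 0) (hPn 0) ?_ hcomm (fun j hj => ((hBmem j).1 hj).1)
    intro j hjs hjB
    have h1 : P 0 ≤ actKer G (Additive (Xd (N (j + 1)) (N j))) :=
      iInf_le (fun j : ι => Rr (K j) 0) ⟨⟨j, hjs⟩, hjB⟩
    exact (Subgroup.commutator_mono le_rfl h1).trans (W_comm_actKer (hcomm j hjs))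
  have h1 : P c ≤ Rr (Rr (⊥ : Subgroup G) (2 * B.card + 1)) c :=
    chain_le_Rr P hPn hD hP c
  rw [Rr_add] at h1
  have h2 : Rr (⊥ : Subgroup G) (2 * B.card + 1 + c) ≤ Rr (⊥ : Subgroup G) (c + 2 * zer g + 1) :=
    Rr_mono _ (by omega)
  exact h2 (h1 hgP)

end Pool.Agent.FH
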