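import Pool.Agent.Lib.MP_86abfd_al.Defs
import Pool.Agent.Lib.MP_86abfd_al.Char

/-! # piece Y: characters vanishing off a normal subgroup -/

namespace Pool.Agent.FH

open scoped Pointwise

/-- Schur's lemma for class functions -/
theorem Y_schur {G : Type} [Group G] [Fintype G] {U : Type*} [AddCommGroup U] [Module ℂ U]
    [FiniteDimensional ℂ U] (ρ : Representation ℂ G U) (h : ρ.IsIrreducible) (f : G → ℂ)
    (hf : ∀ x g, f (x * g * x⁻¹) = f g) :
    ∃ c : ℂ, ∑ g, f g • ρ g = c • (1 : U →ₗ[ℂ] U) := by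
  have hcomm : ∀ x : G, ∀ v : U, (∑ g, f g • ρ g) (ρ x v) = ρ x ((∑ g, f g • ρ g) v) := by
    intro x v
    simp only [LinearMap.sum_apply, LinearMap.smul_apply, map_sum, map_smul]
    rw [← Equiv.sum_comp (MulAut.conj x).toEquiv]
    refine Finset.sum_congr rfl fun g _ => ?_
    have h1 : (MulAut.conj x).toEquiv g = x * g * x⁻¹ := rfl
    rw [h1, hf, ← Module.End.mul_apply, ← map_mul, ← Module.End.mul_apply, ← map_mul]
    congr 3
    group
  have := h
  obtain ⟨c, hc⟩ := (Representation.IsIrreducible.algebraMap_intertwiningMap_bijective_of_isAlgClosed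
    (ρ := ρ)).2 (LinearMap.intertwiningMap_of_isIntertwiningMap ρ ρ (∑ g, f g • ρ g) hcomm)
  refine ⟨c, ?_⟩
  have h2 := congrArg (fun F => F.toLinearMap) hc
  exact h2.symm

theorem Y_class {G : Type} [Group G] {χ : G → ℂ} (hχ : χ ∈ IrrChar G) (x g : G) :
    χ (x * g * x⁻¹) = χ g := by
  obtain ⟨n, ρ, _, rfl⟩ := hχ
  exact Representation.char_conj ρ g x

theorem Y_one_ne {G : Type} [Group G] {χ : G → ℂ} (hχ : χ ∈ IrrChar G) : χ 1 ≠ 0 := by
  obtain ⟨n, ρ, h, rfl⟩ := hχ
  rw [Representation.char_one]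
  simp only [Module.finrank_fin_fun, ne_eq, Nat.cast_eq_zero]
  rintro rfl
  have h1 : (⊥ : Subrepresentation ρ) ≠ ⊤ := bot_ne_top
  apply h1
  apply Subrepresentation.toSubmodule_injective
  exact Subsingleton.elim _ _

theorem Y_mul {G : Type} [Group G] [Fintype G] {χ : G → ℂ} (hχ : χ ∈ IrrChar G) (f : G → ℂ)
    (hf : ∀ x g, f (x * g * x⁻¹) = f g) (g : G) :
    χ 1 * ∑ h, f h * χ (h * g) = (∑ h, f h * χ h) * χ g := by
  obtain ⟨n, ρ, h, rfl⟩ := hχ
  obtain ⟨c, hc⟩ := Y_schur ρ h f hf
  have key : ∀ x : G, ∑ h, f h * ρ.character (h * x) = c * ρ.character x := by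
    intro x
    have h1 : (LinearMap.trace ℂ (Fin n → ℂ)) ((∑ g, f g • ρ g) * ρ x) =
        LinearMap.trace ℂ (Fin n → ℂ) ((c • (1 : (Fin n → ℂ) →ₗ[ℂ] (Fin n → ℂ))) * ρ x) := by
      rw [hc]
    rw [Finset.sum_mul, map_sum] at h1
    simp only [smul_mul_assoc, map_smul, one_mul, smul_eq_mul] at h1
    simp only [Representation.character]
    rw [← h1]
    refine Finset.sum_congr rfl fun y _ => ?_
    rw [map_mul]
  have h1 := key 1
  simp only [mul_one] at h1
  rw [key, h1]
  ring

open scoped Classical in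
theorem Y_key {G : Type} [Group G] [Fintype G] (M : Subgroup G) [hM : M.Normal] [Fintype M]
    {χ ψ : G → ℂ}
    (hχ : χ ∈ IrrChar G) (hψ : ψ ∈ IrrChar G) (hA : ∑ g : M, χ g * ψ (g : G)⁻¹ ≠ 0) :
    ∀ m ∈ M, χ m / χ 1 = ψ m / ψ 1 := by
  intro m hm
  set f : G → ℂ := fun g => if IsConj m g then 1 else 0 with hf
  have hfc : ∀ x g, f (x * g * x⁻¹) = f g := by
    intro x g
    simp only [hf]
    have h1 : IsConj g (x * g * x⁻¹) := isConj_iff.2 ⟨x, rfl⟩
    have h2 : IsConj m (x * g * x⁻¹) ↔ IsConj m g :=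
      ⟨fun h => h.trans h1.symm, fun h => h.trans h1⟩
    simp only [h2]
  have hfM : ∀ g, g ∉ M → f g = 0 := by
    intro g hg
    simp only [hf]
    rw [if_neg]
    intro h
    obtain ⟨x, hx⟩ := isConj_iff.1 h
    exact hg (hx ▸ hM.conj_mem m hm x)
  have hS1 : χ 1 * ∑ g : M, ∑ h, f h * χ (h * g) * ψ (g : G)⁻¹ =
      (∑ h, f h * χ h) * ∑ g : M, χ g * ψ (g : G)⁻¹ := by
    rw [Finset.mul_sum, Finset.mul_sum]
    refine Finset.sum_congr rfl fun g _ => ?_
    rw [← Finset.sum_mul, ← mul_assoc, Y_mul hχ f hfc]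
    ring
  have hS2 : ∑ g : M, ∑ h, f h * χ (h * g) * ψ (g : G)⁻¹ =
      ∑ g : M, ∑ h, f h * ψ (h * (g : G)⁻¹) * χ g := by
    rw [Finset.sum_comm, Finset.sum_comm (s := Finset.univ (α := M))]
    refine Finset.sum_congr rfl fun h _ => ?_
    by_cases hh : h ∈ M
    · rw [← Equiv.sum_comp (Equiv.mulLeft (⟨h, hh⟩ : M)) (fun g : M => f h * ψ (h * (g : G)⁻¹) * χ g)]
      refine Finset.sum_congr rfl fun g _ => ?_
      have h3 : (((Equiv.mulLeft (⟨h, hh⟩ : M)) g : M) : G) = h * g := rfl
      rw [h3]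
      have h4 : ψ (h * (h * (g : G))⁻¹) = ψ (g : G)⁻¹ := by
        have h5 : h * (h * (g : G))⁻¹ = h * (g : G)⁻¹ * h⁻¹ := by group
        rw [h5, Y_class hψ]
      rw [h4]
      ring
    · rw [hfM h hh]
      simp
  have hS3 : ψ 1 * ∑ g : M, ∑ h, f h * ψ (h * (g : G)⁻¹) * χ g =
      (∑ h, f h * ψ h) * ∑ g : M, χ g * ψ (g : G)⁻¹ := by
    rw [Finset.mul_sum, Finset.mul_sum]
    refine Finset.sum_congr rfl fun g _ => ?_
    rw [← Finset.sum_mul, ← mul_assoc, Y_mul hψ f hfc]
    ring
  have h5 : ψ 1 * (∑ h, f h * χ h) = χ 1 * (∑ h, f h * ψ h) := by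
    apply mul_right_cancel₀ hA
    rw [mul_assoc, ← hS1, hS2, mul_assoc, ← hS3]
    ring
  have h6 : ∀ {θ : G → ℂ}, θ ∈ IrrChar G → ∑ h, f h * θ h = (∑ h, f h) * θ m := by
    intro θ hθ
    rw [Finset.sum_mul]
    refine Finset.sum_congr rfl fun h _ => ?_
    simp only [hf]
    split_ifs with h7
    · obtain ⟨x, hx⟩ := isConj_iff.1 h7
      rw [← hx, Y_class hθ]
    · simp
  rw [h6 hχ, h6 hψ] at h5
  have h7 : (∑ h, f h) ≠ 0 := by
    simp only [hf, Finset.sum_boole, ne_eq, Nat.cast_eq_zero, Finset.card_eq_zero]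
    intro h8
    have h9 : m ∈ Finset.univ.filter (fun g => IsConj m g) := by
      simp only [Finset.mem_filter, Finset.mem_univ, true_and]
      exact IsConj.refl m
    rw [h8] at h9
    simp at h9
  have h8 := Y_one_ne hχ
  have h9 := Y_one_ne hψ
  rw [div_eq_div_iff h8 h9]
  apply mul_left_cancel₀ h7
  linear_combination h5

/-- orthogonality implies linear independence -/
theorem Y_linind {X ι : Type*} [Fintype X] (f : ι → X → ℂ)
    (h0 : ∀ i, f i ≠ 0) (h : ∀ i j, i ≠ j → ∑ x, f i x * starRingEnd ℂ (f j x) = 0) :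
    LinearIndependent ℂ f := by
  classical
  rw [linearIndependent_iff']
  intro s g hg j hj
  have h1 : ∑ x, (∑ i ∈ s, g i • f i) x * starRingEnd ℂ (f j x) = 0 := by
    rw [hg]; simp
  simp only [Finset.sum_apply, Pi.smul_apply, smul_eq_mul, Finset.sum_mul] at h1
  rw [Finset.sum_comm] at h1
  have h2 : ∀ i ∈ s, i ≠ j → ∑ x, g i * f i x * starRingEnd ℂ (f j x) = 0 := by
    intro i _ hij
    simp only [mul_assoc]
    rw [← Finset.mul_sum, h i j hij, mul_zero]
  rw [Finset.sum_eq_single_of_mem j hj h2] at h1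
  simp only [mul_assoc] at h1
  rw [← Finset.mul_sum] at h1
  rcases mul_eq_zero.1 h1 with h3 | h3
  · exact h3
  · exfalso
    apply h0 j
    have h4 : ∑ x, (‖f j x‖ ^ 2 : ℝ) = 0 := by
      have h5 : ((∑ x, (‖f j x‖ ^ 2 : ℝ) : ℝ) : ℂ) = 0 := by
        rw [← h3]
        push_cast
        refine Finset.sum_congr rfl fun x _ => ?_
        rw [Complex.mul_conj, Complex.normSq_eq_norm_sq]
        push_cast
        rfl
      exact_mod_cast h5
    rw [Finset.sum_eq_zero_iff_of_nonneg (fun _ _ => by positivity)] at h4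
    funext x
    have h5 := h4 x (Finset.mem_univ x)
    simpa using h5

/-- linearly independent class functions supported on few classes -/
theorem Y_card_le {G : Type} [Group G] [Finite G] (S : Set (ConjClasses G)) {ι : Type*} [Fintype ι]
    (F : ι → G → ℂ) (hF : ∀ i x g, F i (x * g * x⁻¹) = F i g)
    (hs : ∀ i g, ConjClasses.mk g ∉ S → F i g = 0) (hlin : LinearIndependent ℂ F) :
    Fintype.card ι ≤ S.ncard := by
  classical
  have : Fintype G := Fintype.ofFinite G
  have : Fintype S := Fintype.ofFinite S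
  let Ψ : (S → ℂ) →ₗ[ℂ] (G → ℂ) :=
    { toFun := fun φ g => if h : ConjClasses.mk g ∈ S then φ ⟨ConjClasses.mk g, h⟩ else 0
      map_add' := by
        intro a b
        funext g
        simp only [Pi.add_apply]
        split_ifs <;> simp
      map_smul' := by
        intro a b
        funext g
        simp only [Pi.smul_apply, smul_eq_mul, RingHom.id_apply]
        split_ifs <;> simp }
  let φ : ι → S → ℂ := fun i C => F i (Quotient.out (C : ConjClasses G))
  have h1 : F = Ψ ∘ φ := by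
    funext i g
    simp only [Function.comp_apply, Ψ, LinearMap.coe_mk, AddHom.coe_mk, φ]
    split_ifs with h
    · have h2 : IsConj (Quotient.out (ConjClasses.mk g)) g := by
        rw [← ConjClasses.mk_eq_mk_iff_isConj]
        exact Quotient.out_eq _
      obtain ⟨x, hx⟩ := isConj_iff.1 h2
      rw [← hF i x (Quotient.out (ConjClasses.mk g)), hx]
    · exact hs i g h
  rw [h1] at hlin
  have h2 := LinearIndependent.of_comp Ψ hlin
  have h3 := h2.fintype_card_le_finrank
  rw [Module.finrank_pi] at h3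
  rw [← Nat.card_coe_set_eq, Nat.card_eq_fintype_card]
  exact h3

open scoped Classical in
theorem Y_restr {G : Type} [Group G] [Finite G] (S : Set (ConjClasses G)) (T : Set (G → ℂ))
    (hT : T.Finite)
    (h : ∀ χ ∈ IrrChar G, ∃ τ ∈ T, ∃ c : ℂ, ∀ g, ConjClasses.mk g ∈ S → χ g = c * τ g) :
    S.ncard ≤ T.ncard := by
  have : Fintype G := Fintype.ofFinite G
  have : Fintype S := Fintype.ofFinite S
  have : Fintype (ConjClasses G) := Fintype.ofFinite _
  have hI := irrChar_finite G
  have : Fintype (IrrChar G) := hI.fintype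
  have : Fintype T := hT.fintype
  let Φ : (ConjClasses G → ℂ) →ₗ[ℂ] (G → ℂ) := LinearMap.funLeft ℂ ℂ ConjClasses.mk
  let φ : IrrChar G → ConjClasses G → ℂ := fun i C => (i : G → ℂ) (Quotient.out C)
  have hout : ∀ χ ∈ IrrChar G, ∀ g, χ (Quotient.out (ConjClasses.mk g)) = χ g := by
    intro χ hχ g
    have h2 : IsConj (Quotient.out (ConjClasses.mk g)) g := by
      rw [← ConjClasses.mk_eq_mk_iff_isConj]
      exact Quotient.out_eq _
    obtain ⟨x, hx⟩ := isConj_iff.1 h2
    rw [← Y_class hχ x (Quotient.out (ConjClasses.mk g)), hx]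
  have h1 : (fun i : IrrChar G => (i : G → ℂ)) = Φ ∘ φ := by
    funext i g
    simp only [Function.comp_apply, Φ, LinearMap.funLeft_apply, φ]
    exact (hout i i.2 g).symm
  have h2 : LinearIndependent ℂ (fun i : IrrChar G => (i : G → ℂ)) := by
    apply Y_linind
    · intro i h0
      exact Y_one_ne i.2 (congrFun h0 1)
    · intro i j hij
      rw [← irrChar_orthogonal i.2 j.2 (fun h => hij (Subtype.ext h))]
      refine Finset.sum_congr rfl fun g _ => ?_
      rw [irrChar_conj j.2]
  rw [h1] at h2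
  have h3 := LinearIndependent.of_comp Φ h2
  have h4 : Fintype.card (IrrChar G) = Module.finrank ℂ (ConjClasses G → ℂ) := by
    rw [Module.finrank_pi, ← Nat.card_eq_fintype_card, ← Nat.card_eq_fintype_card,
      Nat.card_coe_set_eq, irrChar_ncard]
  have h5 := h3.span_eq_top_of_card_eq_finrank' h4
  let R : (ConjClasses G → ℂ) →ₗ[ℂ] (S → ℂ) := LinearMap.funLeft ℂ ℂ Subtype.val
  have h6 : Function.Surjective R :=
    LinearMap.funLeft_surjective_of_injective ℂ ℂ _ Subtype.val_injective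
  let r : T → S → ℂ := fun τ C => (τ : G → ℂ) (Quotient.out (C : ConjClasses G))
  have h7 : Submodule.span ℂ (Set.range r) = ⊤ := by
    rw [eq_top_iff, ← LinearMap.range_eq_top.2 h6, LinearMap.range_eq_map, ← h5,
      Submodule.map_span, Submodule.span_le]
    rintro _ ⟨_, ⟨χ, rfl⟩, rfl⟩
    obtain ⟨τ, hτ, c, hc⟩ := h χ χ.2
    have h8 : R (φ χ) = c • r ⟨τ, hτ⟩ := by
      funext C
      simp only [R, LinearMap.funLeft_apply, φ, Pi.smul_apply, smul_eq_mul, r]
      apply hc
      have h9 : ConjClasses.mk (Quotient.out (C : ConjClasses G)) = C := Quotient.out_eq _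
      rw [h9]
      exact C.2
    rw [h8]
    exact Submodule.smul_mem _ _ (Submodule.subset_span ⟨_, rfl⟩)
  have h8 := finrank_range_le_card (R := ℂ) r
  rw [Set.finrank, h7, finrank_top, Module.finrank_pi] at h8
  rw [← Nat.card_coe_set_eq, Nat.card_eq_fintype_card, ← Nat.card_coe_set_eq T,
    Nat.card_eq_fintype_card]
  exact h8

open scoped Classical in
theorem vanish_off (G : Type) [Group G] [Finite G] (M : Subgroup G) [hM : M.Normal] :
    Nat.card (ConjClasses G) ≤
      {χ ∈ IrrChar G | ∀ g, g ∉ M → χ g = 0}.ncard + 2 * clOut M := by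
  have : Fintype G := Fintype.ofFinite G
  have : Fintype M := Fintype.ofFinite M
  have hI := irrChar_finite G
  set N : (G → ℂ) → (G → ℂ) := fun χ g => if g ∈ M then χ g / χ 1 else 0 with hN
  set Vn := {χ ∈ IrrChar G | ∀ g, g ∉ M → χ g = 0} with hVn
  have hVfin : Vn.Finite := hI.subset fun χ h => h.1
  set T := N '' IrrChar G with hT
  set T' := N '' (IrrChar G \ Vn) with hT'
  have hTfin : T.Finite := hI.image _
  have hTfin' : T'.Finite := (hI.subset Set.sdiff_subset).image _
  have hC : T.ncard ≤ T'.ncard + Vn.ncard := by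
    have h1 : T ⊆ T' ∪ N '' Vn := by
      rintro _ ⟨χ, hχ, rfl⟩
      by_cases h : χ ∈ Vn
      · exact Or.inr ⟨χ, h, rfl⟩
      · exact Or.inl ⟨χ, ⟨hχ, h⟩, rfl⟩
    calc T.ncard ≤ (T' ∪ N '' Vn).ncard := Set.ncard_le_ncard h1 (hTfin'.union (hVfin.image _))
      _ ≤ T'.ncard + (N '' Vn).ncard := Set.ncard_union_le _ _
      _ ≤ T'.ncard + Vn.ncard := by
        have := Set.ncard_image_le (f := N) hVfin
        omega
  set S := {C : ConjClasses G | ∃ g, g ∉ M ∧ ConjClasses.mk g = C} with hS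
  have hmk : ∀ g, ConjClasses.mk g ∈ S ↔ g ∉ M := by
    intro g
    constructor
    · rintro ⟨x, hx, h⟩ hg
      rw [ConjClasses.mk_eq_mk_iff_isConj] at h
      obtain ⟨y, hy⟩ := isConj_iff.1 h.symm
      exact hx (hy ▸ hM.conj_mem g hg y)
    · intro h
      exact ⟨g, h, rfl⟩
  have hA : Sᶜ.ncard ≤ T.ncard := by
    apply Y_restr Sᶜ T hTfin
    intro χ hχ
    refine ⟨N χ, ⟨χ, hχ, rfl⟩, χ 1, ?_⟩
    intro g hg
    have h1 : g ∈ M := by
      by_contra h
      exact hg ((hmk g).2 h)
    simp only [hN, if_pos h1]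
    field_simp [Y_one_ne hχ]
  have hB : T'.ncard ≤ S.ncard := by
    have : Fintype T' := hTfin'.fintype
    have hch : ∀ τ : T', ∃ χ, χ ∈ IrrChar G ∧ χ ∉ Vn ∧ N χ = τ := by
      rintro ⟨τ, χ, hχ, rfl⟩
      exact ⟨χ, hχ.1, hχ.2, rfl⟩
    choose X hX1 hX2 hX3 using hch
    rw [← Nat.card_coe_set_eq, Nat.card_eq_fintype_card]
    apply Y_card_le S (fun τ g => if g ∈ M then 0 else X τ g)
    · intro τ x g
      have h1 : x * g * x⁻¹ ∈ M ↔ g ∈ M := by
        constructor
        · intro h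
          have := hM.conj_mem _ h x⁻¹
          have h2 : x⁻¹ * (x * g * x⁻¹) * x⁻¹⁻¹ = g := by group
          rwa [h2] at this
        · intro h
          exact hM.conj_mem _ h x
      simp only [h1, Y_class (hX1 τ)]
    · intro τ g hg
      rw [hmk, not_not] at hg
      simp only [if_pos hg]
    · apply Y_linind
      · intro τ h0
        apply hX2 τ
        refine ⟨hX1 τ, fun g hg => ?_⟩
        have := congrFun h0 g
        simpa only [if_neg hg, Pi.zero_apply] using this
      · intro τ σ hτσ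
        have hne : X τ ≠ X σ := by
          intro h
          apply hτσ
          apply Subtype.ext
          rw [← hX3 τ, ← hX3 σ, h]
        have h1 := irrChar_orthogonal (hX1 τ) (hX1 σ) hne
        have h2 : ∑ g : M, X τ g * X σ (g : G)⁻¹ = 0 := by
          by_contra h
          apply hτσ
          apply Subtype.ext
          rw [← hX3 τ, ← hX3 σ]
          funext g
          simp only [hN]
          split_ifs with hg
          · exact Y_key M (hX1 τ) (hX1 σ) h g hg
          · rfl
        have h3 : ∑ g : M, X τ g * X σ (g : G)⁻¹ =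
            ∑ g, if g ∈ M then X τ g * X σ g⁻¹ else 0 := by
          rw [← Finset.sum_filter]
          symm
          apply Finset.sum_subtype
          intro x
          simp
        have h4 : ∑ g, ((if g ∈ M then 0 else X τ g) *
            starRingEnd ℂ (if g ∈ M then 0 else X σ g)) =
            ∑ g, X τ g * X σ g⁻¹ - ∑ g, if g ∈ M then X τ g * X σ g⁻¹ else 0 := by
          rw [← Finset.sum_sub_distrib]
          refine Finset.sum_congr rfl fun g _ => ?_
          split_ifs with hg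
          · simp
          · rw [irrChar_conj (hX1 σ)]
            simp
        rw [h4, ← h3, h1, h2, sub_zero]
  have hk : Nat.card (ConjClasses G) = S.ncard + Sᶜ.ncard := (Set.ncard_add_ncard_compl S).symm
  have hcl : clOut M = S.ncard := rfl
  omega

end Pool.Agent.FH
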