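import Pool.Agent.Lib.MP_86abfd_al.Defs
import Pool.Agent.Lib.MP_86abfd_al.Nil
import Pool.Agent.Lib.MP_86abfd_al.Char
import Pool.Agent.Lib.MP_86abfd_al.VanishOff

namespace Pool.Agent.FH

/-- the zeros of the character table -/
def zeroSet (G : Type) [Group G] : Set ((G → ℂ) × ConjClasses G) :=
  {p | p.1 ∈ IrrChar G ∧ ∀ g ∈ p.2.carrier, p.1 g = 0}

theorem F_zeroSet_finite (G : Type) [Group G] [Finite G] : (zeroSet G).Finite := by
  refine ((irrChar_finite G).prod (Set.finite_univ (α := ConjClasses G))).subset ?_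
  rintro p hp
  exact ⟨hp.1, Set.mem_univ _⟩

/-- the zeros counted class by class -/
theorem F_sum_zer (G : Type) [Group G] [Finite G] [Fintype (ConjClasses G)] :
    ∑ K : ConjClasses G, zer (Quotient.out K) = (zeroSet G).ncard := by
  classical
  have hfin : ∀ K : ConjClasses G, {χ ∈ IrrChar G | χ (Quotient.out K) = 0}.Finite := fun K =>
    (irrChar_finite G).subset fun χ h => h.1
  have h1 : (zeroSet G).ncard = (Finset.univ.sigma fun K : ConjClasses G => (hfin K).toFinset).card := by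
    rw [Set.ncard_eq_toFinset_card _ (F_zeroSet_finite G)]
    refine Finset.card_bij' (fun p _ => (⟨p.2, p.1⟩ : Σ _ : ConjClasses G, (G → ℂ)))
      (fun p _ => (p.2, p.1)) ?_ ?_ ?_ ?_
    · rintro ⟨χ, K⟩ hp
      rw [Set.Finite.mem_toFinset] at hp
      rw [Finset.mem_sigma]
      refine ⟨Finset.mem_univ _, ?_⟩
      rw [Set.Finite.mem_toFinset]
      refine ⟨hp.1, hp.2 _ ?_⟩
      rw [ConjClasses.mem_carrier_iff_mk_eq]
      exact Quotient.out_eq K
    · rintro ⟨K, χ⟩ hp
      rw [Finset.mem_sigma, Set.Finite.mem_toFinset] at hp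
      rw [Set.Finite.mem_toFinset]
      refine ⟨hp.2.1, fun g hg => ?_⟩
      rw [ConjClasses.mem_carrier_iff_mk_eq] at hg
      have h2 : ConjClasses.mk (Quotient.out K) = K := Quotient.out_eq K
      have h3 : IsConj g (Quotient.out K) := by
        rw [← ConjClasses.mk_eq_mk_iff_isConj, h2]
        exact hg
      exact (X_isConj hp.2.1 h3).trans hp.2.2
    · intro p _; rfl
    · intro p _; rfl
  rw [h1, Finset.card_sigma]
  refine Finset.sum_congr rfl fun K _ => ?_
  rw [← Set.ncard_eq_toFinset_card _ (hfin K)]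
  rfl

/-- the second count -/
theorem F_mul_le (G : Type) [Group G] [Finite G] (M : Subgroup G) [hM : M.Normal] :
    {χ ∈ IrrChar G | ∀ g, g ∉ M → χ g = 0}.ncard * clOut M ≤ (zeroSet G).ncard := by
  rw [clOut, ← Set.ncard_prod]
  refine Set.ncard_le_ncard ?_ (F_zeroSet_finite G)
  rintro ⟨χ, K⟩ ⟨hχ, hK⟩
  obtain ⟨g, hg, rfl⟩ := hK
  refine ⟨hχ.1, fun g' hg' => hχ.2 g' ?_⟩
  rw [ConjClasses.mem_carrier_iff_mk_eq, ConjClasses.mk_eq_mk_iff_isConj] at hg'
  intro hg'M
  apply hg
  obtain ⟨c, hc⟩ := isConj_iff.1 hg'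
  have hc' : c * g' * c⁻¹ = g := hc
  rw [← hc']
  exact hM.conj_mem g' hg'M c

theorem final_of (hW : ∃ c : ℕ, ∀ (G : Type) [Group G] [Finite G] [Group.IsSolvable G] (g : G),
    g ∈ Rr (⊥ : Subgroup G) (c + 2 * zer g + 1)) :
    ∃ c : ℝ, ∀ (G : Type) [Group G] [Finite G] [Group.IsSolvable G],
      ∃ n : ℕ, Rr (⊥ : Subgroup G) n = ⊤ ∧
        (n : ℝ) ≤ c + 10 * (((zeroSet G).ncard : ℝ) / (Nat.card (ConjClasses G) : ℝ)) := by
  classical
  obtain ⟨c, hc⟩ := hW
  refine ⟨(c : ℝ) + 1, fun G _ _ _ => ?_⟩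
  have : Fintype (ConjClasses G) := Fintype.ofFinite _
  set p := (zeroSet G).ncard with hp
  set k := Nat.card (ConjClasses G) with hk
  have hk1 : 0 < k := Nat.card_pos
  set y := 4 * p / k with hy
  have hMn : (Rr (⊥ : Subgroup G) (c + 2 * y + 1)).Normal := Rr_normal _ _
  set M := Rr (⊥ : Subgroup G) (c + 2 * y + 1) with hM
  set b := clOut M with hb
  -- the bad classes
  have hbad : b * (4 * p) ≤ k * p ∧ (p = 0 → b = 0) := by
    let B : Finset (ConjClasses G) := Finset.univ.filter fun K => y < zer (Quotient.out K)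
    have hbB : b ≤ B.card := by
      rw [hb, clOut, ← Set.ncard_coe_finset]
      refine Set.ncard_le_ncard ?_ (Set.toFinite _)
      rintro K ⟨g, hg, rfl⟩
      rw [Finset.mem_coe, Finset.mem_filter]
      refine ⟨Finset.mem_univ _, ?_⟩
      by_contra hle
      push Not at hle
      apply hg
      have h1 := hc G (Quotient.out (ConjClasses.mk g))
      have h2 : Quotient.out (ConjClasses.mk g) ∈ M :=
        Rr_mono _ (by omega) h1
      have h3 : IsConj (Quotient.out (ConjClasses.mk g)) g := by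
        rw [← ConjClasses.mk_eq_mk_iff_isConj]
        exact Quotient.out_eq (ConjClasses.mk g)
      obtain ⟨d, hd⟩ := isConj_iff.1 h3
      rw [← hd]
      exact hMn.conj_mem _ h2 d
    have hsum : ∑ K ∈ B, zer (Quotient.out K) ≤ p := by
      rw [hp, ← F_sum_zer]
      exact Finset.sum_le_sum_of_subset (Finset.subset_univ _)
    have hlt : ∀ K ∈ B, 4 * p ≤ k * zer (Quotient.out K) := by
      intro K hK
      have h1 := (Finset.mem_filter.1 hK).2
      have h2 : 4 * p < k * (y + 1) := by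
        rw [hy]
        exact Nat.lt_mul_div_succ (4 * p) hk1
      exact h2.le.trans (Nat.mul_le_mul_left _ h1)
    constructor
    · calc b * (4 * p) ≤ B.card * (4 * p) := Nat.mul_le_mul_right _ hbB
        _ = ∑ K ∈ B, 4 * p := by rw [Finset.sum_const, smul_eq_mul]
        _ ≤ ∑ K ∈ B, k * zer (Quotient.out K) := Finset.sum_le_sum hlt
        _ = k * ∑ K ∈ B, zer (Quotient.out K) := by rw [Finset.mul_sum]
        _ ≤ k * p := Nat.mul_le_mul_left _ hsum
    · intro hp0
      have h1 : B.card ≤ ∑ K ∈ B, zer (Quotient.out K) := by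
        rw [Finset.card_eq_sum_ones]
        refine Finset.sum_le_sum fun K hK => ?_
        exact Nat.lt_of_le_of_lt (Nat.zero_le _) (Finset.mem_filter.1 hK).2
      omega
  have hbk : 4 * b ≤ k := by
    rcases Nat.eq_zero_or_pos p with h0 | h0
    · rw [hbad.2 h0]; omega
    · have h1 := hbad.1
      have h2 : (4 * b) * p ≤ k * p := by
        calc (4 * b) * p = b * (4 * p) := by ring
          _ ≤ k * p := h1
      exact Nat.le_of_mul_le_mul_right h2 h0
  have hv := vanish_off G M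
  set v := {χ ∈ IrrChar G | ∀ g, g ∉ M → χ g = 0}.ncard with hvdef
  have hkv : k ≤ 2 * v := by
    have : k ≤ v + 2 * b := hv
    omega
  have hvb : v * b ≤ p := F_mul_le G M
  have hkb : k * b ≤ 2 * p := by
    calc k * b ≤ 2 * v * b := Nat.mul_le_mul_right _ hkv
      _ = 2 * (v * b) := by ring
      _ ≤ 2 * p := Nat.mul_le_mul_left _ hvb
  refine ⟨c + 2 * y + 1 + b, ?_, ?_⟩
  · rw [← Rr_add]
    exact Rr_clOut M
  · have hkR : (0 : ℝ) < k := by exact_mod_cast hk1
    have h1 : (y : ℝ) ≤ 4 * ((p : ℝ) / k) := by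
      have h2 : y * k ≤ 4 * p := Nat.div_mul_le_self _ _
      have h3 : (y : ℝ) * k ≤ 4 * p := by exact_mod_cast h2
      rw [← mul_div_assoc, le_div_iff₀ hkR]
      exact h3
    have h2 : (b : ℝ) ≤ 2 * ((p : ℝ) / k) := by
      have h3 : (k : ℝ) * b ≤ 2 * p := by exact_mod_cast hkb
      rw [← mul_div_assoc, le_div_iff₀ hkR, mul_comm]
      exact h3
    push_cast
    linarith

end Pool.Agent.FH
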