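import Mathlib
import Pool.Agent.Lib.MP_86abfd_al.Defs
import Pool.Agent.Lib.MP_86abfd_al.Nil

/-!
# MP_86abfd_al, piece N2: relative nilpotency and Mathlib's nilpotency
-/

namespace Pool.Agent.FH

section N2
variable {G : Type*} [Group G]

theorem N_lcs_eq (K : Subgroup G) (n : ℕ) : K.lowerCentralSeries n = lc K n := by
  induction n with
  | zero => rfl
  | succ n ih =>
    show ⁅K.lowerCentralSeries n, K⁆ = ⁅lc K n, K⁆
    rw [ih]

/-- N2 (file Height.lean) -/
theorem isNilpotent_of_relNil (M L : Subgroup G) [M.Normal] (h : RelNil M L) :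
    Group.IsNilpotent (L.map (QuotientGroup.mk' M)) := by
  obtain ⟨n, hn⟩ := h.map (QuotientGroup.mk' M)
  rw [QuotientGroup.map_mk'_self, le_bot_iff, ← N_lcs_eq] at hn
  exact Subgroup.isNilpotent_iff_lowerCentralSeries _ |>.2 ⟨n, hn⟩

end N2

end Pool.Agent.FH
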