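import Mathlib
import Pool.Agent.Lib.MP_86abfd_al.Defs

/-!
# MP_86abfd_al, piece I1: a minimal system of imprimitivity
-/

namespace Pool.Agent.FH

open scoped Pointwise
open MulAction

section I1

variable {G : Type*} [Group G] {V : Type*} [AddCommGroup V] [DistribMulAction G V]

theorem I1_smul_iSup {ι : Sort*} (g : G) (f : ι → AddSubgroup V) :
    g • (⨆ i, f i) = ⨆ i, g • f i :=
  AddSubgroup.map_iSup (DistribMulAction.toAddMonoidEnd G V g : V →+ V) f

theorem I1_eq_top (hirr : Irred G V) {U : AddSubgroup V} (h0 : U ≠ ⊥)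
    (hU : ∀ g : G, g • U ≤ U) : U = ⊤ :=
  (hirr.2 U fun g u hu => hU g (AddSubgroup.smul_mem_pointwise_smul u g U hu)).resolve_left h0

theorem I1_iSup_orbit (hirr : Irred G V) {U : AddSubgroup V} (h0 : U ≠ ⊥) :
    ⨆ g : G, g • U = ⊤ := by
  refine I1_eq_top hirr ?_ fun g => ?_
  · intro h
    refine h0 (eq_bot_iff.2 ?_)
    rw [← h]
    exact (le_of_eq (one_smul G U).symm).trans (le_iSup (fun g : G => g • U) 1)
  · rw [I1_smul_iSup]
    refine iSup_le fun h => ?_
    rw [smul_smul]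
    exact le_iSup (fun g : G => g • U) (g * h)

theorem I1_system_eq_orbit (hirr : Irred G V) {𝒲 : Set (AddSubgroup V)} (hS : IsSystem G V 𝒲)
    {W : AddSubgroup V} (hW : W ∈ 𝒲) : orbit G W = 𝒲 := by
  obtain ⟨hbot, hind, hsup, hst⟩ := hS
  have hsub : orbit G W ⊆ 𝒲 := by
    rintro _ ⟨g, rfl⟩
    exact hst g W hW
  refine Set.Subset.antisymm hsub fun W' hW' => ?_
  by_contra hn
  have h1 := hind.disjoint_sSup hW' hsub hn
  have h2 : sSup (orbit G W) = ⊤ := by
    rw [← I1_iSup_orbit hirr (hbot W hW)]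
    exact sSup_range
  rw [h2, disjoint_top] at h1
  exact hbot W' hW' h1

variable {W : AddSubgroup V}

/-- the sum of a set of translates of `W` -/
def I1_sum (C : Set (orbit G W)) : AddSubgroup V := ⨆ ω ∈ C, (ω : AddSubgroup V)

theorem I1_smul_sum (g : G) (C : Set (orbit G W)) : g • I1_sum C = I1_sum (g • C) := by
  unfold I1_sum
  rw [I1_smul_iSup]
  simp_rw [I1_smul_iSup]
  apply le_antisymm
  · refine iSup₂_le fun ω hω => ?_
    refine le_iSup₂_of_le (g • ω) (Set.smul_mem_smul_set hω) ?_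
    exact le_rfl
  · refine iSup₂_le fun ω hω => ?_
    obtain ⟨ω', hω', rfl⟩ := hω
    refine le_iSup₂_of_le ω' hω' ?_
    exact le_rfl

theorem I1_le_sum {C : Set (orbit G W)} {ω : orbit G W} (h : ω ∈ C) :
    (ω : AddSubgroup V) ≤ I1_sum C := le_iSup₂_of_le ω h le_rfl

theorem I1_sum_mono {C D : Set (orbit G W)} (h : C ⊆ D) : I1_sum C ≤ I1_sum D :=
  biSup_mono fun _ hi => h hi

end I1

section I1b

variable {G : Type} [Group G] [Finite G] {V : Type} [AddCommGroup V] [Finite V]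
  [DistribMulAction G V]

theorem exists_block (hirr : Irred G V) (hp : ¬ Prim G V) : ∃ W : AddSubgroup V, Block G W := by
  classical
  have hex : ∃ n : ℕ, ∃ 𝒲 : Set (AddSubgroup V), IsSystem G V 𝒲 ∧ 𝒲.Nontrivial ∧ 𝒲.ncard = n := by
    unfold Prim at hp
    push Not at hp
    obtain ⟨𝒲, h1, h2⟩ := hp
    exact ⟨_, 𝒲, h1, h2, rfl⟩
  obtain ⟨𝒲, hS, hnt, hcard⟩ := Nat.find_spec hex
  have hmin : ∀ 𝒲' : Set (AddSubgroup V), IsSystem G V 𝒲' → 𝒲'.Nontrivial →
      𝒲.ncard ≤ 𝒲'.ncard := by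
    intro 𝒲' h1 h2
    rw [hcard]
    exact Nat.find_min' hex ⟨𝒲', h1, h2, rfl⟩
  obtain ⟨W, hW⟩ := hnt.nonempty
  have horb : orbit G W = 𝒲 := I1_system_eq_orbit hirr hS hW
  obtain ⟨hbot, hind, hsup, hst⟩ := hS
  have hWbot : W ≠ ⊥ := hbot W hW
  rw [← horb] at hind hsup hmin hnt
  have hind' : iSupIndep (fun ω : orbit G W => (ω : AddSubgroup V)) := (sSupIndep_iff _).1 hind
  have hsup' : ⨆ ω : orbit G W, (ω : AddSubgroup V) = ⊤ := by
    rw [← hsup, sSup_eq_iSup']
  have hωbot : ∀ ω : orbit G W, (ω : AddSubgroup V) ≠ ⊥ := fun ω => hbot _ (horb ▸ ω.2)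
  refine ⟨W, hWbot, ?_, hind, hsup, ?_, ?_⟩
  · -- ne_top
    intro htop
    obtain ⟨W', hW', hne⟩ := hnt.exists_ne W
    have := hind.pairwiseDisjoint hW' (mem_orbit_self W) hne
    simp only [Function.onFun, id_eq, htop, disjoint_top] at this
    exact hωbot ⟨W', hW'⟩ this
  · -- primitive
    refine ⟨fun {B} hB => ?_⟩
    by_contra hcon
    unfold IsTrivialBlock at hcon
    push Not at hcon
    obtain ⟨hB1, hB2⟩ := hcon
    have hBne : B.Nonempty := hB1.nonempty
    have hcover : ∀ ω : orbit G W, ∃ g : G, ω ∈ g • B := by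
      intro ω
      obtain ⟨ω₀, hω₀⟩ := hBne
      obtain ⟨g, hg⟩ := exists_smul_eq G ω₀ ω
      exact ⟨g, hg ▸ Set.smul_mem_smul_set hω₀⟩
    have hne : ∀ g : G, I1_sum (g • B) ≠ ⊥ := by
      intro g h
      obtain ⟨ω₀, hω₀⟩ := hBne
      have := I1_le_sum (Set.smul_mem_smul_set (a := g) hω₀)
      rw [h, le_bot_iff] at this
      exact hωbot _ this
    have hdisj : ∀ C D : Set (orbit G W), Disjoint C D → Disjoint (I1_sum C) (I1_sum D) :=
      fun C D h => hind'.disjoint_biSup_biSup' h C.toFinite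
    let 𝒲' : Set (AddSubgroup V) := (fun C : Set (orbit G W) => I1_sum C) '' (orbit G B)
    have hS' : IsSystem G V 𝒲' := by
      refine ⟨?_, ?_, ?_, ?_⟩
      · rintro _ ⟨_, ⟨g, rfl⟩, rfl⟩
        exact hne g
      · rintro _ ⟨_, ⟨g, rfl⟩, rfl⟩
        have hle : sSup (𝒲' \ {I1_sum (g • B)}) ≤ I1_sum (g • B)ᶜ := ?_
        · exact (hdisj (g • B) (g • B)ᶜ disjoint_compl_right).mono_right hle
        refine sSup_le ?_
        rintro _ ⟨⟨_, ⟨h, rfl⟩, rfl⟩, hne'⟩
        refine I1_sum_mono ?_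
        rw [Set.subset_compl_iff_disjoint_right]
        refine hB fun heq => hne' ?_
        simp only [Set.mem_singleton_iff]
        exact congrArg I1_sum heq
      · rw [eq_top_iff, ← hsup']
        refine iSup_le fun ω => ?_
        obtain ⟨g, hg⟩ := hcover ω
        refine (I1_le_sum hg).trans (le_sSup ?_)
        exact ⟨g • B, ⟨g, rfl⟩, rfl⟩
      · rintro g _ ⟨_, ⟨h, rfl⟩, rfl⟩
        refine ⟨(g * h) • B, ⟨g * h, rfl⟩, ?_⟩
        simp only
        rw [I1_smul_sum, smul_smul]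
    have hnt' : 𝒲'.Nontrivial := by
      obtain ⟨ω, hω⟩ := (Set.ne_univ_iff_exists_notMem B).1 hB2
      obtain ⟨g, hg⟩ := hcover ω
      refine ⟨I1_sum ((1 : G) • B), ⟨_, ⟨1, rfl⟩, rfl⟩, I1_sum (g • B), ⟨_, ⟨g, rfl⟩, rfl⟩, ?_⟩
      intro heq
      have hdj : Disjoint ((1 : G) • B) (g • B) := by
        refine hB fun h => hω ?_
        rw [one_smul] at h
        rw [h]
        exact hg
      have := hdisj _ _ hdj
      rw [heq, disjoint_self] at this
      exact hne g this
    have hlt : 𝒲'.ncard < (orbit G W).ncard := by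
      have h1 : 𝒲'.ncard ≤ (orbit G B).ncard := Set.ncard_image_le (Set.toFinite _)
      have h2 := hB.ncard_block_mul_ncard_orbit_eq hBne
      have h3 : 1 < B.ncard := Set.one_lt_ncard_iff_nontrivial.2 hB1
      have h4 : 0 < (orbit G B).ncard :=
        (Set.ncard_pos (Set.toFinite _)).2 ⟨B, mem_orbit_self B⟩
      rw [← Nat.card_coe_set_eq (orbit G W), ← h2]
      refine lt_of_le_of_lt h1 ?_
      nlinarith
    exact absurd (hmin 𝒲' hS' hnt') (not_le.2 hlt)
  · -- irreducible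
    refine ⟨?_, fun U hU => ?_⟩
    · exact (AddSubgroup.nontrivial_iff_ne_bot W).2 hWbot
    · by_cases hU0 : U = ⊥
      · exact Or.inl hU0
      right
      set U' : AddSubgroup V := U.map W.subtype with hU'
      have hU'W : U' ≤ W := by
        rintro _ ⟨u, -, rfl⟩
        exact u.2
      have hU'0 : U' ≠ ⊥ := by
        intro h
        exact hU0 ((AddSubgroup.map_eq_bot_iff_of_injective U W.subtype_injective).1 h)
      have hstab : ∀ h : G, h ∈ stabilizer G W → h • U' ≤ U' := by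
        rintro h hh _ ⟨_, ⟨u, hu, rfl⟩, rfl⟩
        refine ⟨(⟨h, hh⟩ : stabilizer G W) • u, hU _ u hu, rfl⟩
      let s : orbit G W → AddSubgroup V := fun ω => (Classical.choose ω.2) • U'
      have hspec : ∀ ω : orbit G W, (Classical.choose ω.2) • W = (ω : AddSubgroup V) :=
        fun ω => Classical.choose_spec ω.2
      have hs : ∀ g : G, g • U' ≤ s ⟨g • W, ⟨g, rfl⟩⟩ := by
        intro g
        have h1 := hspec ⟨g • W, ⟨g, rfl⟩⟩
        set c : G := Classical.choose (⟨g • W, ⟨g, rfl⟩⟩ : orbit G W).2 with hc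
        have h2 : c⁻¹ * g ∈ stabilizer G W := by
          rw [mem_stabilizer_iff, mul_smul, inv_smul_eq_iff]
          exact h1.symm
        have h3 := hstab _ h2
        have h4 : c • ((c⁻¹ * g) • U') ≤ c • U' :=
          AddSubgroup.pointwise_smul_le_pointwise_smul_iff.2 h3
        rwa [smul_smul, mul_inv_cancel_left] at h4
      have hle : s ≤ fun ω : orbit G W => (ω : AddSubgroup V) := by
        intro ω
        have h5 : (Classical.choose ω.2) • U' ≤ (Classical.choose ω.2) • W :=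
          AddSubgroup.pointwise_smul_le_pointwise_smul_iff.2 hU'W
        rw [hspec ω] at h5
        exact h5
      have htop : iSup s = ⊤ := by
        rw [eq_top_iff, ← I1_iSup_orbit hirr hU'0]
        refine iSup_le fun g => ?_
        exact (hs g).trans (le_iSup s _)
      have heq := (hind'.le_iff_eq_of_iSup_eq_top htop).1 hle
      have h6 := congrFun heq ⟨W, mem_orbit_self W⟩
      have h7 : (Classical.choose (⟨W, mem_orbit_self W⟩ : orbit G W).2) ∈ stabilizer G W :=
        hspec ⟨W, mem_orbit_self W⟩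
      have h8 : W ≤ U' := by
        have h9 := hstab _ h7
        exact (le_of_eq h6.symm).trans h9
      rw [eq_top_iff]
      intro w _
      obtain ⟨u, hu, huw⟩ := h8 w.2
      have : u = w := Subtype.ext huw
      exact this ▸ hu

end I1b

end Pool.Agent.FH
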