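import Pool.Agent.Lib.MP_86abfd_al.Defs
import Pool.Agent.Lib.MP_86abfd_al.Nil

/-!
# MP_86abfd_al, piece I2: vectors from colourings in an imprimitive module
-/

namespace Pool.Agent.FH

open scoped Pointwise

section I2
variable {G : Type*} [Group G] {V : Type*} [AddCommGroup V] [DistribMulAction G V]

/-- uniqueness of components in a direct decomposition -/
theorem I2_unique {ι : Type*} [Fintype ι] [DecidableEq ι] {p : ι → AddSubgroup V}
    (hp : iSupIndep p) {x y : ι → V} (hx : ∀ i, x i ∈ p i) (hy : ∀ i, y i ∈ p i)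
    (h : ∑ i, x i = ∑ i, y i) : x = y := by
  funext i
  have h1 : x i - y i ∈ p i := sub_mem (hx i) (hy i)
  have h2 : x i - y i ∈ ⨆ j ≠ i, p j := by
    have h3 : x i - y i = ∑ j ∈ Finset.univ.erase i, (y j - x j) := by
      have h4 := Finset.add_sum_erase Finset.univ x (Finset.mem_univ i)
      have h5 := Finset.add_sum_erase Finset.univ y (Finset.mem_univ i)
      rw [Finset.sum_sub_distrib]
      rw [h] at h4
      rw [← h5] at h4
      rw [sub_eq_sub_iff_add_eq_add, h4]
      abel
    rw [h3]
    refine sum_mem fun j hj => ?_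
    have hj' : j ≠ i := (Finset.mem_erase.1 hj).1
    exact AddSubgroup.mem_iSup_of_mem j
      (AddSubgroup.mem_iSup_of_mem hj' (sub_mem (hy j) (hx j)))
  have h6 := (hp i).le_bot ⟨h1, h2⟩
  exact sub_eq_zero.1 ((AddSubgroup.mem_bot).1 h6)

/-- a group element carrying `W` to a given member of its orbit -/
noncomputable def I2_t {W : AddSubgroup V} (o : MulAction.orbit G W) : G :=
  Classical.choose o.2

theorem I2_t_smul {W : AddSubgroup V} (o : MulAction.orbit G W) :
    (I2_t o) • W = (o : AddSubgroup V) := Classical.choose_spec o.2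

theorem I2_mem {W : AddSubgroup V} (g : G) (o : MulAction.orbit G W) :
    (I2_t (g • o))⁻¹ * g * I2_t o ∈ MulAction.stabilizer G W := by
  rw [MulAction.mem_stabilizer_iff, mul_smul, mul_smul, I2_t_smul, inv_smul_eq_iff, I2_t_smul]
  rfl

/-- the vector with components `t_o • f o` -/
noncomputable def I2_vec {W : AddSubgroup V} [Fintype (MulAction.orbit G W)]
    (f : MulAction.orbit G W → W) : V := ∑ o, I2_t o • (f o : V)

theorem I2_comp_mem {W : AddSubgroup V} (f : MulAction.orbit G W → W) (o : MulAction.orbit G W) :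
    I2_t o • (f o : V) ∈ (o : AddSubgroup V) := by
  have := AddSubgroup.smul_mem_pointwise_smul (f o : V) (I2_t o) W (f o).2
  rwa [I2_t_smul] at this

theorem I2_smul_vec {W : AddSubgroup V} [Fintype (MulAction.orbit G W)]
    (hW : sSupIndep (MulAction.orbit G W : Set (AddSubgroup V)))
    {g : G} {f f' : MulAction.orbit G W → W} (h : g • I2_vec f = I2_vec f')
    (o : MulAction.orbit G W) :
    (⟨_, I2_mem g o⟩ : MulAction.stabilizer G W) • f o = f' (g • o) := by
  classical
  have hind : iSupIndep (fun o : MulAction.orbit G W => (o : AddSubgroup V)) :=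
    (sSupIndep_iff _).1 hW
  have h1 : g • I2_vec f = ∑ o : MulAction.orbit G W,
      g • I2_t (g⁻¹ • o) • (f (g⁻¹ • o) : V) := by
    rw [I2_vec, Finset.smul_sum]
    exact (Equiv.sum_comp (MulAction.toPerm g⁻¹)
      (fun o : MulAction.orbit G W => g • I2_t o • (f o : V))).symm
  rw [h1, I2_vec] at h
  have h2 := I2_unique hind (x := fun o => g • I2_t (g⁻¹ • o) • (f (g⁻¹ • o) : V))
    (y := fun o => I2_t o • (f' o : V)) ?_ (fun o => I2_comp_mem f' o) h
  · have h3 := congrFun h2 (g • o)
    simp only [inv_smul_smul] at h3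
    apply Subtype.ext
    rw [blockAction_coe]
    show ((I2_t (g • o))⁻¹ * g * I2_t o) • (f o : V) = _
    rw [mul_smul, mul_smul, h3, inv_smul_smul]
  · intro o
    have h4 := AddSubgroup.smul_mem_pointwise_smul _ g _ (I2_comp_mem f (g⁻¹ • o))
    have h5 : g • ((g⁻¹ • o : MulAction.orbit G W) : AddSubgroup V) = (o : AddSubgroup V) := by
      have : ((g • (g⁻¹ • o) : MulAction.orbit G W) : AddSubgroup V) = (o : AddSubgroup V) := by
        rw [smul_inv_smul]
      exact this
    rwa [h5] at h4

end I2

section I2fin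

variable {G : Type} [Group G] [Finite G] {V : Type} [AddCommGroup V] [Finite V]
  [DistribMulAction G V]

theorem nOrb_block {W : AddSubgroup V} (hW : Block G W) :
    nOrb (MulAction.stabilizer G W) W + 1 ≤ nOrb G V := by
  classical
  have : Fintype (MulAction.orbit G W) := Fintype.ofFinite _
  have : Finite (MulAction.orbitRel.Quotient (MulAction.stabilizer G W) W) :=
    Quotient.finite _
  have : Finite (MulAction.orbitRel.Quotient G V) := Quotient.finite _
  set o₀ : MulAction.orbit G W := ⟨W, MulAction.mem_orbit_self W⟩ with ho₀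
  obtain ⟨o₁, ho₁⟩ : ∃ o₁ : MulAction.orbit G W, o₁ ≠ o₀ := by
    by_contra hcon
    push Not at hcon
    apply hW.ne_top
    rw [eq_top_iff, ← hW.sup]
    refine sSup_le fun b hb => ?_
    have := hcon ⟨b, hb⟩
    rw [ho₀, Subtype.mk.injEq] at this
    exact this.le
  obtain ⟨u₀, hu₀⟩ : ∃ u₀ : W, u₀ ≠ 0 := by
    have := AddSubgroup.ne_bot_iff_exists_ne_zero.1 hW.ne_bot
    exact this
  let Φ : Option (MulAction.orbitRel.Quotient (MulAction.stabilizer G W) W) →
      MulAction.orbitRel.Quotient G V := fun q => match q with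
    | none => Quotient.mk _ (I2_vec (fun o : MulAction.orbit G W => if o = o₀ then 0 else u₀))
    | some q => Quotient.mk _ (I2_vec (fun _ : MulAction.orbit G W => q.out))
  have key : ∀ u : W, ¬ ∃ g : G, g • I2_vec (fun o => if o = o₀ then 0 else u₀) =
      I2_vec (G := G) (fun _ : MulAction.orbit G W => u) := by
    rintro u ⟨g, hg⟩
    have h0 := I2_smul_vec hW.indep hg o₀
    have h1 := I2_smul_vec hW.indep hg o₁
    simp only [if_true, smul_zero, if_neg ho₁] at h0 h1
    rw [← h0] at h1
    exact hu₀ ((smul_eq_zero_iff_eq _).1 h1)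
  have hinj : Function.Injective Φ := by
    rintro (_ | q) (_ | q') h
    · rfl
    · exfalso
      have h' := Quotient.exact h
      obtain ⟨g, hg⟩ := (MulAction.orbitRel_apply.1 h')
      apply key q'.out
      refine ⟨g⁻¹, ?_⟩
      rw [← hg]
      simp
    · exfalso
      have h' := Quotient.exact h
      obtain ⟨g, hg⟩ := (MulAction.orbitRel_apply.1 h')
      exact key q.out ⟨g, hg⟩
    · have h' := Quotient.exact h
      obtain ⟨g, hg⟩ := (MulAction.orbitRel_apply.1 h')
      have h1 := I2_smul_vec hW.indep hg o₀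
      congr 1
      rw [← Quotient.out_eq q, ← Quotient.out_eq q']
      exact Quotient.sound ⟨_, h1⟩
  have hcard := Nat.card_le_card_of_injective Φ hinj
  rw [Finite.card_option] at hcard
  exact hcard

/-- members of the series `L i` in the blueprint -/
theorem I2_core_le (W : AddSubgroup V)
    (hsup : sSup (MulAction.orbit G W : Set (AddSubgroup V)) = ⊤) (i : ℕ) :
    ((Rr (actKer (MulAction.stabilizer G W) W) i).map
      (MulAction.stabilizer G W).subtype).normalCore ≤ Rr (actKer G V) i := by
  refine chain_le_Rr (fun i => ((Rr (actKer (MulAction.stabilizer G W) W) i).map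
      (MulAction.stabilizer G W).subtype).normalCore) (fun i => Subgroup.normalCore_normal _)
      ?_ (fun i => ?_) i
  · intro g hg
    rw [mem_actKer]
    intro v
    let F : AddSubgroup V :=
      { carrier := {v | g • v = v}
        add_mem' := fun {a b} ha hb => by
          simp only [Set.mem_ofPred_eq] at ha hb ⊢; rw [smul_add, ha, hb]
        zero_mem' := smul_zero g
        neg_mem' := fun {a} ha => by simp only [Set.mem_ofPred_eq] at ha ⊢; rw [smul_neg, ha] }
    have hF : sSup (MulAction.orbit G W : Set (AddSubgroup V)) ≤ F := by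
      refine sSup_le ?_
      rintro _ ⟨x, rfl⟩ v hv
      simp only at hv
      rw [AddSubgroup.mem_pointwise_smul_iff_inv_smul_mem] at hv
      have h1 : x⁻¹ * g * x⁻¹⁻¹ ∈ (actKer (MulAction.stabilizer G W) W).map
        (MulAction.stabilizer G W).subtype := hg x⁻¹
      obtain ⟨h, hh, hhe⟩ := h1
      have h2 := mem_actKer.1 hh ⟨x⁻¹ • v, hv⟩
      have h3 := congrArg Subtype.val h2
      rw [blockAction_coe] at h3
      simp only at h3
      have h4 : (h : G) = x⁻¹ * g * x := by simpa using hhe
      rw [h4, mul_smul, mul_smul, smul_inv_smul] at h3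
      exact smul_left_cancel _ h3
    exact hF (by rw [hsup]; trivial)
  · have : (Rr (actKer (MulAction.stabilizer G W) W) i).Normal := Rr_normal _ i
    exact ((fitOver_relNil (Rr (actKer (MulAction.stabilizer G W) W) i)).map _).normalCore

/-- vectors from colourings -/
theorem goodOrbits_of_colorings {W : AddSubgroup V} (hW : Block G W)
    {k q c : ℕ} (hcol : ManyColorings G (MulAction.orbit G W) k q)
    (hq : GoodOrbits (MulAction.stabilizer G W) W q c) : GoodOrbits G V k c := by
  classical
  have : Fintype (MulAction.orbit G W) := Fintype.ofFinite _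
  obtain ⟨F, hF1, hF2⟩ := hcol
  obtain ⟨w, hw1, hw2⟩ := hq
  have hcomp : ∀ i j, ∀ g : G, g • I2_vec (fun o => w (F i o)) = I2_vec (fun o => w (F j o)) →
      ∀ o, F j (g • o) = F i o := by
    intro i j g hg o
    have h1 := I2_smul_vec hW.indep hg o
    exact (hw2 _ _ ⟨_, h1⟩).symm
  refine ⟨fun i => I2_vec (fun o => w (F i o)), ?_, ?_⟩
  · intro i g hg
    apply I2_core_le W hW.sup c
    have hfix := hF1 i g (hcomp i i g hg)
    have hN : (Rr (actKer (MulAction.stabilizer G W) W) c).Normal := Rr_normal _ c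
    have ht : ∀ o : MulAction.orbit G W, ∃ h ∈ Rr (actKer (MulAction.stabilizer G W) W) c,
        (h : G) = (I2_t o)⁻¹ * g * I2_t o := by
      intro o
      have h1 := I2_smul_vec hW.indep hg o
      simp only [hfix o] at h1
      exact ⟨_, hw1 _ _ h1, by simp [hfix o]⟩
    intro x
    obtain ⟨h, hh, hhe⟩ := ht ⟨x⁻¹ • W, MulAction.mem_orbit _ _⟩
    set o : MulAction.orbit G W := ⟨x⁻¹ • W, MulAction.mem_orbit _ _⟩ with ho
    have hs : x * I2_t o ∈ MulAction.stabilizer G W := by
      rw [MulAction.mem_stabilizer_iff, mul_smul, I2_t_smul, ho, smul_inv_smul]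
    refine ⟨⟨_, hs⟩ * h * ⟨_, hs⟩⁻¹, hN.conj_mem _ hh _, ?_⟩
    simp only [map_mul, map_inv, Subgroup.coe_subtype]
    rw [hhe]
    group
  · rintro i j ⟨g, hg⟩
    exact (hF2 j i ⟨g, hcomp i j g hg⟩).symm

theorem normalCore_le_Rr {W : AddSubgroup V} (hW : Block G W) {m : ℕ}
    (h : Rr (actKer (MulAction.stabilizer G W) W) m = ⊤) :
    (MulAction.stabilizer G W).normalCore ≤ Rr (actKer G V) m := by
  have h1 := I2_core_le W hW.sup m
  rw [h, ← MonoidHom.range_eq_map, Subgroup.range_subtype] at h1
  exact h1

theorem index_normalCore_le {W : AddSubgroup V} :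
    (MulAction.stabilizer G W).normalCore.index ≤
      (Nat.card (MulAction.orbit G W)).factorial := by
  classical
  rw [Subgroup.normalCore_eq_ker, Subgroup.index_ker]
  have h1 : Nat.card (MulAction.orbit G W) = Nat.card (G ⧸ MulAction.stabilizer G W) :=
    Nat.card_congr (MulAction.orbitEquivQuotientStabilizer G W)
  rw [h1, ← Nat.card_perm]
  exact Nat.card_le_card_of_injective _ Subtype.val_injective

end I2fin

end Pool.Agent.FH
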