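import Pool.Agent.Lib.MP_86abfd_al.Defs

/-!
# Primitive modules: many regular orbits, or bounded Fitting height (piece B2)

`prim_good_of` derives `prim_good` from the statements `prim_struct` and `Rr_comap_surj`, which are
passed as hypotheses here so that the files can be compiled independently.
-/

namespace Pool.Agent.FH

/-- the statement of the structure theorem for primitive modules (proved in `Base.lean`) -/
def PrimStruct : Prop :=
  ∀ (G : Type) [Group G] [Finite G] [Group.IsSolvable G] (V : Type)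
    [AddCommGroup V] [Finite V] [DistribMulAction G V] [FaithfulSMul G V],
    Irred G V → Prim G V →
    ∃ q D : ℕ, 2 ≤ q ∧ 1 ≤ D ∧ Nat.card V = q ^ D ∧
      Nat.card G ≤ q ^ 2 * D ^ 2 * (D ^ 2) ^ Nat.log 2 (D ^ 2) ∧
      (∀ g : G, g ≠ 1 → Nat.card (MulAction.fixedBy V g) ^ 4 ≤ Nat.card V ^ 3) ∧
      ∀ t : ℕ, (D ^ 2) ^ Nat.log 2 (D ^ 2) ≤ 2 ^ t → Rr (⊥ : Subgroup G) (t + 3) = ⊤

/-- the compatibility of `Rr` with surjections (proved in `Nil.lean`) -/
def RrComapSurj : Prop :=
  ∀ (G H : Type) [Group G] [Group H] (f : G →* H), Function.Surjective f →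
    ∀ (M : Subgroup H) (n : ℕ), (Rr M n).comap f = Rr (M.comap f) n

/-! ### Numerics -/

theorem primGood_eventually (K : ℕ) : ∃ D₀ : ℕ, ∀ D : ℕ, D₀ ≤ D →
    K + 8 + 4 * (Nat.log 2 (D ^ 2) + 1) ^ 2 ≤ D := by
  have h1 := (Real.isLittleO_pow_log_id_atTop (n := 2)).def (c := (1 : ℝ) / 1000) (by norm_num)
  have h2 := (tendsto_natCast_atTop_atTop (R := ℝ)).eventually h1
  have h3 : ∀ᶠ D : ℕ in Filter.atTop, 2 * (K + 8) + 1000 ≤ D := Filter.eventually_ge_atTop _
  obtain ⟨D₀, h⟩ := Filter.eventually_atTop.1 (h2.and h3)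
  refine ⟨D₀, fun D hD => ?_⟩
  obtain ⟨ha, hb⟩ := h D hD
  have hDpos : (0 : ℝ) < D := by
    have : 0 < D := by omega
    exact_mod_cast this
  have hD1 : (1 : ℝ) ≤ D := by
    have : 1 ≤ D := by omega
    exact_mod_cast this
  simp only [Real.norm_eq_abs, id] at ha
  rw [abs_of_nonneg (by positivity), abs_of_pos hDpos] at ha
  -- the logarithm
  set L := Nat.log 2 (D ^ 2) with hL
  have hlog : (L : ℝ) * Real.log 2 ≤ 2 * Real.log D := by
    have hD0 : 0 < D := by omega
    have h4 : 2 ^ L ≤ D ^ 2 := Nat.pow_log_le_self 2 (by positivity)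
    have h5 : ((2 : ℝ) ^ L) ≤ (D : ℝ) ^ 2 := by exact_mod_cast h4
    have h6 := Real.log_le_log (by positivity) h5
    rwa [Real.log_pow, Real.log_pow] at h6
  have hl2 : (0.69 : ℝ) < Real.log 2 := by
    have := Real.log_two_gt_d9
    linarith
  have hlogD : 0 ≤ Real.log D := Real.log_nonneg hD1
  have hL' : (L : ℝ) ≤ 3 * Real.log D := by
    have : (L : ℝ) * 0.69 ≤ 2 * Real.log D := le_trans (by gcongr) hlog
    nlinarith
  have h7 : ((L : ℝ) + 1) ^ 2 ≤ 18 * Real.log D ^ 2 + 2 := by
    nlinarith [sq_nonneg ((L : ℝ) - 1), sq_nonneg (L : ℝ), mul_self_le_mul_self (Nat.cast_nonneg L) hL']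
  have h8 : (2 * (K + 8) + 1000 : ℝ) ≤ D := by exact_mod_cast hb
  have h9 : ((K : ℝ) + 8 + 4 * (L + 1) ^ 2) ≤ D := by nlinarith
  exact_mod_cast h9

theorem primGood_numeric (k : ℕ) : ∃ D₀ : ℕ, ∀ D : ℕ, D₀ ≤ D → ∀ q : ℕ, 2 ≤ q →
    ((k + 1) * (q ^ 2 * D ^ 2 * (D ^ 2) ^ Nat.log 2 (D ^ 2))) ^ 4 ≤ q ^ D := by
  obtain ⟨D₀, hD₀⟩ := primGood_eventually (4 * (k + 1))
  refine ⟨D₀, fun D hD q hq => ?_⟩
  have h1 := hD₀ D hD
  set L := Nat.log 2 (D ^ 2) with hL
  have h2 : D ^ 2 ≤ 2 ^ (L + 1) := (Nat.lt_pow_succ_log_self (by norm_num) _).le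
  have h3 : k + 1 ≤ 2 ^ (k + 1) := (Nat.lt_two_pow_self).le
  calc ((k + 1) * (q ^ 2 * D ^ 2 * (D ^ 2) ^ L)) ^ 4
      ≤ (2 ^ (k + 1) * (q ^ 2 * 2 ^ (L + 1) * (2 ^ (L + 1)) ^ L)) ^ 4 := by gcongr
    _ = q ^ 8 * 2 ^ (4 * (k + 1) + 4 * (L + 1) ^ 2) := by
        rw [mul_pow, mul_pow, mul_pow, ← pow_mul, ← pow_mul, ← pow_mul, ← pow_mul, ← pow_mul]
        rw [show 4 * (k + 1) + 4 * (L + 1) ^ 2 = (k + 1) * 4 + (L + 1) * 4 + (L + 1) * L * 4 by ring,
          pow_add, pow_add]
        ring
    _ ≤ q ^ 8 * q ^ (4 * (k + 1) + 4 * (L + 1) ^ 2) := by gcongr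
    _ = q ^ (8 + (4 * (k + 1) + 4 * (L + 1) ^ 2)) := by rw [← pow_add]
    _ ≤ q ^ D := Nat.pow_le_pow_right (by omega) (by omega)

/-! ### Counting regular orbits -/

theorem primGood_regular {G : Type} [Group G] [Finite G] {V : Type} [AddCommGroup V] [Finite V]
    [DistribMulAction G V] {k : ℕ}
    (hG : ((k + 1) * Nat.card G) ^ 4 ≤ Nat.card V)
    (hfix : ∀ g : G, g ≠ 1 → Nat.card (MulAction.fixedBy V g) ^ 4 ≤ Nat.card V ^ 3) :
    GoodOrbits G V k 0 := by
  classical
  have := Fintype.ofFinite G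
  have := Fintype.ofFinite V
  have hGpos : 0 < Nat.card G := Nat.card_pos
  have hVpos : 0 < Nat.card V := Nat.card_pos
  -- `m`: the largest number of fixed points of a nontrivial element
  obtain ⟨m, hm1, hm4, hm⟩ : ∃ m : ℕ, 1 ≤ m ∧ m ^ 4 ≤ Nat.card V ^ 3 ∧
      ∀ g : G, g ≠ 1 → Nat.card (MulAction.fixedBy V g) ≤ m := by
    set S : Finset ℕ := insert 1 ((Finset.univ.filter fun g : G => g ≠ 1).image
      fun g => Nat.card (MulAction.fixedBy V g)) with hS
    have hne : S.Nonempty := ⟨1, Finset.mem_insert_self _ _⟩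
    refine ⟨S.max' hne, S.le_max' 1 (Finset.mem_insert_self _ _), ?_, fun g hg => ?_⟩
    · have h1 := S.max'_mem hne
      generalize S.max' hne = m at h1 ⊢
      rw [hS, Finset.mem_insert, Finset.mem_image] at h1
      rcases h1 with h1 | ⟨g, hg, h1⟩
      · rw [h1]
        simpa using Nat.one_le_pow _ _ hVpos
      · rw [← h1]
        exact hfix g (Finset.mem_filter.1 hg).2
    · refine S.le_max' _ (Finset.mem_insert_of_mem (Finset.mem_image.2 ⟨g, ?_, rfl⟩))
      exact Finset.mem_filter.2 ⟨Finset.mem_univ _, hg⟩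
  have hbig : (k + 1) * Nat.card G * m ≤ Nat.card V := by
    have h1 : ((k + 1) * Nat.card G * m) ^ 4 ≤ Nat.card V ^ 4 := by
      rw [mul_pow]
      calc ((k + 1) * Nat.card G) ^ 4 * m ^ 4 ≤ Nat.card V * Nat.card V ^ 3 :=
            Nat.mul_le_mul hG hm4
        _ = Nat.card V ^ 4 := by ring
    exact (Nat.pow_le_pow_iff_left (by norm_num)).1 h1
  -- good and bad vectors
  set Good : Finset V := Finset.univ.filter fun v => ∀ g : G, g • v = v → g = 1 with hGood
  have hcover : (Finset.univ : Finset V) ⊆ Good ∪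
      (Finset.univ.filter fun g : G => g ≠ 1).biUnion
        fun g => Finset.univ.filter fun v => g • v = v := by
    intro v _
    by_cases hv : v ∈ Good
    · exact Finset.mem_union_left _ hv
    · refine Finset.mem_union_right _ ?_
      rw [hGood, Finset.mem_filter] at hv
      push Not at hv
      obtain ⟨g, hg, hg1⟩ := hv (Finset.mem_univ _)
      rw [Finset.mem_biUnion]
      exact ⟨g, by simpa using hg1, by simpa using hg⟩
  have hfixcard : ∀ g : G, g ≠ 1 → (Finset.univ.filter fun v : V => g • v = v).card ≤ m := by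
    intro g hg
    have h1 := hm g hg
    have h2 : (MulAction.fixedBy V g) = ((Finset.univ.filter fun v : V => g • v = v : Finset V) : Set V) := by
      ext v; simp [MulAction.mem_fixedBy]
    rw [h2] at h1
    rwa [Nat.card_coe_set_eq, Set.ncard_coe_finset] at h1
  have hbad : ((Finset.univ.filter fun g : G => g ≠ 1).biUnion
        fun g => Finset.univ.filter fun v : V => g • v = v).card ≤ (Nat.card G - 1) * m := by
    refine (Finset.card_biUnion_le_card_mul _ _ m fun g hg => ?_).trans ?_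
    · exact hfixcard g (Finset.mem_filter.1 hg).2
    · rw [Finset.filter_ne', Finset.card_erase_of_mem (Finset.mem_univ _), Finset.card_univ,
        Nat.card_eq_fintype_card]
  have hgood : k * Nat.card G ≤ Good.card := by
    have h1 := Finset.card_le_card hcover
    have h2 := Finset.card_union_le Good ((Finset.univ.filter fun g : G => g ≠ 1).biUnion
        fun g => Finset.univ.filter fun v : V => g • v = v)
    rw [Finset.card_univ, ← Nat.card_eq_fintype_card] at h1
    have h3 : (Nat.card G - 1) * m + m = Nat.card G * m := by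
      rw [← Nat.succ_mul]; congr 1; omega
    have h4 : (k + 1) * Nat.card G * m = k * Nat.card G * m + Nat.card G * m := by ring
    have h5 : k * Nat.card G ≤ k * Nat.card G * m := Nat.le_mul_of_pos_right _ hm1
    omega
  -- the orbits of the good vectors
  let π : V → MulAction.orbitRel.Quotient G V := Quotient.mk _
  have himg : k ≤ (Good.image π).card := by
    have h1 : Good.card ≤ Nat.card G * (Good.image π).card := by
      refine Finset.card_le_mul_card_image Good (Nat.card G) fun b hb => ?_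
      obtain ⟨v, -, rfl⟩ := Finset.mem_image.1 hb
      have h2 : (Good.filter fun x => π x = π v) ⊆ Finset.univ.image fun g : G => g • v := by
        intro x hx
        have h3 : π x = π v := (Finset.mem_filter.1 hx).2
        have h4 : x ∈ MulAction.orbit G v := Quotient.exact h3
        obtain ⟨g, hg⟩ := h4
        exact Finset.mem_image.2 ⟨g, Finset.mem_univ _, hg⟩
      refine (Finset.card_le_card h2).trans (Finset.card_image_le.trans ?_)
      rw [Finset.card_univ, Nat.card_eq_fintype_card]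
    have h2 : k * Nat.card G ≤ (Good.image π).card * Nat.card G := by
      rw [mul_comm (Good.image π).card]
      exact hgood.trans h1
    exact Nat.le_of_mul_le_mul_right h2 hGpos
  obtain ⟨T, hTsub, hTcard⟩ := Finset.exists_subset_card_eq himg
  have hrep : ∀ c : T, ∃ v ∈ Good, π v = c := by
    intro c
    obtain ⟨v, hv, hvc⟩ := Finset.mem_image.1 (hTsub c.2)
    exact ⟨v, hv, hvc⟩
  choose rep hrep1 hrep2 using hrep
  let e : Fin k ≃ T := (Fintype.equivFinOfCardEq (by simpa using hTcard)).symm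
  refine ⟨fun i => rep (e i), fun i g hg => ?_, fun i j hij => ?_⟩
  · have h1 := hrep1 (e i)
    rw [hGood, Finset.mem_filter] at h1
    rw [h1.2 g hg]
    exact Subgroup.one_mem _
  · have h1 : π (rep (e j)) = π (rep (e i)) := Quotient.sound hij
    rw [hrep2, hrep2] at h1
    exact e.injective (Subtype.ext h1).symm

/-! ### The faithful case -/

theorem primGood_faithful (hstruct : PrimStruct) (k : ℕ) : ∃ c₀ : ℕ, ∀ (G : Type) [Group G] [Finite G] [Group.IsSolvable G]
    (V : Type) [AddCommGroup V] [Finite V] [DistribMulAction G V] [FaithfulSMul G V],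
    Irred G V → Prim G V → GoodOrbits G V k 0 ∨ Rr (⊥ : Subgroup G) c₀ = ⊤ := by
  obtain ⟨D₀, hD₀⟩ := primGood_numeric k
  refine ⟨(D₀ ^ 2) ^ Nat.log 2 (D₀ ^ 2) + 3, ?_⟩
  intro G _ _ _ V _ _ _ _ hirr hp
  obtain ⟨q, D, hq, hD, hV, hG, hfix, ht⟩ := hstruct G V hirr hp
  by_cases h : D₀ ≤ D
  · left
    refine primGood_regular ?_ hfix
    rw [hV]
    refine le_trans ?_ (hD₀ D h q hq)
    gcongr
  · right
    push Not at h
    refine ht _ ?_
    calc (D ^ 2) ^ Nat.log 2 (D ^ 2) ≤ (D₀ ^ 2) ^ Nat.log 2 (D₀ ^ 2) := by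
          have h1 : D ^ 2 ≤ D₀ ^ 2 := Nat.pow_le_pow_left h.le 2
          have h2 : Nat.log 2 (D ^ 2) ≤ Nat.log 2 (D₀ ^ 2) := Nat.log_mono_right h1
          have h3 : 0 < D₀ ^ 2 := by
            have : 0 < D₀ := by omega
            positivity
          exact (Nat.pow_le_pow_left h1 _).trans (Nat.pow_le_pow_right h3 h2)
      _ ≤ 2 ^ ((D₀ ^ 2) ^ Nat.log 2 (D₀ ^ 2)) := (Nat.lt_two_pow_self).le

/-! ### Passage to the faithful quotient -/

section Quot

variable (G : Type) [Group G] (V : Type) [AddCommGroup V] [DistribMulAction G V]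

/-- the image of `G` in the permutations of `V` acts on `V` -/
instance primGood_rangeAction : DistribMulAction (MulAction.toPermHom G V).range V where
  smul_zero := by
    rintro ⟨-, g, rfl⟩
    exact smul_zero g
  smul_add := by
    rintro ⟨-, g, rfl⟩ v w
    exact smul_add g v w

theorem primGood_range_smul (g : G) (v : V) :
    (MulAction.toPermHom G V).rangeRestrict g • v = g • v := rfl

end Quot

open scoped Pointwise in
/-- primitive modules have many regular orbits or bounded Fitting height -/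
theorem prim_good_of (hstruct : PrimStruct) (hsurjRr : RrComapSurj) (k : ℕ) :
    ∃ c₀ : ℕ, ∀ (G : Type) [Group G] [Finite G] [Group.IsSolvable G]
    (V : Type) [AddCommGroup V] [Finite V] [DistribMulAction G V],
    Irred G V → Prim G V → GoodOrbits G V k 0 ∨ Rr (actKer G V) c₀ = ⊤ := by
  obtain ⟨c₀, hc₀⟩ := primGood_faithful hstruct k
  refine ⟨c₀, ?_⟩
  intro G _ _ _ V _ _ _ hirr hp
  have hsurj := (MulAction.toPermHom G V).rangeRestrict_surjective
  set f := (MulAction.toPermHom G V).rangeRestrict with hf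
  have hsm : ∀ (g : G) (v : V), f g • v = g • v := fun g v => rfl
  have hsol : Group.IsSolvable (MulAction.toPermHom G V).range := Group.isSolvable_of_surjective hsurj
  have hker : ∀ g : G, f g = 1 ↔ g ∈ actKer G V := by
    intro g
    rw [← MonoidHom.mem_ker, hf, MonoidHom.ker_rangeRestrict]
    rfl
  have hcomap : (⊥ : Subgroup (MulAction.toPermHom G V).range).comap f = actKer G V := by
    ext g
    rw [Subgroup.mem_comap, Subgroup.mem_bot, hker]
  have hirr' : Irred (MulAction.toPermHom G V).range V := by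
    refine ⟨hirr.1, fun U hU => hirr.2 U fun g u hu => ?_⟩
    rw [← hsm]
    exact hU (f g) u hu
  have hsmW : ∀ (g : G) (W : AddSubgroup V), f g • W = g • W := by
    intro g W
    ext v
    simp only [AddSubgroup.mem_smul_pointwise_iff_exists, hsm]
  have hp' : Prim (MulAction.toPermHom G V).range V := by
    intro 𝒲 h𝒲
    refine hp 𝒲 ⟨h𝒲.1, h𝒲.2.1, h𝒲.2.2.1, fun g W hW => ?_⟩
    rw [← hsmW]
    exact h𝒲.2.2.2 (f g) W hW
  rcases hc₀ (MulAction.toPermHom G V).range V hirr' hp' with ⟨w, hw1, hw2⟩ | h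
  · left
    refine ⟨w, fun i g hg => ?_, fun i j hij => ?_⟩
    · have h1 := hw1 i (f g) (by rw [hsm]; exact hg)
      have h2 : f g = 1 := by
        have h3 : f g ∈ actKer (MulAction.toPermHom G V).range V := h1
        rw [mem_actKer] at h3
        exact (hker g).2 (mem_actKer.2 fun v => by rw [← hsm]; exact h3 v)
      exact (hker g).1 h2
    · obtain ⟨g, hg⟩ := hij
      exact hw2 i j ⟨f g, hg⟩
  · right
    rw [← hcomap, ← hsurjRr _ _ f hsurj, h, Subgroup.comap_top]

end Pool.Agent.FH
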