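import Pool.Agent.Lib.MP_86abfd_al.Nil
import Pool.Agent.Lib.MP_86abfd_al.Color
import Pool.Agent.Lib.MP_86abfd_al.Imprim1
import Pool.Agent.Lib.MP_86abfd_al.Imprim2
import Pool.Agent.Lib.MP_86abfd_al.PrimGood
import Pool.Agent.Lib.MP_86abfd_al.Base4

/-!
# MP_86abfd_al, piece L: the weak large orbit theorem
-/

namespace Pool.Agent.FH

open scoped Pointwise

section L

variable {G : Type} [Group G] {V : Type} [AddCommGroup V] [DistribMulAction G V]

theorem L_goodOrbits_mono {k c c' : ℕ} (h : c ≤ c') (hG : GoodOrbits G V k c) :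
    GoodOrbits G V k c' := by
  obtain ⟨w, h1, h2⟩ := hG
  exact ⟨w, fun i g hg => Rr_mono (actKer G V) h (h1 i g hg), h2⟩

/-- if the ascending series reaches the top then only the number of orbits matters -/
theorem L_goodOrbits_of_top [Finite V] {k c : ℕ} (hk : k ≤ nOrb G V) (h : Rr (actKer G V) c = ⊤) :
    GoodOrbits G V k c := by
  classical
  have : Finite (MulAction.orbitRel.Quotient G V) := Quotient.finite _
  have := Fintype.ofFinite (MulAction.orbitRel.Quotient G V)
  rw [nOrb, Nat.card_eq_fintype_card] at hk
  let e := (Fintype.equivFin (MulAction.orbitRel.Quotient G V)).symm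
  let f : Fin k → MulAction.orbitRel.Quotient G V := fun i => e (Fin.castLE hk i)
  have hf : Function.Injective f := e.injective.comp (Fin.castLE_injective hk)
  refine ⟨fun i => (f i).out, fun i g _ => by rw [h]; exact Subgroup.mem_top g, ?_⟩
  intro i j hij
  apply hf
  have h1 : (Quotient.mk'' (f j).out : MulAction.orbitRel.Quotient G V) =
      Quotient.mk'' (f i).out := by
    apply Quotient.sound'
    exact hij
  rw [Quotient.out_eq', Quotient.out_eq'] at h1
  exact h1.symm

theorem L_two_le_nOrb [Finite V] [Nontrivial V] : 2 ≤ nOrb G V := by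
  classical
  have : Finite (MulAction.orbitRel.Quotient G V) := Quotient.finite _
  obtain ⟨u, hu⟩ := exists_ne (0 : V)
  have : Nontrivial (MulAction.orbitRel.Quotient G V) := by
    refine ⟨⟨Quotient.mk'' 0, Quotient.mk'' u, ?_⟩⟩
    intro h
    have h1 : (MulAction.orbitRel G V) 0 u := Quotient.exact' h
    rw [MulAction.orbitRel_apply] at h1
    obtain ⟨g, hg⟩ := h1
    apply hu
    have hg' : g • u = 0 := hg
    rw [← smul_zero g] at hg'
    exact smul_left_cancel g hg'
  rw [nOrb]
  have := Finite.one_lt_card_iff_nontrivial.2 this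
  omega

theorem L_nontrivial_orbit {W : AddSubgroup V} (hW : Block G W) :
    Nontrivial (MulAction.orbit G W) := by
  by_contra h
  rw [not_nontrivial_iff_subsingleton] at h
  apply hW.ne_top
  rw [← hW.sup]
  apply le_antisymm
  · exact le_sSup (MulAction.mem_orbit_self W)
  · apply sSup_le
    intro W' hW'
    have := h.elim ⟨W', hW'⟩ ⟨W, MulAction.mem_orbit_self W⟩
    exact (congrArg Subtype.val this).le

end L

/-- the primitive case -/
theorem prim_good (k : ℕ) : ∃ c₀ : ℕ, ∀ (G : Type) [Group G] [Finite G] [Group.IsSolvable G]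
    (V : Type) [AddCommGroup V] [Finite V] [DistribMulAction G V],
    Irred G V → Prim G V → GoodOrbits G V k 0 ∨ Rr (actKer G V) c₀ = ⊤ :=
  prim_good_of (fun G _ _ _ V _ _ _ _ hirr hp => prim_struct G V hirr hp)
    (fun _ _ _ _ f hf M n => Rr_comap_surj f hf M n) k

/-- the weak large orbit theorem -/
theorem large_orbit : ∃ c : ℕ, ∀ (G : Type) [Group G] [Finite G] [Group.IsSolvable G]
    (V : Type) [AddCommGroup V] [Finite V] [DistribMulAction G V],
    Irred G V → ∃ v : V, ∀ g : G, g • v = v → g ∈ Rr (actKer G V) c := by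
  classical
  obtain ⟨k₀, hk₀⟩ := many_colorings_many_colors
  obtain ⟨k, hk0, hk1⟩ : ∃ k, k₀ ≤ k ∧ 1 ≤ k := ⟨k₀ + 1, by omega, by omega⟩
  have hmany := hk₀ k hk0
  obtain ⟨n₁, hn₁⟩ := many_colorings_two_colors k
  obtain ⟨c₀, hc₀⟩ := prim_good k
  obtain ⟨c₁, hc₁⟩ : ∃ c₁, ∀ n, n < n₁ → n.factorial ≤ 2 ^ c₁ :=
    ⟨n₁.factorial, fun n hn =>
      (Nat.factorial_le hn.le).trans (Nat.lt_two_pow_self).le⟩
  have claim : ∀ (N : ℕ) (G : Type) [Group G] [Finite G] [Group.IsSolvable G]
      (V : Type) [AddCommGroup V] [Finite V] [DistribMulAction G V], Nat.card V < N →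
      Irred G V → GoodOrbits G V k (c₀ + c₁ * k) ∨
        (nOrb G V < k ∧ Rr (actKer G V) (c₀ + c₁ * (nOrb G V - 2)) = ⊤) := by
    intro N
    induction N with
    | zero => intro G _ _ _ V _ _ _ h; omega
    | succ N ih =>
      intro G _ _ _ V _ _ _ hN hirr
      have : Nontrivial V := hirr.1
      have h2 : 2 ≤ nOrb G V := L_two_le_nOrb
      by_cases hp : Prim G V
      · rcases hc₀ G V hirr hp with h | h
        · exact Or.inl (L_goodOrbits_mono (Nat.zero_le _) h)
        · by_cases hk : nOrb G V < k
          · refine Or.inr ⟨hk, ?_⟩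
            rw [eq_top_iff, ← h]
            exact Rr_mono _ (by omega)
          · left
            apply L_goodOrbits_of_top (not_lt.1 hk)
            rw [eq_top_iff, ← h]
            exact Rr_mono _ (by omega)
      · obtain ⟨W, hW⟩ := exists_block hirr hp
        have := L_nontrivial_orbit hW
        have := hW.prim
        have hcard : Nat.card W < N := by
          have h1 : Nat.card W < Nat.card V := by
            have h3 := AddSubgroup.card_le_card_addGroup W
            rcases h3.lt_or_eq with h4 | h4
            · exact h4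
            · exact absurd (AddSubgroup.eq_top_of_card_eq W h4) hW.ne_top
          omega
        rcases ih (MulAction.stabilizer G W) W hcard hW.irr with h | ⟨h, h'⟩
        · exact Or.inl (goodOrbits_of_colorings hW (hmany G (MulAction.orbit G W)) h)
        · have hWn : Nontrivial W := hW.irr.1
          have h2' : 2 ≤ nOrb (MulAction.stabilizer G W) W := L_two_le_nOrb
          have hle : c₀ + c₁ * (nOrb (MulAction.stabilizer G W) W - 2) ≤ c₀ + c₁ * k :=
            Nat.add_le_add_left (Nat.mul_le_mul_left _ (by omega)) _
          have htop : Rr (actKer (MulAction.stabilizer G W) W) (c₀ + c₁ * k) = ⊤ := by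
            rw [eq_top_iff, ← h']
            exact Rr_mono _ hle
          by_cases hn : n₁ ≤ Nat.card (MulAction.orbit G W)
          · left
            exact goodOrbits_of_colorings hW (hn₁ G (MulAction.orbit G W) hn)
              (L_goodOrbits_of_top h2' htop)
          · push Not at hn
            have h3 := normalCore_le_Rr hW h'
            have h4 : (Rr (actKer G V)
                (c₀ + c₁ * (nOrb (MulAction.stabilizer G W) W - 2))).index ≤ 2 ^ c₁ := by
              have h5 : (Rr (actKer G V)
                (c₀ + c₁ * (nOrb (MulAction.stabilizer G W) W - 2))).index ≤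
                (MulAction.stabilizer G W).normalCore.index := by
                apply Nat.le_of_dvd
                · exact Nat.pos_of_ne_zero Subgroup.index_ne_zero_of_finite
                · exact Subgroup.index_dvd_of_le h3
              exact h5.trans (index_normalCore_le.trans (hc₁ _ hn))
            have := Rr_normal (actKer G V) (c₀ + c₁ * (nOrb (MulAction.stabilizer G W) W - 2))
            have h5 := Rr_eq_top_of_index _ h4
            rw [Rr_add] at h5
            have h6 := nOrb_block hW
            have h7 : c₁ * (nOrb (MulAction.stabilizer G W) W - 2) + c₁ =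
                c₁ * (nOrb (MulAction.stabilizer G W) W - 1) := by
              obtain ⟨t, ht⟩ := Nat.exists_eq_add_of_le h2'
              rw [ht]
              have e1 : 2 + t - 2 = t := by omega
              have e2 : 2 + t - 1 = t + 1 := by omega
              rw [e1, e2]
              ring
            rw [add_assoc, h7] at h5
            by_cases hk : nOrb G V < k
            · refine Or.inr ⟨hk, ?_⟩
              rw [eq_top_iff, ← h5]
              exact Rr_mono _ (Nat.add_le_add_left (Nat.mul_le_mul_left _ (by omega)) _)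
            · left
              apply L_goodOrbits_of_top (not_lt.1 hk)
              rw [eq_top_iff, ← h5]
              exact Rr_mono _ (Nat.add_le_add_left (Nat.mul_le_mul_left _ (by omega)) _)
  refine ⟨c₀ + c₁ * k, ?_⟩
  intro G _ _ _ V _ _ _ hirr
  rcases claim (Nat.card V + 1) G V (by omega) hirr with ⟨w, h1, _⟩ | ⟨h1, h2⟩
  · exact ⟨w ⟨0, hk1⟩, h1 _⟩
  · refine ⟨0, fun g _ => ?_⟩
    have h3 : Rr (actKer G V) (c₀ + c₁ * (nOrb G V - 2)) ≤ Rr (actKer G V) (c₀ + c₁ * k) :=
      Rr_mono _ (Nat.add_le_add_left (Nat.mul_le_mul_left _ (by omega)) _)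
    apply h3
    rw [h2]
    exact Subgroup.mem_top g

end Pool.Agent.FH
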